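import Pool.Agent.Lib.MP_17a322_nt.VA.ZDefs
import Pool.Agent.Lib.MP_17a322_nt.VA.A3b

/-!
Families of closed subsets of an abelian variety: the special translates.
-/

universe u

namespace Pool.Agent.Lib.MP_17a322_nt.FU

open MvPolynomial
open Pool.Agent.Lib.MP_17a322_nt.VA

/-- `P + B` is contained in the closed subset `f = 0` for the parameter `t`. -/
def Tr {K : Type u} [Field K] {N M : ℕ} {A B : AV K N} (hB : IsSubAV B A) (P : A.Pts K)
    (t : Fin (M + 1) → K) (f : MvPolynomial (Fin (N + 1) ⊕ Fin (M + 1)) K) : Prop :=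
  ∀ (L : Type u) [Field L] [Algebra K L] (b : B.Pts L),
    aeval (Sum.elim (A.x (A.img (Algebra.ofId K L) P + hB.inc L b))
      fun l => algebraMap K L (t l)) f = 0

/-- The intersection of `P + B` and of the closed subset `g_1 = ... = g_r = 0` for the parameter `t`
has codimension at most one in `P + B`: there is a point of `B` over an extension field whose
translate by `P` lies in the closed subset, and whose transcendence degree is at least the dimension
of `B` minus one. -/
def Bad {K : Type u} [Field K] {N M : ℕ} {A B : AV K N} (hB : IsSubAV B A) (P : A.Pts K)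
    (t : Fin (M + 1) → K) {r : ℕ} (g : Fin r → MvPolynomial (Fin (N + 1) ⊕ Fin (M + 1)) K) : Prop :=
  ∃ (L : Type u) (_ : Field L) (_ : Algebra K L) (b : B.Pts L),
    (∀ j, aeval (Sum.elim (A.x (A.img (Algebra.ofId K L) P + hB.inc L b))
      fun l => algebraMap K L (t l)) (g j) = 0) ∧
    ∀ (L' : Type u) [Field L'] [Algebra K L'] (q : B.Pts L'),
      tdeg K (B.x q) ≤ tdeg K (B.x b) + 1

end Pool.Agent.Lib.MP_17a322_nt.FU
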