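import Pool.Agent.Lib.MP_17a322_nt.VA.A3b
import Pool.Agent.Lib.MP_17a322_nt.VN.Defs

/-!
Forms in the coordinates of `A` and parameters `t`: substitution of the sum of two points. Membership of
germs of polynomials in an ideal over `K`.
-/

universe u w

namespace Pool.Agent.Lib.MP_17a322_nt.FU

open MvPolynomial Filter
open Pool.Agent.Lib.MP_17a322_nt.VA
open Pool.Agent.Lib.MP_17a322_nt.VN (GK gm)

section

variable {K : Type u} [Field K]

/-- If the germ of a sequence of polynomials lies in the ideal generated by `I`, then almost all members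
of the sequence lie in `I`. -/
theorem U_germ_mem {σ : Type*} (I : Ideal (MvPolynomial σ K)) (G : MvPolynomial σ (ℕ → K))
    (h : MvPolynomial.map (Filter.Germ.coeRingHom (hyperfilter ℕ : Filter ℕ)) G ∈
      I.map (MvPolynomial.map (algebraMap K (GK K)))) :
    ∀ᶠ i in (hyperfilter ℕ : Filter ℕ),
      MvPolynomial.map (Pi.evalRingHom (fun _ : ℕ => K) i) G ∈ I := by
  classical
  obtain ⟨γ, hγ⟩ : ∃ γ : (ℕ → K) →+* GK K, γ =
      Filter.Germ.coeRingHom (hyperfilter ℕ : Filter ℕ) := ⟨_, rfl⟩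
  have hγs : Function.Surjective γ := by
    rw [hγ]
    exact Quotient.mk_surjective
  have h1 : I.map (MvPolynomial.map (σ := σ) (algebraMap K (GK K))) =
      (I.map (MvPolynomial.map (Pi.constRingHom ℕ K))).map (MvPolynomial.map γ) := by
    rw [Ideal.map_map, hγ]
    congr 1
    refine RingHom.ext fun f => ?_
    rw [RingHom.comp_apply, MvPolynomial.map_map]
    rfl
  rw [← hγ, h1, Ideal.mem_map_iff_of_surjective _ (MvPolynomial.map_surjective γ hγs)] at h
  obtain ⟨G', hG', h2⟩ := h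
  have h3 : ∀ m, ∀ᶠ i in (hyperfilter ℕ : Filter ℕ), coeff m G' i = coeff m G i := by
    intro m
    have h4 : γ (coeff m G') = γ (coeff m G) := by
      rw [← coeff_map, ← coeff_map, h2]
    rw [hγ] at h4
    exact Filter.Germ.coe_eq.1 h4
  have h4 : ∀ᶠ i in (hyperfilter ℕ : Filter ℕ), ∀ m ∈ G'.support ∪ G.support,
      coeff m G' i = coeff m G i := (eventually_all_finset _).2 fun m _ => h3 m
  filter_upwards [h4] with i hi
  have h5 : MvPolynomial.map (Pi.evalRingHom (fun _ : ℕ => K) i) G =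
      MvPolynomial.map (Pi.evalRingHom (fun _ : ℕ => K) i) G' := by
    ext m
    rw [coeff_map, coeff_map]
    by_cases hm : m ∈ G'.support ∪ G.support
    · exact (hi m hm).symm
    · rw [Finset.mem_union, not_or, notMem_support_iff, notMem_support_iff] at hm
      rw [hm.1, hm.2]
  rw [h5]
  have h6 := Ideal.mem_map_of_mem (MvPolynomial.map (Pi.evalRingHom (fun _ : ℕ => K) i)) hG'
  rw [Ideal.map_map] at h6
  have h7 : (MvPolynomial.map (Pi.evalRingHom (fun _ : ℕ => K) i)).comp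
      (MvPolynomial.map (σ := σ) (Pi.constRingHom ℕ K)) = RingHom.id _ := by
    refine RingHom.ext fun f => ?_
    rw [RingHom.comp_apply, MvPolynomial.map_map]
    exact MvPolynomial.map_id f
  rw [h7, Ideal.map_id] at h6
  exact h6

end

section

variable {K : Type u} [Field K] {N M : ℕ} (A : AV K N)

/-- The form `f` in the coordinates of `x + Y` and `t`, times the power of the coordinate `c` of
`x - Y`. -/
noncomputable def U_G {R : Type w} [CommRing R] [Algebra K R] (x : Fin (N + 1) → R)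
    (t : Fin (M + 1) → R) (c : Fin (N + 1)) (f : MvPolynomial (Fin (N + 1) ⊕ Fin (M + 1)) K) :
    MvPolynomial (Fin (N + 1)) R :=
  aeval (Sum.elim (fun a => aeval (Sum.elim (fun i => C (x i)) X) (A.S a c)) fun l => C (t l)) f

theorem U_G_aeval {R : Type w} [CommRing R] [Algebra K R] (x : Fin (N + 1) → R)
    (t : Fin (M + 1) → R) (c : Fin (N + 1)) (f : MvPolynomial (Fin (N + 1) ⊕ Fin (M + 1)) K)
    {R' : Type*} [CommRing R'] [Algebra K R'] [Algebra R R'] [IsScalarTower K R R']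
    (y : Fin (N + 1) → R') :
    aeval y (U_G A x t c f) = aeval (Sum.elim
      (fun a => aeval (Sum.elim (fun i => algebraMap R R' (x i)) y) (A.S a c))
      fun l => algebraMap R R' (t l)) f := by
  obtain ⟨ψ, hψ⟩ : ∃ ψ : MvPolynomial (Fin (N + 1)) R →ₐ[K] R',
      ∀ g, ψ g = aeval y g := ⟨(aeval y).restrictScalars K, fun _ => rfl⟩
  unfold U_G
  rw [← hψ, comp_aeval_apply]
  congr 2
  funext i
  rcases i with a | l
  · rw [Sum.elim_inl, Sum.elim_inl, comp_aeval_apply]
    congr 2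
    funext i
    rcases i with i | i
    · rw [Sum.elim_inl, Sum.elim_inl, hψ, aeval_C]
    · rw [Sum.elim_inr, Sum.elim_inr, hψ, aeval_X]
  · rw [Sum.elim_inr, Sum.elim_inr, hψ, aeval_C]

theorem U_G_map {R : Type w} [CommRing R] [Algebra K R] (x : Fin (N + 1) → R)
    (t : Fin (M + 1) → R) (c : Fin (N + 1)) (f : MvPolynomial (Fin (N + 1) ⊕ Fin (M + 1)) K)
    {R' : Type*} [CommRing R'] [Algebra K R'] (φ : R →ₐ[K] R') :
    MvPolynomial.map (φ : R →+* R') (U_G A x t c f) =
      U_G A (fun i => φ (x i)) (fun l => φ (t l)) c f := by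
  obtain ⟨ψ, hψ⟩ : ∃ ψ : MvPolynomial (Fin (N + 1)) R →ₐ[K] MvPolynomial (Fin (N + 1)) R',
      ∀ g, ψ g = MvPolynomial.map (φ : R →+* R') g := ⟨MvPolynomial.mapAlgHom φ, fun _ => rfl⟩
  unfold U_G
  rw [← hψ, comp_aeval_apply]
  congr 2
  funext i
  rcases i with a | l
  · rw [Sum.elim_inl, Sum.elim_inl, comp_aeval_apply]
    congr 2
    funext i
    rcases i with i | i
    · rw [Sum.elim_inl, Sum.elim_inl, hψ, map_C]
      rfl
    · rw [Sum.elim_inr, Sum.elim_inr, hψ, map_X]
  · rw [Sum.elim_inr, Sum.elim_inr, hψ, map_C]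
    rfl

/-- Values of bihomogeneous forms at multiples. -/
theorem U_smul {D D' : ℕ} {f : MvPolynomial (Fin (N + 1) ⊕ Fin (M + 1)) K}
    (hf : ∀ μ ∈ f.support, ∑ i, μ (Sum.inl i) = D ∧ ∑ l, μ (Sum.inr l) = D') {R : Type*}
    [CommRing R] [Algebra K R] (a b : R) (x : Fin (N + 1) → R) (t : Fin (M + 1) → R) :
    aeval (Sum.elim (fun i => a * x i) fun l => b * t l) f =
      a ^ D * b ^ D' * aeval (Sum.elim x t) f := by
  rw [aeval_def, aeval_def, eval₂_eq', eval₂_eq', Finset.mul_sum]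
  refine Finset.sum_congr rfl fun μ hμ => ?_
  obtain ⟨h1, h2⟩ := hf μ hμ
  rw [Fintype.prod_sum_type, Fintype.prod_sum_type]
  simp only [Sum.elim_inl, Sum.elim_inr]
  rw [← h1, ← h2, ← Finset.prod_pow_eq_pow_sum, ← Finset.prod_pow_eq_pow_sum]
  simp only [mul_pow, Finset.prod_mul_distrib]
  ring

theorem U_G_smul {D D' : ℕ} {f : MvPolynomial (Fin (N + 1) ⊕ Fin (M + 1)) K}
    (hf : ∀ μ ∈ f.support, ∑ i, μ (Sum.inl i) = D ∧ ∑ l, μ (Sum.inr l) = D') {R : Type w}
    [CommRing R] [Algebra K R] (a b : R) (x : Fin (N + 1) → R) (t : Fin (M + 1) → R)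
    (c : Fin (N + 1)) :
    U_G A (fun i => a * x i) (fun l => b * t l) c f =
      C ((a ^ 2) ^ D * b ^ D') * U_G A x t c f := by
  unfold U_G
  have h1 : ∀ a', aeval (Sum.elim (fun i => (C (a * x i) : MvPolynomial (Fin (N + 1)) R)) X)
      (A.S a' c) = C (a ^ 2) * aeval (Sum.elim (fun i => C (x i)) X) (A.S a' c) := by
    intro a'
    have h2 := A.S_smul a' c (C a : MvPolynomial (Fin (N + 1)) R) 1 (fun i => C (x i)) X
    simp only [one_mul, one_pow, mul_one, ← C_mul, ← C_pow] at h2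
    exact h2
  have h3 : (Sum.elim (fun a' => aeval (Sum.elim (fun i =>
      (C (a * x i) : MvPolynomial (Fin (N + 1)) R)) X) (A.S a' c)) fun l =>
      (C (b * t l) : MvPolynomial (Fin (N + 1)) R)) =
      Sum.elim (fun a' => C (a ^ 2) * aeval (Sum.elim (fun i => C (x i)) X) (A.S a' c))
        fun l => C b * C (t l) := by
    congr 1
    · funext a'
      exact h1 a'
    · funext l
      exact C_mul
  rw [h3, U_smul hf, ← C_pow, ← C_pow, ← C_mul]

/-- The degree. -/
theorem U_G_hom {D D' : ℕ} {f : MvPolynomial (Fin (N + 1) ⊕ Fin (M + 1)) K}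
    (hf : ∀ μ ∈ f.support, ∑ i, μ (Sum.inl i) = D ∧ ∑ l, μ (Sum.inr l) = D') {R : Type w}
    [CommRing R] [Algebra K R] (x : Fin (N + 1) → R) (t : Fin (M + 1) → R) (c : Fin (N + 1)) :
    (U_G A x t c f).IsHomogeneous (2 * D) := by
  unfold U_G
  rw [aeval_def, eval₂_eq']
  refine IsHomogeneous.sum _ _ _ fun μ hμ => ?_
  obtain ⟨h1, h2⟩ := hf μ hμ
  have hS : ∀ a, (aeval (Sum.elim (fun i => (C (x i) : MvPolynomial (Fin (N + 1)) R)) X)
      (A.S a c)).IsHomogeneous 2 := by
    intro a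
    rw [aeval_def, eval₂_eq']
    refine IsHomogeneous.sum _ _ _ fun ν hν => ?_
    obtain ⟨-, h3⟩ := A.bihomog a c ν hν
    rw [Fintype.prod_sum_type]
    simp only [Sum.elim_inl, Sum.elim_inr]
    have e1 : ((algebraMap K (MvPolynomial (Fin (N + 1)) R)) (coeff ν (A.S a c))).IsHomogeneous
        0 := isHomogeneous_C _ _
    have e2 : (∏ i, (C (x i) : MvPolynomial (Fin (N + 1)) R) ^ ν (Sum.inl i)).IsHomogeneous 0 := by
      have e3 := IsHomogeneous.prod Finset.univ
        (fun i => (C (x i) : MvPolynomial (Fin (N + 1)) R) ^ ν (Sum.inl i)) (fun _ => 0)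
        fun i _ => by
          have e4 := (isHomogeneous_C (Fin (N + 1)) (x i)).pow (ν (Sum.inl i))
          rwa [zero_mul] at e4
      rwa [Finset.sum_const_zero] at e3
    have e5 : (∏ i, (X i : MvPolynomial (Fin (N + 1)) R) ^ ν (Sum.inr i)).IsHomogeneous 2 := by
      have e3 := IsHomogeneous.prod Finset.univ
        (fun i => (X i : MvPolynomial (Fin (N + 1)) R) ^ ν (Sum.inr i)) (fun i => ν (Sum.inr i))
        fun i _ => by
          have e4 := (isHomogeneous_X R i).pow (ν (Sum.inr i))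
          rwa [one_mul] at e4
      rwa [h3] at e3
    have e6 := e1.mul (e2.mul e5)
    rwa [zero_add, zero_add] at e6
  rw [Fintype.prod_sum_type]
  simp only [Sum.elim_inl, Sum.elim_inr]
  have e1 : ((algebraMap K (MvPolynomial (Fin (N + 1)) R)) (coeff μ f)).IsHomogeneous 0 :=
    isHomogeneous_C _ _
  have e2 : (∏ l, (C (t l) : MvPolynomial (Fin (N + 1)) R) ^ μ (Sum.inr l)).IsHomogeneous 0 := by
    have e3 := IsHomogeneous.prod Finset.univ
      (fun l => (C (t l) : MvPolynomial (Fin (N + 1)) R) ^ μ (Sum.inr l)) (fun _ => 0)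
      fun l _ => by
        have e4 := (isHomogeneous_C (Fin (N + 1)) (t l)).pow (μ (Sum.inr l))
        rwa [zero_mul] at e4
    rwa [Finset.sum_const_zero] at e3
  have e5 : (∏ a, (aeval (Sum.elim (fun i => (C (x i) : MvPolynomial (Fin (N + 1)) R)) X)
      (A.S a c)) ^ μ (Sum.inl a)).IsHomogeneous (2 * D) := by
    have e3 := IsHomogeneous.prod Finset.univ
      (fun a => (aeval (Sum.elim (fun i => (C (x i) : MvPolynomial (Fin (N + 1)) R)) X)
        (A.S a c)) ^ μ (Sum.inl a)) (fun a => 2 * μ (Sum.inl a)) fun a _ => (hS a).pow _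
    rwa [← Finset.mul_sum, h1] at e3
  have e6 := e1.mul (e5.mul e2)
  rwa [zero_add, add_zero] at e6

/-- The value at two points. -/
theorem U_at {D D' : ℕ} {f : MvPolynomial (Fin (N + 1) ⊕ Fin (M + 1)) K}
    (hf : ∀ μ ∈ f.support, ∑ i, μ (Sum.inl i) = D ∧ ∑ l, μ (Sum.inr l) = D') {L : Type u}
    [Field L] [Algebra K L] {P Q : A.Pts L} {x y : Fin (N + 1) → L} (hx : A.Rep P x)
    (hy : A.Rep Q y) (t : Fin (M + 1) → L) (c : Fin (N + 1)) :
    ∃ e : L, (e ≠ 0 ↔ A.x (P - Q) c ≠ 0) ∧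
      aeval (Sum.elim (fun a => aeval (Sum.elim x y) (A.S a c)) t) f =
        e ^ D * aeval (Sum.elim (A.x (P + Q)) t) f := by
  obtain ⟨s, hs, h1⟩ := hx.spec hy
  refine ⟨s * A.x (P - Q) c, ?_, ?_⟩
  · rw [mul_ne_zero_iff]
    exact ⟨fun h => h.2, fun h => ⟨hs, h⟩⟩
  · have h2 : (Sum.elim (fun a => aeval (Sum.elim x y) (A.S a c)) t : _ → L) =
        Sum.elim (fun a => (s * A.x (P - Q) c) * A.x (P + Q) a) fun l => 1 * t l := by
      congr 1
      · funext a
        rw [h1]
        ring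
      · funext l
        rw [one_mul]
    rw [h2, U_smul hf, one_pow, mul_one]

end

end Pool.Agent.Lib.MP_17a322_nt.FU
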