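import Pool.Agent.Lib.MP_17a322_nt.FU.A1
import Pool.Agent.Lib.MP_17a322_nt.SL.Geo
import Pool.Agent.Lib.MP_17a322_nt.VA.N6
import Pool.Agent.Lib.MP_17a322_nt.VA.Z15
import Pool.Agent.Lib.MP_17a322_nt.VA.Z17
import Pool.Agent.Lib.MP_17a322_nt.VP.EN3

/-!
Equations with coefficients of small height at a germ hold on the translate of the abelian subvariety.
-/

universe u

namespace Pool.Agent.Lib.MP_17a322_nt.FU

open MvPolynomial Height Filter
open Pool.Agent.Lib.MP_17a322_nt.RO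
open Pool.Agent.Lib.MP_17a322_nt.VJ
open Pool.Agent.Lib.MP_17a322_nt.VN hiding lf
open Pool.Agent.Lib.MP_17a322_nt.VA
open Pool.Agent.Lib.MP_17a322_nt.VP
open Pool.Agent.Lib.MP_17a322_nt.SL

/-- A homogeneous equation over `k` which holds at a point with Noether coordinates independent over
`k` is an equation of the variety over `k`. -/
theorem U_mem_ENJ {K : Type u} [Field K] {N : ℕ} {B : AV K N} {n e : ℕ} (nd : Noe B n e)
    {k : Type u} [Field k] [Algebra K k] {Ω : Type u} [Field Ω] [Algebra K Ω] [Algebra k Ω]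
    [IsScalarTower K k Ω] (b : B.Pts Ω) (hl : lf (nd.l 0) (B.x b) ≠ 0)
    (hind : AlgebraicIndependent k (nd.s b)) {d : ℕ} {f : MvPolynomial (Fin (N + 1)) k}
    (hf : f.IsHomogeneous d) (hfb : aeval (B.x b) f = 0) : f ∈ ENJ B k := by
  have hy : B.IsPt (nd.y b) := nd.y_isPt b
  have hy1 : lf (nd.l 0) (nd.y b) = 1 := Z_lf_y nd hl
  have hs : (fun t : Fin n => lf (nd.l t.succ) (nd.y b)) = nd.s b := by
    funext t
    show lf (nd.l t.succ) (fun a => B.x b a / lf (nd.l 0) (B.x b)) = _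
    unfold lf Noe.s lf
    rw [Finset.sum_div]
    exact Finset.sum_congr rfl fun a _ => (mul_div_assoc _ _ _).symm
  have hfy : aeval (nd.y b) f = 0 := by
    have h1 : nd.y b = fun a => (lf (nd.l 0) (B.x b))⁻¹ * B.x b a :=
      funext fun a => div_eq_inv_mul _ _
    rw [h1, Z_aeval_smul hf, hfb, mul_zero]
  have hl' : lf (nd.l 0) (ENgp B k) ≠ 0 := EN_l0 nd hy hy1
  have h2 : aeval (ENga B k (nd.l 0)) f = 0 :=
    EN_gen nd hy hy1 (by rw [hs]; exact hind) hfy (EN_ga_isPt _) (EN_lf_ga hl')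
  have h3 : aeval (ENgp B k) f = 0 := by
    rw [EN_gp_eq hl', Z_aeval_smul hf, h2, mul_zero]
  rwa [EN_gp_zero_iff] at h3

section

variable {K : Type u} [Field K] [NumberField K] {N M : ℕ} {A B : AV K N} {hB : IsSubAV B A}
  {H : ℕ → ℝ} {hH : Tendsto H (hyperfilter ℕ : Filter ℕ) atTop} {P : ℕ → A.Pts K}
  {p : A.Pts (GK K)} {W : ℕ → A.Pts K} {w : A.Pts (k0 K H hH)} {w' : A.Pts (GK K)}
  {Q : ℕ → B.Pts K} {b : B.Pts (GK K)} {n : ℕ}

/-- If an equation over `k0` holds at `p`, then it holds on the translate `p + B`. -/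
theorem U_germ (hA : GeoA hB hH P p W w w' Q b) (hBg : GeoB B hH Q b n) {D D' : ℕ}
    {f : MvPolynomial (Fin (N + 1) ⊕ Fin (M + 1)) K}
    (hf : ∀ μ ∈ f.support, ∑ i, μ (Sum.inl i) = D ∧ ∑ l, μ (Sum.inr l) = D')
    (t : Fin (M + 1) → k0 K H hH)
    (h0 : aeval (Sum.elim (A.x p) fun l => (t l : GK K)) f = 0) (c : Fin (N + 1)) :
    U_G A (A.x p) (fun l => (t l : GK K)) c f ∈ ENJ B (GK K) := by
  obtain ⟨s, e, nd, κ, hcov⟩ := exists_cover B hBg.dim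
  obtain ⟨c₀, -⟩ : ∃ _ : Fin s, True := by
    obtain ⟨v₀⟩ : Nonempty (NumberField.InfinitePlace K) := inferInstance
    obtain ⟨c₀, -⟩ := hcov K v₀.val (0 : B.Pts K)
    exact ⟨c₀, trivial⟩
  obtain ⟨p₁, hgood⟩ := exists_shift B Q b hBg.germ hBg.min e nd
  obtain ⟨q₁, hq₁⟩ : ∃ q₁, q₁ = B.img (Algebra.ofId K (GK K)) p₁ := ⟨_, rfl⟩
  have hp₁ : B.Img (Algebra.ofId K (GK K)) p₁ q₁ := by
    rw [hq₁]
    exact Z_img_img _ _
  obtain ⟨w₁, hw₁⟩ : ∃ w₁ : A.Pts (k0 K H hH),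
      A.Img (k0 K H hH).val w₁ (w' + hB.inc (GK K) q₁) := by
    obtain ⟨y, hy⟩ := Z_exists_img A (k0 K H hH).val
      (A.img (Algebra.ofId K (k0 K H hH)) (hB.inc K p₁))
    have h1 := Z_img_trans A (Z_img_img (Algebra.ofId K (k0 K H hH)) (hB.inc K p₁)) hy
    have h2 : (k0 K H hH).val.comp (Algebra.ofId K (k0 K H hH)) = Algebra.ofId K (GK K) :=
      Subsingleton.elim _ _
    rw [h2] at h1
    rw [← Z_img_unique A h1 (Z_inc_img hB hp₁)]
    exact ⟨_, Z_img_add A hA.img hy⟩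
  obtain ⟨w₁', hw₁'⟩ : ∃ z, z = w' + hB.inc (GK K) q₁ := ⟨_, rfl⟩
  rw [← hw₁'] at hw₁
  obtain ⟨b₁, hb₁⟩ : ∃ z, z = b - q₁ := ⟨_, rfl⟩
  have hrel : p = w₁' + hB.inc (GK K) b₁ := by
    rw [hA.rel, hw₁', hb₁, map_sub]
    abel
  have hind : AlgebraicIndependent (k0 K H hH) ((nd c₀).s b₁) := by
    rw [hb₁, hq₁]
    exact hBg.indep p₁ (nd c₀) (hgood c₀)
  have hl : lf ((nd c₀).l 0) (B.x b₁) ≠ 0 := by
    rw [hb₁, hq₁]
    exact (hgood c₀).1
  -- the equations over `k0`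
  have hE : ∀ c', U_G A (A.x w₁) t c' f ∈ ENJ B (k0 K H hH) := by
    intro c'
    refine U_mem_ENJ (nd c₀) b₁ hl hind (U_G_hom A hf _ _ _) ?_
    rw [U_G_aeval]
    have h1 : A.Rep w₁' fun i => algebraMap (k0 K H hH) (GK K) (A.x w₁ i) := hw₁
    have h2 : A.Rep (hB.inc (GK K) b₁) (B.x b₁) := AV.Rep.self (A := A) (hB.inc (GK K) b₁)
    obtain ⟨e', -, h3⟩ := U_at A hf h1 h2 (fun l => (t l : GK K)) c'
    rw [← hrel, h0, mul_zero] at h3
    exact h3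
  -- the generic point of `B`
  obtain ⟨F, hF⟩ : ∃ F : Type u, F = GK K := ⟨_, rfl⟩
  rw [← EN_gp_zero_iff, U_G_aeval]
  obtain ⟨y, hy⟩ : ∃ y, y = ENgp B (GK K) := ⟨_, rfl⟩
  have hyP : B.IsPt y := by
    rw [hy]
    exact EN_gp_isPt B (GK K)
  have hy0 : y ≠ 0 := by
    intro h1
    have h2 : ∀ i, (X i : MvPolynomial (Fin (N + 1)) (GK K)) ∈ ENJ B (GK K) := by
      intro i
      rw [← EN_gp_zero_iff, aeval_X, ← hy, h1, Pi.zero_apply]
    obtain ⟨i, hi⟩ := B.exists_x_ne b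
    apply hi
    have h3 := EN_mem (B.x_isPt b) (h2 i)
    rwa [aeval_X] at h3
  obtain ⟨β, hβ⟩ := AV.exists_rep hy0 hyP
  rw [← hy]
  have hβA : A.Rep (hB.inc _ β) y := hβ
  obtain ⟨pL, hpL⟩ : ∃ z, z = A.img (IsScalarTower.toAlgHom K (GK K) (ENF B (GK K))) p := ⟨_, rfl⟩
  have hpR : A.Rep pL fun i => algebraMap (GK K) (ENF B (GK K)) (A.x p i) := by
    rw [hpL]
    exact A.img_rep _ p
  obtain ⟨wL, hwL⟩ : ∃ z, z = A.img (IsScalarTower.toAlgHom K (GK K) (ENF B (GK K))) w₁' :=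
    ⟨_, rfl⟩
  obtain ⟨bL, hbL⟩ : ∃ z, z = B.img (IsScalarTower.toAlgHom K (GK K) (ENF B (GK K))) b₁ :=
    ⟨_, rfl⟩
  have hsum : pL + hB.inc _ β = wL + hB.inc _ (bL + β) := by
    have h1 : A.img (IsScalarTower.toAlgHom K (GK K) (ENF B (GK K))) (hB.inc (GK K) b₁) =
        hB.inc _ bL := by
      refine (AV.img_eq_iff _).2 ?_
      rw [hbL]
      exact Z_inc_img hB (Z_img_img _ b₁)
    rw [hpL, hrel, AV.img_add, h1, map_add, hwL]
    abel
  obtain ⟨c', hc'⟩ := A.exists_x_ne (wL - hB.inc _ (bL + β))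
  have hwR : A.Rep wL fun i => algebraMap (k0 K H hH) (ENF B (GK K)) (A.x w₁ i) := by
    have h1 : A.Rep w₁' fun i => algebraMap (k0 K H hH) (GK K) (A.x w₁ i) := hw₁
    rw [hwL]
    exact h1.img _
  obtain ⟨e', he', h3⟩ := U_at A hf hwR
    (AV.Rep.self (A := A) (hB.inc (ENF B (GK K)) (bL + β)))
    (fun l => algebraMap (k0 K H hH) (ENF B (GK K)) (t l)) c'
  have h4 := EN_mem (B.x_isPt (bL + β)) (hE c')
  rw [U_G_aeval] at h4
  have h5 : aeval (Sum.elim (A.x (pL + hB.inc _ β))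
      fun l => algebraMap (k0 K H hH) (ENF B (GK K)) (t l)) f = 0 := by
    have h6 := h3.symm.trans h4
    rw [← hsum] at h6
    exact (mul_eq_zero.1 h6).resolve_left (pow_ne_zero _ (he'.2 hc'))
  obtain ⟨e'', -, h7⟩ := U_at A hf hpR hβA
    (fun l => algebraMap (k0 K H hH) (ENF B (GK K)) (t l)) c
  rw [h5, mul_zero] at h7
  exact h7

end

end Pool.Agent.Lib.MP_17a322_nt.FU
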