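import Pool.Agent.Lib.MP_17a322_nt.FU.A2
import Pool.Agent.Lib.MP_17a322_nt.FU.Defs

/-!
If almost all points of a sequence lie in `X_t`, `t` of small height, then almost all translates of the
abelian subvariety by these points are contained in `X_t`.
-/

universe u

namespace Pool.Agent.Lib.MP_17a322_nt.FU

open MvPolynomial Height Filter
open Pool.Agent.Lib.MP_17a322_nt.RO
open Pool.Agent.Lib.MP_17a322_nt.VJ
open Pool.Agent.Lib.MP_17a322_nt.VN hiding lf
open Pool.Agent.Lib.MP_17a322_nt.VA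
open Pool.Agent.Lib.MP_17a322_nt.VP
open Pool.Agent.Lib.MP_17a322_nt.SL

theorem U_Tr {K : Type u} [Field K] {N M : ℕ} {A B : AV K N} (hB : IsSubAV B A) {D D' : ℕ}
    {f : MvPolynomial (Fin (N + 1) ⊕ Fin (M + 1)) K}
    (hf : ∀ μ ∈ f.support, ∑ i, μ (Sum.inl i) = D ∧ ∑ l, μ (Sum.inr l) = D') (P : A.Pts K)
    (t : Fin (M + 1) → K) (h : ∀ c, U_G A (A.x P) t c f ∈ B.I) : Tr hB P t f := by
  intro L _ _ b
  obtain ⟨c, hc⟩ := A.exists_x_ne (A.img (Algebra.ofId K L) P - hB.inc L b)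
  have h1 : A.Rep (A.img (Algebra.ofId K L) P) fun i => algebraMap K L (A.x P i) :=
    A.img_rep (Algebra.ofId K L) P
  obtain ⟨e, he, h2⟩ := U_at A hf h1 (AV.Rep.self (A := A) (hB.inc L b))
    (fun l => algebraMap K L (t l)) c
  have h3 := B.x_isPt b _ (h c)
  rw [U_G_aeval] at h3
  exact (mul_eq_zero.1 (h2.symm.trans h3)).resolve_left (pow_ne_zero _ (he.2 hc))

section

variable {K : Type u} [Field K] [NumberField K] {N M : ℕ} {A B : AV K N} {hB : IsSubAV B A}
  {H : ℕ → ℝ} {hH : Tendsto H (hyperfilter ℕ : Filter ℕ) atTop} {P : ℕ → A.Pts K}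
  {p : A.Pts (GK K)} {W : ℕ → A.Pts K} {w : A.Pts (k0 K H hH)} {w' : A.Pts (GK K)}
  {Q : ℕ → B.Pts K} {b : B.Pts (GK K)} {n : ℕ}

theorem U_index (hA : GeoA hB hH P p W w w' Q b) (hBg : GeoB B hH Q b n) {D D' : ℕ}
    {f : MvPolynomial (Fin (N + 1) ⊕ Fin (M + 1)) K}
    (hf : ∀ μ ∈ f.support, ∑ i, μ (Sum.inl i) = D ∧ ∑ l, μ (Sum.inr l) = D')
    (t : ℕ → Fin (M + 1) → K) (l₀ : Fin (M + 1))
    (ht0 : ∀ᶠ i in (hyperfilter ℕ : Filter ℕ), t i l₀ ≠ 0)
    (hts : ∀ l, gm (fun i => t i l / t i l₀) ∈ k0 K H hH)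
    (h0 : ∀ᶠ i in (hyperfilter ℕ : Filter ℕ), aeval (Sum.elim (A.x (P i)) (t i)) f = 0) :
    ∀ᶠ i in (hyperfilter ℕ : Filter ℕ), Tr hB (P i) (t i) f := by
  obtain ⟨T, hT⟩ : ∃ T : Fin (M + 1) → k0 K H hH,
      ∀ l, (T l : GK K) = gm (fun i => t i l / t i l₀) := ⟨fun l => ⟨_, hts l⟩, fun _ => rfl⟩
  obtain ⟨a, ha⟩ : ∃ a : GK K, a = gm fun i => t i l₀ := ⟨_, rfl⟩
  have ha0 : a ≠ 0 := by
    rw [ha, gm_ne_zero_iff]
    exact ht0
  have hTa : ∀ l, gm (fun i => t i l) = a * (T l : GK K) := by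
    intro l
    rw [hT, ha, ← gm_mul, gm_eq_iff]
    filter_upwards [ht0] with i hi
    rw [mul_div_cancel₀ _ hi]
  obtain ⟨c₀, hc₀, hx⟩ := hA.germP
  have h1 : aeval (Sum.elim (A.x p) fun l => (T l : GK K)) f = 0 := by
    have h2 := Z_aeval_gm (fun (s : Fin (N + 1) ⊕ Fin (M + 1)) (i : ℕ) =>
      Sum.elim (A.x (P i)) (t i) s) f
    have h3 : (fun s : Fin (N + 1) ⊕ Fin (M + 1) => gm fun i => Sum.elim (A.x (P i)) (t i) s) =
        Sum.elim (fun i => c₀ * A.x p i) fun l => a * (T l : GK K) := by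
      funext s
      rcases s with s | s
      · exact hx s
      · exact hTa s
    rw [h3, U_smul hf] at h2
    have h4 : gm (fun i => aeval (fun s => Sum.elim (A.x (P i)) (t i) s) f) = 0 :=
      gm_eq_zero_iff.2 h0
    rw [h4] at h2
    exact (mul_eq_zero.1 h2).resolve_left (mul_ne_zero (pow_ne_zero _ hc₀) (pow_ne_zero _ ha0))
  have h2 := U_germ hA hBg hf T h1
  have h3 : ∀ c, ∀ᶠ i in (hyperfilter ℕ : Filter ℕ), U_G A (A.x (P i)) (t i) c f ∈ B.I := by
    intro c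
    obtain ⟨γ, hγ⟩ : ∃ γ : (ℕ → K) →ₐ[K] GK K, ∀ x, γ x = gm x :=
      ⟨{ Filter.Germ.coeRingHom (hyperfilter ℕ : Filter ℕ) with commutes' := fun _ => rfl },
        fun _ => rfl⟩
    have h4 : MvPolynomial.map (Filter.Germ.coeRingHom (hyperfilter ℕ : Filter ℕ))
        (U_G A (fun a => fun i => A.x (P i) a) (fun l => fun i => t i l) c f) ∈
        B.I.map (MvPolynomial.map (algebraMap K (GK K))) := by
      have h5 : MvPolynomial.map (Filter.Germ.coeRingHom (hyperfilter ℕ : Filter ℕ))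
          (U_G A (fun a => fun i => A.x (P i) a) (fun l => fun i => t i l) c f) =
          MvPolynomial.map (γ : (ℕ → K) →+* GK K)
          (U_G A (fun a => fun i => A.x (P i) a) (fun l => fun i => t i l) c f) := by
        refine congrArg (fun φ => MvPolynomial.map φ _) (RingHom.ext fun x => ?_)
        exact (hγ x).symm
      rw [h5, U_G_map]
      have h6 : (fun i => γ fun i' => A.x (P i') i) = fun i => c₀ * A.x p i := by
        funext s
        rw [hγ]
        exact hx s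
      have h7 : (fun l => γ fun i' => t i' l) = fun l => a * (T l : GK K) := by
        funext s
        rw [hγ]
        exact hTa s
      rw [h6, h7, U_G_smul A hf]
      exact Ideal.mul_mem_left _ _ (h2 c)
    filter_upwards [U_germ_mem B.I _ h4] with i hi
    have h5 : MvPolynomial.map (Pi.evalRingHom (fun _ : ℕ => K) i)
        (U_G A (fun a => fun i => A.x (P i) a) (fun l => fun i => t i l) c f) =
        U_G A (A.x (P i)) (t i) c f :=
      U_G_map A _ _ c f (Pi.evalAlgHom K (fun _ : ℕ => K) i)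
    rwa [h5] at hi
  filter_upwards [eventually_all.2 h3] with i hi
  exact U_Tr hB hf (P i) (t i) hi

end

end Pool.Agent.Lib.MP_17a322_nt.FU
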