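import Pool.Agent.Lib.MP_17a322_nt.FU.A1
import Pool.Agent.Lib.MP_17a322_nt.VP.P1
import Pool.Agent.Lib.MP_17a322_nt.VP.P2
import Pool.Agent.Lib.MP_17a322_nt.VA.M16

/-!
Forms whose parameters have small height are not small at the points of a sequence.
-/

universe u

namespace Pool.Agent.Lib.MP_17a322_nt.FU

open MvPolynomial Height Filter
open Pool.Agent.Lib.MP_17a322_nt.RO
open Pool.Agent.Lib.MP_17a322_nt.VJ
open Pool.Agent.Lib.MP_17a322_nt.VN hiding lf
open Pool.Agent.Lib.MP_17a322_nt.VA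
open Pool.Agent.Lib.MP_17a322_nt.VP

section

variable {K : Type u} [Field K] [NumberField K] {N M : ℕ} {A : AV K N} {P : ℕ → A.Pts K}
  {p : A.Pts (GK K)}

/-- Ratios of the parameters. -/
theorem U_ratio {H : ℕ → ℝ} (hH : Tendsto H (hyperfilter ℕ : Filter ℕ) atTop)
    (t : ℕ → Fin (M + 1) → K) (hts : oH H fun i => logHeight (t i)) (l c : Fin (M + 1)) :
    gm (fun i => t i l / t i c) ∈ k0 K H hH := by
  rw [mem_k0]
  refine hts.mono (Eventually.of_forall fun i => ?_)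
  rw [logHeight₁_div_eq_logHeight]
  have h4 : (![t i l, t i c] : Fin 2 → K) = t i ∘ ![l, c] := by
    funext b
    fin_cases b <;> rfl
  rw [h4]
  exact logHeight_comp_le _ _

theorem U_lower (Γ : AddSubgroup (A.Pts K)) (hΓ : Γ.FG) (hP : ∀ i, P i ∈ Γ) {H : ℕ → ℝ}
    (hH : Tendsto H (hyperfilter ℕ : Filter ℕ) atTop)
    (hupp : ∃ C : ℝ, 0 < C ∧ ∀ᶠ i in (hyperfilter ℕ : Filter ℕ), A.h (P i) ≤ C * H i)
    (hPp : IsGerm A P p) {v : AbsoluteValue K ℝ} (hv : Pl v) {D D' : ℕ}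
    {f : MvPolynomial (Fin (N + 1) ⊕ Fin (M + 1)) K}
    (hf : ∀ μ ∈ f.support, ∑ i, μ (Sum.inl i) = D ∧ ∑ l, μ (Sum.inr l) = D')
    (t : ℕ → Fin (M + 1) → K) (ht0 : ∀ i, t i ≠ 0) (hts : oH H fun i => logHeight (t i))
    (hf0 : ∀ᶠ i in (hyperfilter ℕ : Filter ℕ), aeval (Sum.elim (A.x (P i)) (t i)) f ≠ 0)
    (δ : ℝ) (hδ : 0 < δ) :
    ∀ᶠ i in (hyperfilter ℕ : Filter ℕ),
      (⨆ a, v (A.x (P i) a)) ^ D * (⨆ l, v (t i l)) ^ D' * Real.exp (- δ * H i) ≤
        v (aeval (Sum.elim (A.x (P i)) (t i)) f) := by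
  have hch : ∀ᶠ i in (hyperfilter ℕ : Filter ℕ), ∃ c, ∀ l, v (t i l) ≤ v (t i c) :=
    Eventually.of_forall fun i => Finite.exists_max fun b => v (t i b)
  obtain ⟨c, hc⟩ := eventually_exists_fintype _ _ hch
  have hc0 : ∀ᶠ i in (hyperfilter ℕ : Filter ℕ), t i c ≠ 0 := by
    filter_upwards [hc] with i hi
    intro h0
    refine ht0 i (funext fun l => ?_)
    have h1 := hi l
    rw [h0, map_zero] at h1
    exact (v.eq_zero).1 (le_antisymm h1 (v.nonneg _))
  have hu0 : gm (fun i => aeval (Sum.elim (A.x (P i)) (t i)) f / t i c ^ D') ≠ 0 := by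
    rw [gm_ne_zero_iff]
    filter_upwards [hf0, hc0] with i h1 h2
    exact div_ne_zero h1 (pow_ne_zero _ h2)
  have hu : ∀ a, A.x p a ≠ 0 →
      IsAlgebraic (IntermediateField.adjoin (k0 K H hH) (Set.range (rt (A.x p))))
        (gm fun i => aeval (Sum.elim (A.x (P i)) (t i)) f / t i c ^ D' / A.x (P i) a ^ D) := by
    intro a ha
    obtain ⟨E, hE, hSE⟩ := P_field1 (k := k0 K H hH) (Set.range (rt (A.x p)))
    rw [← hE]
    have h1 : gm (fun i => aeval (Sum.elim (A.x (P i)) (t i)) f / t i c ^ D' /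
        A.x (P i) a ^ D) = aeval (fun s => gm fun i =>
          Sum.elim (fun b => A.x (P i) b / A.x (P i) a) (fun l => t i l / t i c) s) f := by
      rw [Z_aeval_gm, gm_eq_iff]
      filter_upwards [(hPp.ne_iff a).1 ha, hc0] with i h1 h2
      have h3 := U_smul hf (A.x (P i) a) (t i c) (fun b => A.x (P i) b / A.x (P i) a)
        (fun l => t i l / t i c)
      have h4 : (fun b => A.x (P i) a * (A.x (P i) b / A.x (P i) a)) = A.x (P i) :=
        funext fun b => mul_div_cancel₀ _ h1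
      have h5 : (fun l => t i c * (t i l / t i c)) = t i :=
        funext fun l => mul_div_cancel₀ _ h2
      rw [h4, h5] at h3
      rw [h3, div_div, mul_comm (t i c ^ D'),
        mul_div_cancel_left₀ _ (mul_ne_zero (pow_ne_zero _ h1) (pow_ne_zero _ h2))]
    rw [h1]
    refine P_aeval_mem1 (fun s => ?_) f
    rcases s with b | l
    · have h2 : gm (fun i => A.x (P i) b / A.x (P i) a) ∈ E := by
        have h3 := hPp.rt (b, a)
        have h4 : rt (A.x p) (b, a) ∈ E := hSE ⟨(b, a), rfl⟩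
        rwa [h3] at h4
      exact h2
    · have h2 := E.algebraMap_mem (⟨_, U_ratio hH t hts l c⟩ : k0 K H hH)
      exact h2
  filter_upwards [P_lower Γ hΓ hP hH hupp hPp hv _ hu0 D hu δ hδ, hc0, hc] with i h1 h2 h3
  have h4 : (⨆ l, v (t i l)) = v (t i c) :=
    le_antisymm (ciSup_le h3) (le_ciSup (Set.finite_range fun l => v (t i l)).bddAbove c)
  have h5 : 0 < v (t i c) ^ D' := pow_pos (v.pos h2) D'
  rw [map_div₀, map_pow, le_div_iff₀ h5] at h1
  rw [h4]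
  linarith [mul_assoc ((⨆ a, v (A.x (P i) a)) ^ D) (Real.exp (- δ * H i)) (v (t i c) ^ D'),
    mul_comm (Real.exp (- δ * H i)) (v (t i c) ^ D'),
    mul_assoc ((⨆ a, v (A.x (P i) a)) ^ D) (v (t i c) ^ D') (Real.exp (- δ * H i))]

/-- The contribution of one place. -/
theorem U_place {D D' m : ℕ} (v : AbsoluteValue K ℝ) {x : Fin (N + 1) → K} (hx : x ≠ 0)
    {t : Fin (M + 1) → K} (ht : t ≠ 0) {y : Fin m → K} (j : Fin m) {s : ℝ}
    (h : (⨆ a, v (x a)) ^ D * (⨆ l, v (t l)) ^ D' * Real.exp (-s) ≤ v (y j)) :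
    D * Real.log (⨆ a, v (x a)) + D' * Real.log (⨆ l, v (t l)) - Real.log (⨆ j, v (y j)) ≤ s := by
  have h1 := P_sup_pos hx v
  have h2 := P_sup_pos ht v
  have h3 : (⨆ a, v (x a)) ^ D * (⨆ l, v (t l)) ^ D' * Real.exp (-s) ≤ ⨆ j, v (y j) :=
    h.trans (le_ciSup (Set.finite_range fun j => v (y j)).bddAbove j)
  have h4 := Real.log_le_log (mul_pos (mul_pos (pow_pos h1 D) (pow_pos h2 D')) (Real.exp_pos _)) h3
  rw [Real.log_mul (mul_pos (pow_pos h1 D) (pow_pos h2 D')).ne' (Real.exp_pos _).ne',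
    Real.log_mul (pow_pos h1 D).ne' (pow_pos h2 D').ne', Real.log_exp, Real.log_pow,
    Real.log_pow] at h4
  linarith

end

end Pool.Agent.Lib.MP_17a322_nt.FU
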