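import Pool.Agent.Lib.MP_17a322_nt.FU.B1

/-!
The proximity to closed subsets in a family: all places together.
-/

universe u

namespace Pool.Agent.Lib.MP_17a322_nt.FU

open MvPolynomial Height Filter
open Pool.Agent.Lib.MP_17a322_nt.RO
open Pool.Agent.Lib.MP_17a322_nt.VJ
open Pool.Agent.Lib.MP_17a322_nt.VN hiding lf
open Pool.Agent.Lib.MP_17a322_nt.VA
open Pool.Agent.Lib.MP_17a322_nt.VP

/-- The local height of the point `x` with respect to the closed subset `f = 0` for the parameter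
`t`. -/
noncomputable def lamF {K : Type*} [Field K] {N M m : ℕ} (D D' : ℕ)
    (f : Fin m → MvPolynomial (Fin (N + 1) ⊕ Fin (M + 1)) K) (x : Fin (N + 1) → K)
    (t : Fin (M + 1) → K) (v : AbsoluteValue K ℝ) : ℝ :=
  D * Real.log (⨆ i, v (x i)) + D' * Real.log (⨆ l, v (t l)) -
    Real.log (⨆ j, v (aeval (Sum.elim x t) (f j)))

section

variable {K : Type u} [Field K] [NumberField K] {N M : ℕ} {A : AV K N} {P : ℕ → A.Pts K}
  {p : A.Pts (GK K)}

theorem U_prox (Γ : AddSubgroup (A.Pts K)) (hΓ : Γ.FG) (hP : ∀ i, P i ∈ Γ) {H : ℕ → ℝ}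
    (hH : Tendsto H (hyperfilter ℕ : Filter ℕ) atTop)
    (hupp : ∃ C : ℝ, 0 < C ∧ ∀ᶠ i in (hyperfilter ℕ : Filter ℕ), A.h (P i) ≤ C * H i)
    (hPp : IsGerm A P p) {D D' m : ℕ} (f : Fin m → MvPolynomial (Fin (N + 1) ⊕ Fin (M + 1)) K)
    (hf : ∀ j, ∀ μ ∈ (f j).support, ∑ i, μ (Sum.inl i) = D ∧ ∑ l, μ (Sum.inr l) = D')
    (t : ℕ → Fin (M + 1) → K) (ht0 : ∀ i, t i ≠ 0) (hts : oH H fun i => logHeight (t i))
    (j : Fin m)
    (hf0 : ∀ᶠ i in (hyperfilter ℕ : Filter ℕ), aeval (Sum.elim (A.x (P i)) (t i)) (f j) ≠ 0)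
    (S : Finset (NumberField.FinitePlace K)) (ε : ℝ) (hε : 0 < ε) :
    ∀ᶠ i in (hyperfilter ℕ : Filter ℕ),
      (∑ v : NumberField.InfinitePlace K, (v.mult : ℝ) * lamF D D' f (A.x (P i)) (t i) v.val) +
        ∑ v ∈ S, lamF D D' f (A.x (P i)) (t i) v.val ≤ ε * H i := by
  obtain ⟨Mt, hMt⟩ : ∃ Mt : ℝ, Mt = (∑ v : NumberField.InfinitePlace K, (v.mult : ℝ)) + S.card + 1 :=
    ⟨_, rfl⟩
  have hm0 : 0 ≤ ∑ v : NumberField.InfinitePlace K, (v.mult : ℝ) :=
    Finset.sum_nonneg fun v _ => Nat.cast_nonneg _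
  have hMt0 : 0 < Mt := by
    rw [hMt]
    positivity
  have hpl : ∀ v : AbsoluteValue K ℝ, Pl v → ∀ᶠ i in (hyperfilter ℕ : Filter ℕ),
      lamF D D' f (A.x (P i)) (t i) v ≤ ε / Mt * H i := by
    intro v hv
    filter_upwards [U_lower Γ hΓ hP hH hupp hPp hv (hf j) t ht0 hts hf0 (ε / Mt) (by positivity)]
      with i h1
    have h2 : Real.exp (-(ε / Mt) * H i) = Real.exp (-(ε / Mt * H i)) := by
      congr 1
      ring
    rw [h2] at h1
    exact U_place (y := fun j => aeval (Sum.elim (A.x (P i)) (t i)) (f j)) v (Z_x_ne A (P i))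
      (ht0 i) j h1
  have h1 : ∀ᶠ i in (hyperfilter ℕ : Filter ℕ), ∀ v : NumberField.InfinitePlace K,
      lamF D D' f (A.x (P i)) (t i) v.val ≤ ε / Mt * H i :=
    eventually_all.2 fun v => hpl v.val
      (Or.inl (NumberField.mem_multisetInfinitePlace.2 v.isInfinitePlace))
  have h2 : ∀ᶠ i in (hyperfilter ℕ : Filter ℕ), ∀ v ∈ S,
      lamF D D' f (A.x (P i)) (t i) v.val ≤ ε / Mt * H i :=
    (eventually_all_finset S).2 fun v _ => hpl v.val (Or.inr v.isFinitePlace)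
  filter_upwards [h1, h2, hH.eventually_ge_atTop 0] with i g1 g2 g3
  have h3 : ∑ v : NumberField.InfinitePlace K, (v.mult : ℝ) *
      lamF D D' f (A.x (P i)) (t i) v.val ≤
      (∑ v : NumberField.InfinitePlace K, (v.mult : ℝ)) * (ε / Mt * H i) := by
    rw [Finset.sum_mul]
    exact Finset.sum_le_sum fun v _ => mul_le_mul_of_nonneg_left (g1 v) (Nat.cast_nonneg _)
  have h4 : ∑ v ∈ S, lamF D D' f (A.x (P i)) (t i) v.val ≤ S.card * (ε / Mt * H i) := by
    refine (Finset.sum_le_sum fun v hv => g2 v hv).trans ?_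
    rw [Finset.sum_const, nsmul_eq_mul]
  have h5 : Mt * (ε / Mt * H i) = ε * H i := by
    field_simp
  have h6 : 0 ≤ ε / Mt * H i := by positivity
  have h7 : Mt * (ε / Mt * H i) = (∑ v : NumberField.InfinitePlace K, (v.mult : ℝ)) *
      (ε / Mt * H i) + S.card * (ε / Mt * H i) + ε / Mt * H i := by
    rw [hMt]
    ring
  linarith

end

end Pool.Agent.Lib.MP_17a322_nt.FU
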