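import Pool.Agent.Lib.MP_17a322_nt.FU.Defs

/-!
There are countably many abelian subvarieties; the conditions depend only on their ideals.
-/

universe u

namespace Pool.Agent.Lib.MP_17a322_nt.FU

open MvPolynomial
open Pool.Agent.Lib.MP_17a322_nt.VA

theorem countable_numberField (K : Type*) [Field K] [NumberField K] : Countable K :=
  (Module.finBasis ℚ K).equivFun.toEquiv.countable_iff.2 inferInstance

theorem countable_ideal (K : Type*) [Field K] [NumberField K] (N : ℕ) :
    Countable (Ideal (MvPolynomial (Fin (N + 1)) K)) := by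
  have h0 : Countable K := countable_numberField K
  have h1 : Countable (MvPolynomial (Fin (N + 1)) K) :=
    (MvPolynomial.basisMonomials (Fin (N + 1)) K).repr.toEquiv.countable_iff.2 inferInstance
  have h2 : Function.Surjective fun s : Finset (MvPolynomial (Fin (N + 1)) K) =>
      Ideal.span (s : Set (MvPolynomial (Fin (N + 1)) K)) := by
    intro I
    obtain ⟨s, hs⟩ : I.FG := IsNoetherian.noetherian I
    exact ⟨s, hs⟩
  exact h2.countable

section

variable {K : Type u} [Field K] {N M : ℕ} {A B B' : AV K N}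

theorem Tr.congr {hB : IsSubAV B A} (hB' : IsSubAV B' A) (h : B'.I = B.I) {P : A.Pts K}
    {t : Fin (M + 1) → K} {f : MvPolynomial (Fin (N + 1) ⊕ Fin (M + 1)) K} (hT : Tr hB P t f) :
    Tr hB' P t f := by
  intro L _ _ b
  exact hT L ⟨b.1, fun f hf => b.2 f (h ▸ hf)⟩

theorem Bad.congr {hB : IsSubAV B A} (hB' : IsSubAV B' A) (h : B'.I = B.I) {P : A.Pts K}
    {t : Fin (M + 1) → K} {r : ℕ} {g : Fin r → MvPolynomial (Fin (N + 1) ⊕ Fin (M + 1)) K}
    (hT : Bad hB P t g) : Bad hB' P t g := by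
  obtain ⟨L, i1, i2, b, h1, h2⟩ := hT
  refine ⟨L, i1, i2, ⟨b.1, fun f hf => b.2 f (h ▸ hf)⟩, h1, fun L' _ _ q => ?_⟩
  exact h2 L' ⟨q.1, fun f hf => q.2 f (h.symm ▸ hf)⟩

end

end Pool.Agent.Lib.MP_17a322_nt.FU
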