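import Pool.Agent.Lib.MP_17a322_nt.FU.C1
import Pool.Agent.Lib.MP_17a322_nt.VN.F1
import Pool.Agent.Lib.MP_17a322_nt.VA.Z2

/-!
A statement about finite lists of abelian subvarieties fails only if it fails for a sequence.
-/

universe u

namespace Pool.Agent.Lib.MP_17a322_nt.FU

open MvPolynomial Height Filter
open Pool.Agent.Lib.MP_17a322_nt.VN
open Pool.Agent.Lib.MP_17a322_nt.VA

theorem U_list {K : Type u} [Field K] [NumberField K] {N M : ℕ} (A : AV K N)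
    (Γ : AddSubgroup (A.Pts K))
    (X : ∀ B : AV K N, IsSubAV B A → (Fin (M + 1) → K) → A.Pts K → ℝ → Prop)
    (hX : ∀ (B B' : AV K N) (hB : IsSubAV B A) (hB' : IsSubAV B' A) (t : Fin (M + 1) → K)
      (P : A.Pts K) (C : ℝ), B'.I = B.I → X B hB t P C → X B' hB' t P C)
    (E : (Fin (M + 1) → K) → A.Pts K → Prop)
    (hcon : ¬ ∃ (C : ℝ) (k : ℕ) (B : Fin k → AV K N) (hB : ∀ i, IsSubAV (B i) A),
      (∀ i, ∃ n, 0 < n ∧ (B i).dimIs n) ∧
      ∀ t : Fin (M + 1) → K, t ≠ 0 → ∀ P ∈ Γ, C * (1 + logHeight t) ≤ logHeight (A.x P) →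
        (∃ i, X (B i) (hB i) t P C) ∨ E t P) :
    ∃ (t : ℕ → Fin (M + 1) → K) (P : ℕ → A.Pts K), (∀ i, t i ≠ 0) ∧ (∀ i, P i ∈ Γ) ∧
      (∀ i : ℕ, (i : ℝ) * (1 + logHeight (t i)) ≤ logHeight (A.x (P i))) ∧
      (∀ i, ¬ E (t i) (P i)) ∧
      ∀ (B : AV K N) (hB : IsSubAV B A), (∃ n, 0 < n ∧ B.dimIs n) →
        ∀ᶠ i in (hyperfilter ℕ : Filter ℕ), ¬ X B hB (t i) (P i) i := by
  classical
  obtain ⟨J, hJ⟩ : ∃ J : Set (Ideal (MvPolynomial (Fin (N + 1)) K)), ∀ I, I ∈ J ↔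
      ∃ B : AV K N, IsSubAV B A ∧ B.I = I ∧ ∃ n, 0 < n ∧ B.dimIs n := ⟨{I | _}, fun _ => Iff.rfl⟩
  have hc := countable_ideal K N
  obtain ⟨e, he⟩ := exists_injective_nat J
  choose Bf hBf hBI hBn using fun x : J => (hJ x.1).1 x.2
  have hstep : ∀ n : ℕ, ∃ t : Fin (M + 1) → K, t ≠ 0 ∧ ∃ P ∈ Γ,
      (n : ℝ) * (1 + logHeight t) ≤ logHeight (A.x P) ∧
      (∀ x : J, e x < n → ¬ X (Bf x) (hBf x) t P n) ∧ ¬ E t P := by
    intro n
    have hfin : Finite {x : J // e x < n} :=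
      Finite.of_injective (fun x : {x : J // e x < n} => (⟨e x.1, x.2⟩ : Fin n)) fun x y h =>
        Subtype.ext (he (by simpa using congrArg Fin.val h))
    obtain ⟨k, ⟨φ⟩⟩ := Finite.exists_equiv_fin {x : J // e x < n}
    by_contra hno
    refine hcon ⟨n, k, fun i => Bf (φ.symm i).1, fun i => hBf _, fun i => hBn _, ?_⟩
    intro t ht P hP hl
    by_contra h1
    rw [not_or] at h1
    refine hno ⟨t, ht, P, hP, hl, fun x hx h2 => h1.1 ⟨φ ⟨x, hx⟩, ?_⟩, h1.2⟩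
    have key : ∀ y : {x : J // e x < n}, y = ⟨x, hx⟩ → X (Bf y.1) (hBf y.1) t P n := by
      rintro _ rfl
      exact h2
    exact key _ (Equiv.symm_apply_apply φ _)
  choose t ht0 P hP hl hno1 hno2 using hstep
  refine ⟨t, P, ht0, hP, hl, hno2, fun B hB hn => ?_⟩
  obtain ⟨x, hx⟩ : ∃ x : J, x.1 = B.I := ⟨⟨B.I, (hJ _).2 ⟨B, hB, rfl, hn⟩⟩, rfl⟩
  have hxI : (Bf x).I = B.I := (hBI x).trans hx
  have h0 : ∀ᶠ i in (hyperfilter ℕ : Filter ℕ), e x + 1 ≤ i :=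
    (eventually_ge_atTop (e x + 1)).filter_mono Nat.hyperfilter_le_atTop
  filter_upwards [h0] with i h1 h2
  exact hno1 i x (by omega) (hX _ _ _ _ _ _ _ hxI h2)

/-- The heights of such sequences. -/
theorem U_scale {K : Type u} [Field K] [NumberField K] {N M : ℕ} (A : AV K N)
    (t : ℕ → Fin (M + 1) → K) (P : ℕ → A.Pts K) {H : ℕ → ℝ}
    (hHdef : ∀ i, H i = logHeight (A.x (P i)))
    (hl : ∀ i : ℕ, (i : ℝ) * (1 + logHeight (t i)) ≤ logHeight (A.x (P i))) :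
    Tendsto H (hyperfilter ℕ : Filter ℕ) atTop ∧ oH H fun i => 1 + logHeight (t i) := by
  have hl' : ∀ i : ℕ, (i : ℝ) * (1 + logHeight (t i)) ≤ H i := fun i => by
    rw [hHdef]
    exact hl i
  have hge : ∀ m : ℕ, ∀ᶠ i in (hyperfilter ℕ : Filter ℕ), m ≤ i := fun m =>
    (eventually_ge_atTop m).filter_mono Nat.hyperfilter_le_atTop
  constructor
  · refine tendsto_atTop.2 fun C => ?_
    obtain ⟨c, hc⟩ := exists_nat_ge C
    filter_upwards [hge c] with i hi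
    have h1 : (c : ℝ) ≤ i := by exact_mod_cast hi
    have h2 : (0 : ℝ) ≤ i := Nat.cast_nonneg i
    have h3 : 0 ≤ logHeight (t i) := logHeight_nonneg _
    nlinarith [hl' i, mul_nonneg h2 h3]
  · intro η hη
    obtain ⟨c, hc⟩ := exists_nat_ge (1 / η)
    filter_upwards [hge c] with i hi
    have h1 : 1 / η ≤ (i : ℝ) := hc.trans (by exact_mod_cast hi)
    have h2 : 0 ≤ logHeight (t i) := logHeight_nonneg _
    have h3 : 1 ≤ η * i := by
      rw [div_le_iff₀ hη] at h1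
      linarith
    have h4 := mul_le_mul_of_nonneg_left (hl' i) hη.le
    have h5 : η * ((i : ℝ) * (1 + logHeight (t i))) = (η * i) * (1 + logHeight (t i)) := by ring
    have h6 := mul_le_mul_of_nonneg_right h3 (by linarith : 0 ≤ 1 + logHeight (t i))
    linarith

end Pool.Agent.Lib.MP_17a322_nt.FU
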