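import Pool.Agent.Lib.MP_17a322_nt.FU.KO

/-!
The decomposition at all scales: definitions.
-/

universe u

namespace Pool.Agent.Lib.MP_17a322_nt.FU

open MvPolynomial Height Filter
open Pool.Agent.Lib.MP_17a322_nt.RO
open Pool.Agent.Lib.MP_17a322_nt.VJ
open Pool.Agent.Lib.MP_17a322_nt.VN hiding lf
open Pool.Agent.Lib.MP_17a322_nt.VA

/-- `b` is a generic point of `B` over `k`. -/
def GenP {K : Type u} [Field K] {N : ℕ} (B : AV K N) (k : Type u) [Field k] {F : Type u}
    [Field F] [Algebra K F] [Algebra k F] (b : B.Pts F) : Prop :=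
  ∀ (L : Type u) [Field L] [Algebra K L] (q : B.Pts L), tdeg K (B.x q) ≤ tdeg k (B.x b)

/-- A decomposition of the sequence `P` of points at the scale `G`. -/
structure Dec {K : Type u} [Field K] [NumberField K] {N : ℕ} {A : AV K N} (G : ℕ → ℝ)
    (hG : ∀ i, 1 ≤ G i) (P : ℕ → A.Pts K) {B : AV K N} (hB : IsSubAV B A) (W : ℕ → A.Pts K)
    (Q : ℕ → B.Pts K) (b : B.Pts (GK K)) : Prop where
  rel : ∀ᶠ i in (hyperfilter ℕ : Filter ℕ), P i = W i + hB.inc K (Q i)
  germ : IsGerm B Q b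
  gen : GenP B (kO K G hG) b
  ht : OH G fun i => A.h (W i)

/-- The data for a field `k` in place of `k0`. -/
structure GeoK {K : Type u} [Field K] {N : ℕ} {A B : AV K N} (hB : IsSubAV B A)
    (k : IntermediateField K (GK K)) (P : ℕ → A.Pts K) (p : A.Pts (GK K)) (W : ℕ → A.Pts K)
    (w : A.Pts k) (w' : A.Pts (GK K)) (Q : ℕ → B.Pts K) (b : B.Pts (GK K)) : Prop where
  germP : IsGerm A P p
  img : A.Img k.val w w'
  germW : IsGerm A W w'
  rel : p = w' + hB.inc (GK K) b
  relK : ∀ᶠ i in (hyperfilter ℕ : Filter ℕ), P i = W i + hB.inc K (Q i)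
  germ : IsGerm B Q b
  gen : GenP B k b

end Pool.Agent.Lib.MP_17a322_nt.FU
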