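import Pool.Agent.Lib.MP_17a322_nt.VA.Z6
import Pool.Agent.Lib.MP_17a322_nt.VA.ZDefs

/-!
The field of germs of height `O(G)`.
-/

universe u

namespace Pool.Agent.Lib.MP_17a322_nt.FU

open MvPolynomial Height Filter
open Pool.Agent.Lib.MP_17a322_nt.RO
open Pool.Agent.Lib.MP_17a322_nt.VJ
open Pool.Agent.Lib.MP_17a322_nt.VN hiding lf
open Pool.Agent.Lib.MP_17a322_nt.VA

/-- `h = O(G)` along the ultrafilter. -/
def OH (G h : ℕ → ℝ) : Prop :=
  ∃ C : ℝ, ∀ᶠ i in (hyperfilter ℕ : Filter ℕ), h i ≤ C * G i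

theorem OH.add {G h h' : ℕ → ℝ} (h1 : OH G h) (h2 : OH G h') : OH G fun i => h i + h' i := by
  obtain ⟨C, h3⟩ := h1
  obtain ⟨C', h4⟩ := h2
  refine ⟨C + C', ?_⟩
  filter_upwards [h3, h4] with i h5 h6
  linarith

theorem OH.mono {G h h' : ℕ → ℝ} (h1 : OH G h)
    (h2 : ∀ᶠ i in (hyperfilter ℕ : Filter ℕ), h' i ≤ h i) : OH G h' := by
  obtain ⟨C, h3⟩ := h1
  exact ⟨C, by filter_upwards [h2, h3] with i h4 h5 using h4.trans h5⟩

theorem OH.self (G : ℕ → ℝ) : OH G G :=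
  ⟨1, Eventually.of_forall fun i => by rw [one_mul]⟩

theorem OH_const {G : ℕ → ℝ} (hG : ∀ i, 1 ≤ G i) (c : ℝ) : OH G fun _ => c :=
  ⟨|c|, Eventually.of_forall fun i => by nlinarith [hG i, abs_nonneg c, le_abs_self c]⟩

theorem OH.const_mul {G h : ℕ → ℝ} (h1 : OH G h) {c : ℝ} (hc : 0 ≤ c) :
    OH G fun i => c * h i := by
  obtain ⟨C, h3⟩ := h1
  refine ⟨c * C, ?_⟩
  filter_upwards [h3] with i h5
  rw [mul_assoc]
  exact mul_le_mul_of_nonneg_left h5 hc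

theorem OH.trans {G G' h : ℕ → ℝ} (h1 : OH G h) (h2 : OH G' G) (hG : ∀ i, 0 ≤ G i) :
    OH G' h := by
  obtain ⟨C, h3⟩ := h1
  obtain ⟨C', h4⟩ := h2
  refine ⟨|C| * C', ?_⟩
  filter_upwards [h3, h4] with i h5 h6
  have h7 : C * G i ≤ |C| * G i := mul_le_mul_of_nonneg_right (le_abs_self C) (hG i)
  have h8 := mul_le_mul_of_nonneg_left h6 (abs_nonneg C)
  rw [mul_assoc]
  exact h5.trans (h7.trans h8)

theorem OH.sum {G : ℕ → ℝ} (hG : ∀ i, 1 ≤ G i) {ι : Type*}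
    (s : Finset ι) (h : ι → ℕ → ℝ) (h1 : ∀ j ∈ s, OH G (h j)) : OH G fun i => ∑ j ∈ s, h j i := by
  classical
  induction s using Finset.induction_on with
  | empty =>
    simp only [Finset.sum_empty]
    exact OH_const hG 0
  | insert a s ha ih =>
    simp only [Finset.sum_insert ha]
    exact (h1 a (Finset.mem_insert_self a s)).add
      (ih fun j hj => h1 j (Finset.mem_insert_of_mem hj))

theorem oH_of_OH {H G h : ℕ → ℝ} (h1 : OH G h) (h2 : oH H G) (hG : ∀ i, 0 ≤ G i) : oH H h := by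
  obtain ⟨C, h3⟩ := h1
  intro δ hδ
  have h0 : 0 < |C| + 1 := by positivity
  filter_upwards [h3, h2 (δ / (|C| + 1)) (by positivity)] with i h5 h6
  have h7 : C * G i ≤ (|C| + 1) * G i :=
    mul_le_mul_of_nonneg_right (by linarith [le_abs_self C]) (hG i)
  have h8 := mul_le_mul_of_nonneg_left h6 h0.le
  have h9 : (|C| + 1) * (δ / (|C| + 1) * H i) = δ * H i := by
    field_simp
  linarith

section

variable (K : Type u) [Field K] [NumberField K]

/-- The field of germs of height `O(G)`. -/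
noncomputable def kO (G : ℕ → ℝ) (hG : ∀ i, 1 ≤ G i) : IntermediateField K (GK K) where
  carrier := {a | ∃ α : ℕ → K, gm α = a ∧ OH G fun i => logHeight₁ (α i)}
  mul_mem' := by
    rintro _ _ ⟨α, rfl, h1⟩ ⟨β, rfl, h2⟩
    exact ⟨_, gm_mul _ _, (h1.add h2).mono (Eventually.of_forall fun i => logHeight₁_mul_le _ _)⟩
  one_mem' := ⟨fun _ => 1, rfl, OH_const hG _⟩
  add_mem' := by
    rintro _ _ ⟨α, rfl, h1⟩ ⟨β, rfl, h2⟩
    exact ⟨_, gm_add _ _, (((OH_const hG (totalWeight K * Real.log 2)).add h1).add h2).mono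
      (Eventually.of_forall fun i => logHeight₁_add_le _ _)⟩
  zero_mem' := ⟨fun _ => 0, rfl, OH_const hG _⟩
  algebraMap_mem' := fun c => ⟨fun _ => c, rfl, OH_const hG _⟩
  inv_mem' := by
    rintro _ ⟨α, rfl, h1⟩
    exact ⟨_, gm_inv _, h1.mono (Eventually.of_forall fun i => (logHeight₁_inv _).le)⟩

variable {K}

theorem mem_kO {G : ℕ → ℝ} {hG : ∀ i, 1 ≤ G i} {α : ℕ → K} :
    gm α ∈ kO K G hG ↔ OH G fun i => logHeight₁ (α i) := by
  constructor
  · rintro ⟨β, h1, C, h2⟩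
    refine ⟨C, ?_⟩
    filter_upwards [h2, gm_eq_iff.mp h1] with i h3 h4
    rwa [← h4]
  · intro h
    exact ⟨α, rfl, h⟩

theorem kO_le_k0 {G : ℕ → ℝ} {hG : ∀ i, 1 ≤ G i} {H : ℕ → ℝ}
    {hH : Tendsto H (hyperfilter ℕ : Filter ℕ) atTop} (h : oH H G) :
    kO K G hG ≤ k0 K H hH := by
  rintro _ ⟨α, rfl, h1⟩
  exact mem_k0.2 (oH_of_OH h1 h fun i => zero_le_one.trans (hG i))

theorem k0_le_kO {G : ℕ → ℝ} {hG : ∀ i, 1 ≤ G i} {H : ℕ → ℝ}
    {hH : Tendsto H (hyperfilter ℕ : Filter ℕ) atTop} (h : OH G H) :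
    k0 K H hH ≤ kO K G hG := by
  intro a ha
  obtain ⟨α, rfl⟩ := exists_gm a
  rw [mem_k0] at ha
  exact mem_kO.2 (h.mono (by filter_upwards [ha 1 one_pos] with i hi using by rwa [one_mul] at hi))

theorem kO_mono {G G' : ℕ → ℝ} {hG : ∀ i, 1 ≤ G i} {hG' : ∀ i, 1 ≤ G' i} (h : OH G' G) :
    kO K G hG ≤ kO K G' hG' := by
  rintro _ ⟨α, rfl, h1⟩
  exact mem_kO.2 (h1.trans h fun i => zero_le_one.trans (hG i))

section

variable {N : ℕ} {B : AV K N}

/-- The ratios of the coordinates of a germ of points of height `O(G)`. -/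
theorem kO_rt {G : ℕ → ℝ} {hG : ∀ i, 1 ≤ G i} {Q : ℕ → B.Pts K} {b : B.Pts (GK K)}
    (hQ : IsGerm B Q b) (h : OH G fun i => B.h (Q i)) (i : Fin (N + 1) × Fin (N + 1)) :
    rt (B.x b) i ∈ kO K G hG := by
  obtain ⟨c, hc, hx⟩ := hQ
  have h1 : rt (B.x b) i = gm fun ν => B.x (Q ν) i.1 / B.x (Q ν) i.2 := by
    unfold rt
    have h2 : (gm fun ν => B.x (Q ν) i.1 / B.x (Q ν) i.2) =
        (gm fun ν => B.x (Q ν) i.1) / gm fun ν => B.x (Q ν) i.2 := rfl
    rw [h2, hx, hx, mul_div_mul_left _ _ hc]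
  rw [h1, mem_kO]
  refine h.mono (Eventually.of_forall fun ν => ?_)
  rw [logHeight₁_div_eq_logHeight]
  have h4 : (![B.x (Q ν) i.1, B.x (Q ν) i.2] : Fin 2 → K) = B.x (Q ν) ∘ ![i.1, i.2] := by
    funext b
    fin_cases b <;> rfl
  rw [h4]
  exact logHeight_comp_le _ _

/-- The height of the points of a sequence whose germ has coordinates of height `O(G)`. -/
theorem OH_of_rt {G : ℕ → ℝ} {hG : ∀ i, 1 ≤ G i} {P : ℕ → B.Pts K} {p : B.Pts (GK K)}
    (h : IsGerm B P p) (hp : ∀ i, rt (B.x p) i ∈ kO K G hG) : OH G fun ν => B.h (P ν) := by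
  obtain ⟨j, hj⟩ : ∃ j, B.x p j ≠ 0 := by
    by_contra hcon
    push Not at hcon
    exact Z_x_ne B p (funext hcon)
  have h1 : ∀ i, OH G fun ν => logHeight₁ (B.x (P ν) i / B.x (P ν) j) := by
    intro i
    rw [← mem_kO (hG := hG), ← h.rt (i, j)]
    exact hp (i, j)
  refine (OH.sum hG Finset.univ _ fun i _ => h1 i).mono ?_
  filter_upwards [(h.ne_iff j).1 hj] with ν hν
  have h2 : (fun i => (B.x (P ν) j)⁻¹ * B.x (P ν) i) ≠ 0 := by
    intro h0
    have h3 := congrFun h0 j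
    simp only [Pi.zero_apply, mul_eq_zero, inv_eq_zero, or_self] at h3
    exact hν h3
  have h3 := Z_logHeight_le_sum h2
  have h4 : B.h (P ν) = logHeight fun i => (B.x (P ν) j)⁻¹ * B.x (P ν) i := by
    unfold AV.h
    exact (logHeight_smul_eq_logHeight (B.x (P ν)) (inv_ne_zero hν)).symm
  rw [h4]
  refine h3.trans_eq (Finset.sum_congr rfl fun i _ => ?_)
  rw [div_eq_inv_mul]

end

end

end Pool.Agent.Lib.MP_17a322_nt.FU
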