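import Pool.Agent.Lib.MP_17a322_nt.FU.DefsM
import Pool.Agent.Lib.MP_17a322_nt.VA.G16
import Pool.Agent.Lib.MP_17a322_nt.VP.I1

/-!
Transcendence degrees of points.
-/

universe u

namespace Pool.Agent.Lib.MP_17a322_nt.FU

open MvPolynomial Height Filter
open Pool.Agent.Lib.MP_17a322_nt.RO
open Pool.Agent.Lib.MP_17a322_nt.VJ
open Pool.Agent.Lib.MP_17a322_nt.VN hiding lf
open Pool.Agent.Lib.MP_17a322_nt.VA
open Pool.Agent.Lib.MP_17a322_nt.VP

/-- If all equations of `x` over `k` hold at `y`, then the transcendence degree of `y` is at most that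
of `x`. -/
theorem M_tdeg_le {k L L' : Type u} [Field k] [Field L] [Field L'] [Algebra k L] [Algebra k L']
    {N : ℕ} {x : Fin (N + 1) → L} {y : Fin (N + 1) → L'} (hy : y ≠ 0)
    (h : ∀ (d : ℕ) (G : MvPolynomial (Fin (N + 1)) k), G.IsHomogeneous d → aeval x G = 0 →
      aeval y G = 0) : tdeg k y ≤ tdeg k x := by
  classical
  obtain ⟨a, ha⟩ : ∃ a, y a ≠ 0 := by
    by_contra hcon
    push Not at hcon
    exact hy (funext hcon)
  have hxa : x a ≠ 0 := by
    intro h0
    have h1 := h 1 (X a) (isHomogeneous_X k a) (by rw [aeval_X, h0])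
    rw [aeval_X] at h1
    exact ha h1
  obtain ⟨T, hT, hT'⟩ := exists_basis_subset (K := k) fun i => y i / y a
  have h1 : tdeg k y ≤ (Nat.card T : Cardinal.{u}) := by
    refine Z_tdeg_le_card y (fun t : T => y t / y a) fun p => ?_
    have h2 : (Set.range fun t : T => y t / y a) = (fun i => y i / y a) '' T :=
      (Set.image_eq_range (fun i => y i / y a) T).symm
    have h3 : rt y p = (y p.1 / y a) / (y p.2 / y a) := by
      unfold rt
      rw [div_div_div_cancel_right₀ ha]
    rw [h2, h3, div_eq_mul_inv]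
    exact (hT' p.1).mul (hT' p.2).inv
  refine h1.trans ?_
  refine (Z_card_le_tdeg (K := k) x (fun t : T => x t / x a) ?_ fun t => ?_).2
  · rw [algebraicIndependent_iff]
    intro p hp
    obtain ⟨d, G, hG, hGe⟩ := G.exists_homogenize a (rename (Subtype.val : T → Fin (N + 1)) p)
    have h2 : aeval x G = 0 := by
      rw [hGe L x (fun i => x i / x a) (x a) (by rw [div_self hxa, mul_one])
        (fun i => by rw [mul_div_cancel₀ _ hxa]), aeval_rename]
      have h3 : aeval ((fun i => x i / x a) ∘ (Subtype.val : T → Fin (N + 1))) p = 0 := hp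
      rw [h3, mul_zero]
    have h3 := h d G hG h2
    rw [hGe L' y (fun i => y i / y a) (y a) (by rw [div_self ha, mul_one])
      (fun i => by rw [mul_div_cancel₀ _ ha]), aeval_rename] at h3
    have h4 := (mul_eq_zero.1 h3).resolve_left (pow_ne_zero _ ha)
    exact (algebraicIndependent_iff.1 hT) p h4
  · exact isAlgebraic_algebraMap
      (⟨rt x (t.1, a), IntermediateField.subset_adjoin k _ ⟨_, rfl⟩⟩ :
        IntermediateField.adjoin k (Set.range (rt x)))

/-- Larger fields. -/
theorem M_tdeg_anti {K : Type u} [Field K] {F : Type u} [Field F] [Algebra K F]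
    {k k' : IntermediateField K F} (h : k ≤ k') {N : ℕ} (y : Fin (N + 1) → F) :
    tdeg k' y ≤ tdeg k y := by
  classical
  obtain ⟨T, hT, hTa, hTc⟩ := Z_exists_basis (K := k') y
  rw [hTc]
  let _ : Algebra k k' := (IntermediateField.inclusion h).toRingHom.toAlgebra
  have i1 : IsScalarTower k k' F := IsScalarTower.of_algebraMap_eq fun _ => rfl
  have h1 : AlgebraicIndependent k (fun t : T => rt y t) :=
    hT.restrictScalars (algebraMap k k').injective
  exact (Z_card_le_tdeg (K := k) y _ h1 fun t => isAlgebraic_algebraMap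
    (⟨rt y t, IntermediateField.subset_adjoin k _ ⟨_, rfl⟩⟩ :
      IntermediateField.adjoin k (Set.range (rt y)))).2

/-- The ratios of `z` are rational functions in the ratios of `x`. -/
theorem M_tdeg_rt {k L : Type u} [Field k] [Field L] [Algebra k L] {N N' : ℕ}
    {x : Fin (N + 1) → L} {z : Fin (N' + 1) → L}
    (h : ∀ i, rt z i ∈ IntermediateField.adjoin k (Set.range (rt x))) : tdeg k z ≤ tdeg k x := by
  obtain ⟨T, hT, hTa, hTc⟩ := Z_exists_basis (K := k) z
  rw [hTc]
  exact (Z_card_le_tdeg (K := k) x _ hT fun t => isAlgebraic_algebraMap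
    (⟨_, h t⟩ : IntermediateField.adjoin k (Set.range (rt x)))).2

/-- Translation by a point over `k`: one inequality. -/
theorem M_shift_le {K : Type u} [Field K] {N : ℕ} {A : AV K N} {k F : Type u} [Field k] [Field F]
    [Algebra K k] [Algebra K F] [Algebra k F] [IsScalarTower K k F] (x y : A.Pts F)
    (hy : ∀ i, ∃ c : k, algebraMap k F c = rt (A.x y) i) :
    tdeg k (A.x (x + y)) ≤ tdeg k (A.x x) ∧ tdeg k (A.x (x - y)) ≤ tdeg k (A.x x) ∧
      tdeg k (A.x (y - x)) ≤ tdeg k (A.x x) := by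
  obtain ⟨E, hE⟩ : ∃ E, E = (IntermediateField.adjoin k (Set.range (rt (A.x x)))).restrictScalars K :=
    ⟨_, rfl⟩
  have hx' : ∀ i, rt (A.x x) i ∈ E := fun i => by
    rw [hE]
    exact rt_self_mem k (A.x x) i
  have hy' : ∀ i, rt (A.x y) i ∈ E := fun i => by
    obtain ⟨c, hc⟩ := hy i
    rw [hE, ← hc]
    exact (IntermediateField.adjoin k (Set.range (rt (A.x x)))).algebraMap_mem c
  obtain ⟨x₀, hx₀⟩ := Z_descend A E x hx'
  obtain ⟨y₀, hy₀⟩ := Z_descend A E y hy'
  have key : ∀ {z : A.Pts F} {z₀ : A.Pts E}, A.Img E.val z₀ z → tdeg k (A.x z) ≤ tdeg k (A.x x) := by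
    intro z z₀ hz
    refine M_tdeg_rt fun i => ?_
    have h1 : rt (A.x z) i ∈
        (IntermediateField.adjoin k (Set.range (rt (A.x x)))).restrictScalars K := by
      rw [← hE]
      exact Z_rt_mem A hz i
    exact h1
  exact ⟨key (Z_img_add A hx₀ hy₀), key (Z_img_sub A hx₀ hy₀), key (Z_img_sub A hy₀ hx₀)⟩

/-- Translation by a point over `k`. -/
theorem M_shift {K : Type u} [Field K] {N : ℕ} {A : AV K N} {k F : Type u} [Field k] [Field F]
    [Algebra K k] [Algebra K F] [Algebra k F] [IsScalarTower K k F] (x y : A.Pts F)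
    (hy : ∀ i, ∃ c : k, algebraMap k F c = rt (A.x y) i) :
    tdeg k (A.x (x + y)) = tdeg k (A.x x) ∧ tdeg k (A.x (x - y)) = tdeg k (A.x x) ∧
      tdeg k (A.x (y - x)) = tdeg k (A.x x) := by
  obtain ⟨h1, h2, h3⟩ := M_shift_le x y hy
  refine ⟨le_antisymm h1 ?_, le_antisymm h2 ?_, le_antisymm h3 ?_⟩
  · have h4 := (M_shift_le (x + y) y hy).2.1
    rwa [add_sub_cancel_right] at h4
  · have h4 := (M_shift_le (x - y) y hy).1
    rwa [sub_add_cancel] at h4
  · have h4 := (M_shift_le (y - x) y hy).2.2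
    rwa [sub_sub_cancel] at h4

end Pool.Agent.Lib.MP_17a322_nt.FU
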