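import Pool.Agent.Lib.MP_17a322_nt.FU.M1
import Pool.Agent.Lib.MP_17a322_nt.VA.G05
import Pool.Agent.Lib.MP_17a322_nt.VA.G23
import Pool.Agent.Lib.MP_17a322_nt.VA.G25
import Pool.Agent.Lib.MP_17a322_nt.VA.G29
import Pool.Agent.Lib.MP_17a322_nt.VN.E5

/-!
The sum of two abelian subvarieties.
-/

universe u

namespace Pool.Agent.Lib.MP_17a322_nt.FU

open MvPolynomial
open Pool.Agent.Lib.MP_17a322_nt.VN hiding lf
open Pool.Agent.Lib.MP_17a322_nt.VA
open Pool.Agent.Lib.MP_17a322_nt.VA.G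

theorem M2_prodI_map {k : Type u} [Field k] {n n' : ℕ} (φ : k →+* k)
    {𝔞 : Ideal (MvPolynomial (Fin n) k)} {𝔟 : Ideal (MvPolynomial (Fin n') k)}
    (h : ∀ G ∈ 𝔞, map φ G ∈ 𝔞) (h' : ∀ G ∈ 𝔟, map φ G ∈ 𝔟)
    {H : MvPolynomial (Fin n ⊕ Fin n') k} (hH : H ∈ prodI 𝔞 𝔟) :
    map φ H ∈ prodI 𝔞 𝔟 := by
  have h1 : prodI 𝔞 𝔟 ≤ (prodI 𝔞 𝔟).comap (map φ) := by
    refine sup_le (Ideal.map_le_iff_le_comap.2 fun G hG => ?_)
      (Ideal.map_le_iff_le_comap.2 fun G hG => ?_)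
    · rw [Ideal.mem_comap, Ideal.mem_comap, map_rename]
      exact Ideal.mem_sup_left (Ideal.mem_map_of_mem _ (h G hG))
    · rw [Ideal.mem_comap, Ideal.mem_comap, map_rename]
      exact Ideal.mem_sup_right (Ideal.mem_map_of_mem _ (h' G hG))
  exact h1 hH

theorem M2_comp {k : Type u} [Field k] {n : ℕ} (φ : k →+* k) (d : ℕ)
    (G : MvPolynomial (Fin n) k) :
    homogeneousComponent d (map φ G) = map φ (homogeneousComponent d G) := by
  classical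
  ext m
  rw [coeff_homogeneousComponent, coeff_map, coeff_map, coeff_homogeneousComponent]
  split_ifs with h
  · rfl
  · rw [map_zero]

section

variable {K : Type u} [Field K] {N : ℕ} (A : AV K N) {k : Type u} [Field k] [Algebra K k]

theorem M2_subP (φ : k →+* k) (hφ : ∀ c : K, φ (algebraMap K k c) = algebraMap K k c)
    (G : MvPolynomial (Fin (N + 1)) k) (a : Fin (N + 1)) :
    map φ (subP A k G a) = subP A k (map φ G) a := by
  unfold subP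
  rw [map_bind₁]
  congr 2
  funext b
  have h : φ.comp (algebraMap K k) = algebraMap K k := RingHom.ext hφ
  rw [map_map, h]

variable {L₁ L₂ L₃ : Type u} [Field L₁] [Algebra K L₁] [Algebra k L₁] [IsScalarTower K k L₁]
  [Field L₂] [Algebra K L₂] [Algebra k L₂] [IsScalarTower K k L₂]
  [Field L₃] [Algebra K L₃] [Algebra k L₃] [IsScalarTower K k L₃]
  {ι₁ : L₁ →ₐ[k] L₃} {ι₂ : L₂ →ₐ[k] L₃} (hι : LD ι₁ ι₂) {y₁ : A.Pts L₁} {y₂ : A.Pts L₂}
  {Y₁ Y₂ : A.Pts L₃} (h₁ : A.Img (ι₁.restrictScalars K) y₁ Y₁)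
  (h₂ : A.Img (ι₂.restrictScalars K) y₂ Y₂)

include h₁ h₂ in
theorem M2_vanish {d e : ℕ} {H : MvPolynomial (Fin (N + 1) ⊕ Fin (N + 1)) k} (hH : BiH d e H)
    (h : aeval (Sum.elim (A.x Y₁) (A.x Y₂)) H = 0) :
    aeval (Sum.elim (fun i => ι₁ (A.x y₁ i)) fun i => ι₂ (A.x y₂ i)) H = 0 := by
  obtain ⟨c₁, _, e₁⟩ := h₁
  obtain ⟨c₂, _, e₂⟩ := h₂
  have f₁ : (fun i => ι₁ (A.x y₁ i)) = fun i => c₁ * A.x Y₁ i := funext fun i => e₁ i
  have f₂ : (fun i => ι₂ (A.x y₂ i)) = fun i => c₂ * A.x Y₂ i := funext fun i => e₂ i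
  rw [f₁, f₂, aeval_smul_BiH hH, h, mul_zero]

include hι h₁ h₂

/-- The ideal of the difference of a generic pair. -/
theorem M2_pair {G : MvPolynomial (Fin (N + 1)) k} {d : ℕ} (hG : G.IsHomogeneous d) :
    aeval (A.x (Y₁ - Y₂)) G = 0 ↔
      ∀ a, subP A k G a ∈ prodI (loc k (A.x y₁)) (loc k (A.x y₂)) := by
  obtain ⟨c, hc, h3⟩ := aeval_subP (k := k) A Y₁ Y₂
  constructor
  · intro h4 a
    have h5 := h3 G d hG a
    rw [h4, mul_zero] at h5
    exact mem_prodI hι (BiH_subP A hG a) (A.x y₁) (A.x y₂)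
      (M2_vanish A h₁ h₂ (BiH_subP A hG a) h5)
  · intro h4
    obtain ⟨a, ha⟩ := Function.ne_iff.1 (Z_x_ne A (Y₁ + Y₂))
    have hk1 : Kl (loc k (A.x y₁)) (A.x Y₁) := by
      intro F hF
      rw [← loc_img A ι₁ h₁] at hF
      exact aeval_of_mem_loc hF
    have hk2 : Kl (loc k (A.x y₂)) (A.x Y₂) := by
      intro F hF
      rw [← loc_img A ι₂ h₂] at hF
      exact aeval_of_mem_loc hF
    have h5 := h3 G d hG a
    rw [prodI_zero hk1 hk2 (h4 a)] at h5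
    exact (mul_eq_zero.1 h5.symm).resolve_left (pow_ne_zero d (mul_ne_zero hc ha))

/-- Differences of zeros of the two ideals are zeros of the ideal of the difference of the generic
pair. -/
theorem M2_ZP {L' : Type u} [Field L'] [Algebra K L'] [Algebra k L'] [IsScalarTower K k L']
    {P Q : A.Pts L'} (hP : ZP A (loc k (A.x y₁)) P) (hQ : ZP A (loc k (A.x y₂)) Q) :
    ZP A (loc k (A.x (Y₁ - Y₂))) (P - Q) := by
  obtain ⟨c, hc, h1⟩ := aeval_subP (k := k) A P Q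
  refine le_loc (fun _ hG d => comp_mem_loc hG d) fun G hG d hGd => ?_
  obtain ⟨a, ha⟩ := Function.ne_iff.1 (Z_x_ne A (P + Q))
  have h2 := h1 G d hGd a
  rw [prodI_zero (kl_of_ZP A hP) (kl_of_ZP A hQ)
    ((M2_pair A hι h₁ h₂ hGd).1 (aeval_of_mem_loc hG) a)] at h2
  exact (mul_eq_zero.1 h2.symm).resolve_left (pow_ne_zero d (mul_ne_zero hc ha))

theorem M2_stable {Γ : Set (k →+* k)}
    (hΓ : ∀ φ ∈ Γ, ∀ c : K, φ (algebraMap K k c) = algebraMap K k c)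
    (hy₁ : ∀ φ ∈ Γ, ∀ G ∈ loc k (A.x y₁), map φ G ∈ loc k (A.x y₁))
    (hy₂ : ∀ φ ∈ Γ, ∀ G ∈ loc k (A.x y₂), map φ G ∈ loc k (A.x y₂)) :
    ∀ φ ∈ Γ, ∀ G ∈ loc k (A.x (Y₁ - Y₂)), map φ G ∈ loc k (A.x (Y₁ - Y₂)) := by
  intro φ hφ G hG
  rw [mem_loc] at hG ⊢
  intro d
  rw [M2_comp]
  have h1 := (M2_pair A hι h₁ h₂ (homogeneousComponent_isHomogeneous d G)).1 (hG d)
  rw [M2_pair A hι h₁ h₂ ((homogeneousComponent_isHomogeneous d G).map φ)]
  intro a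
  rw [← M2_subP A φ (hΓ φ hφ)]
  exact M2_prodI_map φ (hy₁ φ hφ) (hy₂ φ hφ) (h1 a)

end

theorem M2_map {K k : Type u} [Field K] [Field k] [Algebra K k] {n : ℕ}
    (I : Ideal (MvPolynomial (Fin n) K)) {φ : k →+* k}
    (hφ : ∀ c : K, φ (algebraMap K k c) = algebraMap K k c) {G : MvPolynomial (Fin n) k}
    (hG : G ∈ I.map (map (σ := Fin n) (algebraMap K k))) :
    map φ G ∈ I.map (map (σ := Fin n) (algebraMap K k)) := by
  have h1 : I.map (map (σ := Fin n) (algebraMap K k)) ≤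
      (I.map (map (σ := Fin n) (algebraMap K k))).comap (map φ) := by
    rw [Ideal.map_le_iff_le_comap]
    intro f hf
    have h2 : φ.comp (algebraMap K k) = algebraMap K k := RingHom.ext hφ
    rw [Ideal.mem_comap, Ideal.mem_comap, map_map, h2]
    exact Ideal.mem_map_of_mem _ hf
  exact h1 hG

theorem M_sum {K : Type u} [Field K] [CharZero K] {N : ℕ} {A B B' : AV K N} (hB : IsSubAV B A)
    (hB' : IsSubAV B' A) :
    ∃ (E : AV K N) (_ : IsSubAV E A) (F : Type u) (_ : Field F) (_ : Algebra K F) (y : B.Pts F)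
      (y' : B'.Pts F), E.I ≤ B.I ∧ E.I ≤ B'.I ∧
      ∀ (L : Type u) [Field L] [Algebra K L] (q : E.Pts L),
        tdeg K (E.x q) ≤ tdeg K (A.x (hB.inc F y + hB'.inc F y')) := by
  classical
  obtain ⟨k, _, _, hk1, hk2⟩ : ∃ (k : Type u) (_ : Field k) (_ : Algebra K k), IsAlgClosed k ∧
      IsGalois K k := ⟨AlgebraicClosure K, inferInstance, inferInstance, inferInstance,
        inferInstance⟩
  have : CharZero k := charZero_of_injective_algebraMap (algebraMap K k).injective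
  obtain ⟨M, _, _, _, _, y, hy⟩ := exists_generic B k
  obtain ⟨M', _, _, _, _, y', hy'⟩ := exists_generic B' k
  obtain ⟨L₃, _, _, _, _, ι₁, ι₂, hι⟩ := exists_pair K k M M'
  obtain ⟨Y, hY⟩ := Z_exists_img B (ι₁.restrictScalars K) y
  obtain ⟨Y', hY'⟩ := Z_exists_img B' (ι₂.restrictScalars K) y'
  have h₁ : A.Img (ι₁.restrictScalars K) (hB.inc M y) (hB.inc L₃ Y) := hY
  have h₂ : A.Img (ι₂.restrictScalars K) (hB'.inc M' y') (hB'.inc L₃ Y') := hY'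
  have hl₁ : loc k (A.x (hB.inc M y)) = B.I.map (map (σ := Fin (N + 1)) (algebraMap K k)) := hy
  have hl₂ : loc k (A.x (hB'.inc M' y')) = B'.I.map (map (σ := Fin (N + 1)) (algebraMap K k)) := hy'
  -- the zeros of the two ideals
  have hZ₁ : ∀ {L' : Type u} [Field L'] [Algebra K L'] [Algebra k L'] [IsScalarTower K k L']
      (P : B.Pts L'), ZP A (loc k (A.x (hB.inc M y))) (hB.inc L' P) := by
    intro L' _ _ _ _ P
    rw [hl₁]
    exact ZP_top B k P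
  have hZ₂ : ∀ {L' : Type u} [Field L'] [Algebra K L'] [Algebra k L'] [IsScalarTower K k L']
      (P : B'.Pts L'), ZP A (loc k (A.x (hB'.inc M' y'))) (hB'.inc L' P) := by
    intro L' _ _ _ _ P
    rw [hl₂]
    exact ZP_top B' k P
  obtain ⟨z, hz⟩ : ∃ z, z = hB.inc L₃ Y - hB'.inc L₃ Y' := ⟨_, rfl⟩
  obtain ⟨𝔟, h𝔟⟩ : ∃ 𝔟, 𝔟 = loc k (A.x z) := ⟨_, rfl⟩
  have hZP : ∀ {L' : Type u} [Field L'] [Algebra K L'] [Algebra k L'] [IsScalarTower K k L']
      (P : B.Pts L') (Q : B'.Pts L'), ZP A 𝔟 (hB.inc L' P - hB'.inc L' Q) := by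
    intro L' _ _ _ _ P Q
    rw [h𝔟, hz]
    exact M2_ZP A hι h₁ h₂ (hZ₁ P) (hZ₂ Q)
  have hhom : ∀ G ∈ 𝔟, ∀ d, homogeneousComponent d G ∈ 𝔟 := by
    rw [h𝔟]
    exact fun G hG d => comp_mem_loc hG d
  have hprime : 𝔟.IsPrime := by
    rw [h𝔟]
    exact loc_isPrime
  have hgrp : GrpI A 𝔟 := by
    refine ⟨?_, fun L' _ _ _ _ P Q hP hQ => ?_⟩
    · have h3 := hZP (L' := k) (0 : B.Pts k) (0 : B'.Pts k)
      rwa [map_zero, map_zero, sub_zero] at h3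
    · obtain ⟨L₄, _, _, _, _, j₁, j₂, hj⟩ := exists_pair K k L₃ L₃
      obtain ⟨T₁, hT₁⟩ := Z_exists_img B (j₁.restrictScalars K) Y
      obtain ⟨T₂, hT₂⟩ := Z_exists_img B (j₂.restrictScalars K) Y
      obtain ⟨T₁', hT₁'⟩ := Z_exists_img B' (j₁.restrictScalars K) Y'
      obtain ⟨T₂', hT₂'⟩ := Z_exists_img B' (j₂.restrictScalars K) Y'
      have e₁ : A.Img (j₁.restrictScalars K) z (hB.inc L₄ T₁ - hB'.inc L₄ T₁') := by
        rw [hz]
        exact Z_img_sub A (Z_inc_img hB hT₁) (Z_inc_img hB' hT₁')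
      have e₂ : A.Img (j₂.restrictScalars K) z (hB.inc L₄ T₂ - hB'.inc L₄ T₂') := by
        rw [hz]
        exact Z_img_sub A (Z_inc_img hB hT₂) (Z_inc_img hB' hT₂')
      rw [h𝔟] at hP hQ
      have h3 := ZP_pair A hj e₁ e₂ hP hQ
      have h4 : hB.inc L₄ T₁ - hB'.inc L₄ T₁' - (hB.inc L₄ T₂ - hB'.inc L₄ T₂') =
          hB.inc L₄ (T₁ - T₂) - hB'.inc L₄ (T₁' - T₂') := by
        rw [map_sub, map_sub]
        abel
      rw [h4] at h3
      exact (hZP (T₁ - T₂) (T₁' - T₂')).trans h3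
  -- descent
  obtain ⟨Γ, hΓ⟩ : ∃ Γ : Set (k →+* k), Γ = {φ | ∀ c : K, φ (algebraMap K k c) =
    algebraMap K k c} := ⟨_, rfl⟩
  have hst : ∀ φ ∈ Γ, ∀ G ∈ 𝔟, map φ G ∈ 𝔟 := by
    rw [h𝔟, hz]
    refine M2_stable A hι h₁ h₂ (fun φ hφ => ?_) (fun φ hφ G hG => ?_) fun φ hφ G hG => ?_
    · rw [hΓ] at hφ
      exact hφ
    · rw [hΓ] at hφ
      rw [hl₁] at hG ⊢
      exact M2_map _ hφ hG
    · rw [hΓ] at hφ
      rw [hl₂] at hG ⊢
      exact M2_map _ hφ hG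
  have halg : ∀ c : k, IsAlgebraic K c := fun c => Algebra.IsAlgebraic.isAlgebraic c
  have hdesc := descend 𝔟 Γ hst (fun δ hδ G _ => by
    have h3 : dc (Fin (N + 1)) δ G = 0 := by
      ext m
      rw [coeff_dc, coeff_zero]
      exact derivation_algebraic δ hδ _ (halg _)
    rw [h3]
    exact 𝔟.zero_mem) (fun c hc _ => by
    have h3 : c ∈ Set.range (algebraMap K k) := by
      rw [InfiniteGalois.mem_range_algebraMap_iff_fixed]
      intro τ
      refine hc (τ : k →+* k) ?_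
      rw [hΓ]
      exact fun a => τ.commutes a
    exact h3)
  obtain ⟨E, hE, hEI⟩ := exists_sub A hgrp hhom hdesc (fun f hf => by
    rw [h𝔟]
    exact ZP_top A k z (Ideal.mem_map_of_mem _ hf))
  have hmem : ∀ {f : MvPolynomial (Fin (N + 1)) K}, f ∈ E.I ↔ map (algebraMap K k) f ∈ 𝔟 := by
    intro f
    rw [hEI]
    rfl
  refine ⟨E, hE, L₃, inferInstance, inferInstance, Y, -Y', ?_, ?_, ?_⟩
  · intro f hf
    have h3 := hZP Y (0 : B'.Pts L₃) (hmem.1 hf)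
    rw [map_zero, sub_zero, loc_img A ι₁ h₁, hl₁] at h3
    rw [← comap_map (E := k) B.I]
    exact h3
  · intro f hf
    have h3 := hZP (0 : B.Pts L₃) (-Y') (hmem.1 hf)
    rw [map_zero, map_neg, sub_neg_eq_add, zero_add, loc_img A ι₂ h₂, hl₂] at h3
    rw [← comap_map (E := k) B'.I]
    exact h3
  · intro L _ _ q
    rw [map_neg, ← sub_eq_add_neg, ← hz]
    refine M_tdeg_le (Z_x_ne E q) fun d G hG h3 => ?_
    refine Z_x_isPt E q G ?_
    rw [hmem, h𝔟, map_mem_loc, mem_loc_of_homog hG]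
    exact h3

/-- Inclusion of abelian subvarieties. -/
theorem M_sub {K : Type u} [Field K] {N : ℕ} {A B E : AV K N} (hB : IsSubAV B A)
    (hE : IsSubAV E A) (h : E.I ≤ B.I) : IsSubAV B E := by
  refine ⟨h, hB.S_eq.trans hE.S_eq.symm, fun L _ _ P Q P' Q' hP hQ => ?_⟩
  have h1 := hB.add L P Q (hB.inc L P) (hB.inc L Q) rfl rfl
  have h2 := hE.add L P' Q' (hB.inc L P) (hB.inc L Q) hP.symm hQ.symm
  rw [h1, h2]

end Pool.Agent.Lib.MP_17a322_nt.FU
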