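import Pool.Agent.Lib.MP_17a322_nt.VN.F1

/-!
Fields of germs over an extension of `K`.
-/

universe u

namespace Pool.Agent.Lib.MP_17a322_nt.FU

open MvPolynomial Filter
open Pool.Agent.Lib.MP_17a322_nt.VN

/-- The map of germs given by a homomorphism of fields. -/
noncomputable def gmap (K F : Type*) [Field K] [Field F] [Algebra K F] : GK K →+* GK F where
  toFun := Filter.Germ.map (algebraMap K F)
  map_one' := by
    show Filter.Germ.map (algebraMap K F) ((fun _ => (1 : K) : ℕ → K) : GK K) = 1
    rw [Filter.Germ.map_coe]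
    have h : (algebraMap K F) ∘ (fun _ : ℕ => (1 : K)) = fun _ => 1 :=
      funext fun _ => map_one _
    rw [h]
    rfl
  map_zero' := by
    show Filter.Germ.map (algebraMap K F) ((fun _ => (0 : K) : ℕ → K) : GK K) = 0
    rw [Filter.Germ.map_coe]
    have h : (algebraMap K F) ∘ (fun _ : ℕ => (0 : K)) = fun _ => 0 :=
      funext fun _ => map_zero _
    rw [h]
    rfl
  map_mul' := by
    intro a b
    obtain ⟨α, rfl⟩ := exists_gm a
    obtain ⟨β, rfl⟩ := exists_gm b
    rw [← gm_mul]
    show gm (fun i => algebraMap K F (α i * β i)) =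
      gm (fun i => algebraMap K F (α i)) * gm (fun i => algebraMap K F (β i))
    rw [← gm_mul]
    simp only [map_mul]
  map_add' := by
    intro a b
    obtain ⟨α, rfl⟩ := exists_gm a
    obtain ⟨β, rfl⟩ := exists_gm b
    rw [← gm_add]
    show gm (fun i => algebraMap K F (α i + β i)) =
      gm (fun i => algebraMap K F (α i)) + gm (fun i => algebraMap K F (β i))
    rw [← gm_add]
    simp only [map_add]

section

variable {K F : Type*} [Field K] [Field F] [Algebra K F]

theorem gmap_gm (a : ℕ → K) : gmap K F (gm a) = gm fun i => algebraMap K F (a i) := rfl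

/-- Values of polynomials over the field of germs. -/
theorem U_gval {σ : Type*} (x : σ → ℕ → F) (G : MvPolynomial σ (ℕ → K)) :
    eval₂ (gmap K F) (fun s => gm (x s)) (MvPolynomial.map (gR K) G) =
      gm fun i => eval₂ (algebraMap K F) (fun s => x s i)
        (MvPolynomial.map (Pi.evalRingHom (fun _ : ℕ => K) i) G) := by
  obtain ⟨a, ha⟩ : ∃ a : (ℕ → K) →+* (ℕ → F), ∀ f i, a f i = algebraMap K F (f i) :=
    ⟨(algebraMap K F).compLeft ℕ, fun _ _ => rfl⟩
  have h1 : gR F (eval₂ a x G) = eval₂ (gmap K F) (fun s => gm (x s))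
      (MvPolynomial.map (gR K) G) := by
    rw [eval₂_map, eval₂_comp_left (gR F) a x G]
    congr 1
    refine RingHom.ext fun f => ?_
    show gm (a f) = gm fun i => algebraMap K F (f i)
    exact congrArg gm (funext fun i => ha f i)
  rw [← h1]
  show gm (eval₂ a x G) = _
  refine congrArg gm (funext fun i => ?_)
  rw [eval₂_map]
  have h2 := eval₂_comp_left (Pi.evalRingHom (fun _ : ℕ => F) i) a x G
  refine h2.trans ?_
  congr 1
  refine RingHom.ext fun f => ?_
  exact ha f i

/-- Constants which are independent over `K` are independent over the field of germs. -/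
theorem U_indep {T : Type*} {s : T → F} (hs : AlgebraicIndependent K s)
    {k : Type*} [Field k] [Algebra k (GK F)] (φ : k →+* GK K)
    (hφ : ∀ c, algebraMap k (GK F) c = gmap K F (φ c)) :
    AlgebraicIndependent k fun τ => (gm fun _ => s τ : GK F) := by
  rw [algebraicIndependent_iff]
  intro p hp
  obtain ⟨G, hG⟩ := MvPolynomial.map_surjective (σ := T) (gR K) (fun a => by
    obtain ⟨α, hα⟩ := exists_gm a
    exact ⟨α, hα⟩) (MvPolynomial.map φ p)
  have h1 : eval₂ (gmap K F) (fun τ => (gm fun _ => s τ : GK F)) (MvPolynomial.map (gR K) G) =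
      0 := by
    rw [hG, eval₂_map, ← hp, aeval_def]
    congr 1
    refine RingHom.ext fun c => ?_
    exact (hφ c).symm
  rw [U_gval, gm_eq_zero_iff] at h1
  have h2 : ∀ᶠ i in (hyperfilter ℕ : Filter ℕ),
      MvPolynomial.map (Pi.evalRingHom (fun _ : ℕ => K) i) G = 0 := by
    filter_upwards [h1] with i hi
    rw [algebraicIndependent_iff] at hs
    refine hs _ ?_
    rw [aeval_def]
    exact hi
  have h3 : MvPolynomial.map (gR K) G = 0 := by
    ext m
    rw [coeff_map, coeff_zero]
    show gm (coeff m G) = 0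
    rw [gm_eq_zero_iff]
    filter_upwards [h2] with i hi
    have h4 : coeff m (MvPolynomial.map (Pi.evalRingHom (fun _ : ℕ => K) i) G) = 0 := by
      rw [hi, coeff_zero]
    rwa [coeff_map] at h4
  rw [h3] at hG
  refine MvPolynomial.map_injective φ φ.injective ?_
  rw [← hG, map_zero]

end

end Pool.Agent.Lib.MP_17a322_nt.FU
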