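import Pool.Agent.Lib.MP_17a322_nt.FU.M1
import Pool.Agent.Lib.MP_17a322_nt.FU.A2
import Pool.Agent.Lib.MP_17a322_nt.FU.T2
import Pool.Agent.Lib.MP_17a322_nt.VA.G02
import Pool.Agent.Lib.MP_17a322_nt.VA.N6
import Pool.Agent.Lib.MP_17a322_nt.VP.I1

/-!
Generic points of the sum of two abelian subvarieties.
-/

universe u

namespace Pool.Agent.Lib.MP_17a322_nt.FU

open MvPolynomial Height Filter
open Pool.Agent.Lib.MP_17a322_nt.RO
open Pool.Agent.Lib.MP_17a322_nt.VJ
open Pool.Agent.Lib.MP_17a322_nt.VN hiding lf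
open Pool.Agent.Lib.MP_17a322_nt.VA
open Pool.Agent.Lib.MP_17a322_nt.VP
open Pool.Agent.Lib.MP_17a322_nt.SL

/-- Polynomials with coefficients in a subfield. -/
theorem M_map {k k' L : Type*} [Field k] [Field k'] [Field L] [Algebra k L] [Algebra k' L]
    {σ : Type*} (φ : k →+* k') (hφ : ∀ c, algebraMap k' L (φ c) = algebraMap k L c) (x : σ → L)
    (G : MvPolynomial σ k) : aeval x (MvPolynomial.map φ G) = aeval x G := by
  rw [aeval_def, aeval_def, eval₂_map]
  congr 1
  exact RingHom.ext hφ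

/-- Substitution of constants. -/
theorem M_homog {k : Type u} [Field k] {n n' : ℕ} {d e : ℕ}
    {H : MvPolynomial (Fin n ⊕ Fin n') k} (hH : G.BiH d e H) (v : Fin n → k) :
    (aeval (Sum.elim (fun i => C (v i)) (X : Fin n' → MvPolynomial (Fin n') k)) H).IsHomogeneous
      e := by
  rw [aeval_def, eval₂_eq']
  refine IsHomogeneous.sum _ _ _ fun m hm => ?_
  obtain ⟨h1, h2⟩ := hH m hm
  rw [Fintype.prod_sum_type]
  simp only [Sum.elim_inl, Sum.elim_inr]
  have h3 : (∏ i : Fin n', (X i : MvPolynomial (Fin n') k) ^ m (Sum.inr i)).IsHomogeneous e := by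
    rw [← h2]
    refine IsHomogeneous.prod _ _ _ fun i _ => ?_
    exact isHomogeneous_X_pow _ _
  have h4 : (∏ i : Fin n, (C (v i) : MvPolynomial (Fin n') k) ^ m (Sum.inl i)) =
      C (∏ i, v i ^ m (Sum.inl i)) := by
    simp only [map_prod, map_pow]
  rw [h4, algebraMap_eq, ← mul_assoc, ← C_mul]
  exact h3.C_mul _

/-- A Noether normalisation which is good at a given point. -/
theorem M_noe {K : Type u} [Field K] [CharZero K] {N : ℕ} (B : AV K N) {F : Type u} [Field F]
    [Algebra K F] (b : B.Pts F) : ∃ (n e : ℕ) (nd : Noe B n e), B.dimIs n ∧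
      lf (nd.l 0) (B.x b) ≠ 0 := by
  obtain ⟨n, hn⟩ := Z_exists_dim B
  obtain ⟨a, ha⟩ := B.exists_x_ne b
  have h1 : lf (Pi.single a (1 : K)) (B.x b) ≠ 0 := by
    rw [lf_single]
    exact ha
  obtain ⟨e, nd, hnd⟩ := AV.exists_Noe hn (AV.gp_coord_ne (B.x_isPt b) h1)
  exact ⟨n, e, nd, hn, by rw [hnd]; exact h1⟩

theorem GenP.le {K : Type u} [Field K] {N : ℕ} {B : AV K N} {k F : Type u} [Field k]
    [Field F] [Algebra K F] [Algebra k F] {b : B.Pts F} (hb : GenP B k b) {n : ℕ}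
    (hn : B.dimIs n) : (n : Cardinal.{u}) ≤ tdeg k (B.x b) := by
  obtain ⟨L, i1, i2, q, hq⟩ := hn.2
  rw [← hq]
  exact hb L q

/-- An equation over `k` which holds at the sum of a point over `k` and of a generic point of `B` over
`k` holds on the translate of `B`. -/
theorem M_one {K : Type u} [Field K] [CharZero K] {N : ℕ} {A B : AV K N} (hB : IsSubAV B A)
    {k F : Type u} [Field k] [Field F] [Algebra K k] [Algebra K F] [Algebra k F]
    [IsScalarTower K k F] {x : A.Pts k} {x' : A.Pts F}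
    (hx' : A.Img (IsScalarTower.toAlgHom K k F) x x') {b : B.Pts F} (hb : GenP B k b) {d : ℕ}
    {Φ : MvPolynomial (Fin (N + 1)) k} (hΦ : Φ.IsHomogeneous d)
    (h0 : aeval (A.x (x' + hB.inc F b)) Φ = 0) {L : Type u} [Field L] [Algebra K L] [Algebra k L]
    [IsScalarTower K k L] {x₁ : A.Pts L} (hx₁ : A.Img (IsScalarTower.toAlgHom K k L) x x₁)
    (b₁ : B.Pts L) : aeval (A.x (x₁ + hB.inc L b₁)) Φ = 0 := by
  obtain ⟨n, e, nd, hn, hl⟩ := M_noe B b
  have hind : AlgebraicIndependent k (nd.s b) := s_indep nd b hl (hb.le hn)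
  obtain ⟨U, hU⟩ : ∃ U : Fin (N + 1) → MvPolynomial (Fin (N + 1)) k, ∀ c, U c =
      aeval (Sum.elim (fun i => C (A.x x i)) (X : Fin (N + 1) → MvPolynomial (Fin (N + 1)) k))
        (G.addP A k Φ c) := ⟨_, fun _ => rfl⟩
  have hUh : ∀ c, (U c).IsHomogeneous (d * 2) := fun c => by
    rw [hU]
    exact M_homog (G.BiH_addP A hΦ c) _
  -- the values
  have key : ∀ (M : Type u) [Field M] [Algebra K M] [Algebra k M] [IsScalarTower K k M]
      (z : A.Pts M) (hz : A.Img (IsScalarTower.toAlgHom K k M) x z) (q : B.Pts M),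
      ∃ s : M, s ≠ 0 ∧ ∃ f : Fin (N + 1) → M, (∀ c, A.x (z - hB.inc M q) c ≠ 0 → f c ≠ 0) ∧
        ∀ c, aeval (B.x q) (U c) = s * (f c * aeval (A.x (z + hB.inc M q)) Φ) := by
    intro M _ _ _ _ z hz q
    obtain ⟨c', hc', hcb⟩ := hz
    obtain ⟨e', he', hE⟩ := G.aeval_addP (k := k) A z (hB.inc M q)
    refine ⟨c' ^ (d * 2), pow_ne_zero _ hc', fun c => (e' * A.x (z - hB.inc M q) c) ^ d,
      fun c hc => pow_ne_zero _ (mul_ne_zero he' hc), fun c => ?_⟩
    have h1 : aeval (B.x q) (U c) =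
        aeval (Sum.elim (fun i => c' * A.x z i) fun i => 1 * A.x (hB.inc M q) i)
          (G.addP A k Φ c) := by
      rw [hU, ← AlgHom.comp_apply]
      refine congrArg (fun f : MvPolynomial (Fin (N + 1) ⊕ Fin (N + 1)) k →ₐ[k] M =>
        f (G.addP A k Φ c)) ?_
      refine algHom_ext fun i => ?_
      rcases i with i | i
      · have h2 := hcb i
        simp only [AlgHom.comp_apply, aeval_X, Sum.elim_inl]
        rw [← h2]
        simp
      · simp only [AlgHom.comp_apply, aeval_X, Sum.elim_inr, one_mul]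
        rfl
    rw [h1, G.aeval_smul_BiH (G.BiH_addP A hΦ c), hE Φ d hΦ c, one_pow, mul_one]
  have hUI : ∀ c, U c ∈ ENJ B k := by
    intro c
    refine U_mem_ENJ nd b hl hind (hUh c) ?_
    obtain ⟨s, -, f, -, h1⟩ := key F x' hx' b
    rw [h1, h0, mul_zero, mul_zero]
  obtain ⟨s, hs, f, hf, h1⟩ := key L x₁ hx₁ b₁
  obtain ⟨c, hc⟩ := A.exists_x_ne (x₁ - hB.inc L b₁)
  have h2 := h1 c
  rw [EN_mem (B.x_isPt b₁) (hUI c)] at h2
  exact (mul_eq_zero.1 ((mul_eq_zero.1 h2.symm).resolve_left hs)).resolve_left (hf c hc)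

/-- Extension of the base field by independent elements. -/
theorem M_extend {K k L : Type u} [Field K] [Field k] [Field L] [Algebra K k] [Algebra K L]
    [Algebra k L] [IsScalarTower K k L] {T ι : Type*} (w : T → L) (s : ι → L)
    (h : AlgebraicIndependent k (Sum.elim s w)) :
    ∃ E : IntermediateField K L, (∀ c : k, algebraMap k L c ∈ E) ∧ (∀ t, w t ∈ E) ∧
      (∀ x, IsAlgebraic E x → x ∈ E) ∧ AlgebraicIndependent E s := by
  obtain ⟨-, h1⟩ := AlgebraicIndependent.sumElim_iff.1 h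
  obtain ⟨R, hR⟩ : ∃ R, R = Algebra.adjoin k (Set.range w) := ⟨_, rfl⟩
  rw [← hR] at h1
  have hRd : IsDomain R := inferInstance
  obtain ⟨E, hE⟩ : ∃ E : IntermediateField K L, ∀ x, x ∈ E ↔ IsAlgebraic R x := by
    refine ⟨(algebraicClosure (IntermediateField.adjoin k (Set.range w)) L).toSubfield.toIntermediateField
      (fun c => ?_), fun x => ?_⟩
    · rw [IsScalarTower.algebraMap_apply K k L]
      exact mem_algebraicClosure_iff.2 (isAlgebraic_algebraMap
        (algebraMap k (IntermediateField.adjoin k (Set.range w)) (algebraMap K k c)))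
    · rw [hR, ← IntermediateField.isAlgebraic_adjoin_iff]
      exact mem_algebraicClosure_iff
  have hRE : ∀ x ∈ R, x ∈ E := fun x hx => (hE x).2 (isAlgebraic_algebraMap (⟨x, hx⟩ : R))
  let _ : Algebra R E := ((algebraMap R L).codRestrict E.toSubring fun x => hRE _ x.2).toAlgebra
  have i1 : IsScalarTower R E L := IsScalarTower.of_algebraMap_eq fun _ => rfl
  have i2 : Algebra.IsAlgebraic R E := by
    refine ⟨fun e => ?_⟩
    have h2 := (hE e).1 e.2
    exact (isAlgebraic_algebraMap_iff (R := R) (algebraMap E L).injective).1 h2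
  refine ⟨E, fun c => ?_, fun t => ?_, fun x hx => ?_, h1.extendScalars E⟩
  · refine hRE _ ?_
    rw [hR]
    exact (Algebra.adjoin k (Set.range w)).algebraMap_mem c
  · refine hRE _ ?_
    rw [hR]
    exact Algebra.subset_adjoin ⟨t, rfl⟩
  · rw [hE]
    exact hx.restrictScalars R

/-- The image of the Noether coordinates. -/
theorem M_s_img {K : Type u} [Field K] {N : ℕ} {B : AV K N} {n e : ℕ} (nd : Noe B n e)
    {L L' : Type u} [Field L] [Algebra K L] [Field L'] [Algebra K L'] {φ : L →ₐ[K] L'}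
    {b : B.Pts L} {b' : B.Pts L'} (h : B.Img φ b b') (j : Fin n) : nd.s b' j = φ (nd.s b j) := by
  obtain ⟨c, hc, h1⟩ := h
  have h2 : ∀ l : Fin (N + 1) → K, φ (lf l (B.x b)) = c * lf l (B.x b') := by
    intro l
    rw [← Z_lf_map, ← Z_lf_smul]
    exact congrArg (lf l) (funext h1)
  unfold Noe.s
  rw [map_div₀, h2, h2, mul_div_mul_left _ _ hc]

theorem M_gen' {K : Type u} [Field K] [CharZero K] {N : ℕ} {A B B' : AV K N} (hB : IsSubAV B A)
    (hB' : IsSubAV B' A) {G F L : Type u} [Field G] [Field F] [Field L] [Algebra K G] [Algebra K F]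
    [Algebra K L] [Algebra G L] [Algebra F L] [IsScalarTower K G L] [IsScalarTower K F L]
    (hfree : ∀ (T : Type) (s : T → F), AlgebraicIndependent K s →
      AlgebraicIndependent G fun τ => algebraMap F L (s τ))
    (k k₂ : IntermediateField K G) (hk : k ≤ k₂) {β : B.Pts G}
    {β' : B'.Pts G} (hβ' : ∀ i, rt (B'.x β') i ∈ k₂) (h1 : GenP B k₂ β) (h2 : GenP B' k β')
    (y : B.Pts F) (y' : B'.Pts F) :
    tdeg K (A.x (hB.inc F y + hB'.inc F y')) ≤
      tdeg k (A.x (hB.inc _ β + hB'.inc _ β')) := by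
  obtain ⟨β'L, hβ'L⟩ := Z_exists_img B' (IsScalarTower.toAlgHom K G L) β'
  obtain ⟨Y, hY⟩ := Z_exists_img B (IsScalarTower.toAlgHom K F L) y
  obtain ⟨Y', hY'⟩ := Z_exists_img B' (IsScalarTower.toAlgHom K F L) y'
  obtain ⟨n', e', nd', hn', hl'⟩ := M_noe B' β'
  have hind' : AlgebraicIndependent k (nd'.s β') := s_indep nd' β' hl' (h2.le hn')
  obtain ⟨T, hT, hTa, -⟩ := Z_exists_basis (K := K) (B.x y)
  obtain ⟨w, hw⟩ : ∃ w : T → L, w = fun τ : T => algebraMap F L (rt (B.x y) τ) := ⟨_, rfl⟩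
  have hwi : AlgebraicIndependent G w := by
    rw [hw]
    exact hfree T _ hT
  obtain ⟨s, hs⟩ : ∃ s : Fin n' → L, s = algebraMap G L ∘ nd'.s β' := ⟨_, rfl⟩
  have hsum : AlgebraicIndependent k (Sum.elim s w) := by
    have h3 := (hind'.sumElim_comp hwi).comp Sum.swap Sum.swap_leftInverse.injective
    have h4 : Sum.elim w (algebraMap G L ∘ nd'.s β') ∘ Sum.swap = Sum.elim s w := by
      funext i
      rcases i with i | i
      · rw [hs]
        rfl
      · rfl
    rwa [h4] at h3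
  obtain ⟨E, hkE, hwE, hEalg, hEind⟩ := M_extend (K := K) w s hsum
  have hsE : s = nd'.s β'L := by
    funext j
    rw [hs, M_s_img nd' hβ'L]
    rfl
  have hgE : GenP B' E β'L := fun L' _ _ q =>
    (hn'.1 L' q).trans (tdeg_of_indep nd' β'L (by rw [← hsE]; exact hEind))
  -- `Y` is a point over `E`
  have hYE : ∀ i, rt (B.x Y) i ∈ E := by
    intro i
    rw [Z_img_rt B hY]
    have h3 : ∀ x ∈ IntermediateField.adjoin K (rt (B.x y) '' T), algebraMap F L x ∈ E := by
      obtain ⟨E', hE'⟩ : ∃ E' : IntermediateField K F, ∀ x, x ∈ E' ↔ algebraMap F L x ∈ E :=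
        ⟨E.comap (IsScalarTower.toAlgHom K F L), fun _ => Iff.rfl⟩
      have h4 : IntermediateField.adjoin K (rt (B.x y) '' T) ≤ E' := by
        rw [IntermediateField.adjoin_le_iff]
        rintro _ ⟨t, ht, rfl⟩
        have h5 := hwE ⟨t, ht⟩
        rw [hw] at h5
        exact (hE' _).2 h5
      exact fun x hx => (hE' x).1 (h4 hx)
    obtain ⟨φ, hφ⟩ : ∃ φ : IntermediateField.adjoin K (rt (B.x y) '' T) →+* E,
        ∀ c, (φ c : L) = algebraMap F L c :=
      ⟨((algebraMap F L).comp (algebraMap (IntermediateField.adjoin K (rt (B.x y) '' T))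
        F)).codRestrict E.toSubring fun c => h3 c c.2, fun _ => rfl⟩
    have hφi : Function.Injective φ := φ.injective
    exact hEalg _ (IsAlgebraic.ringHom_of_comp_eq (S := E) φ (algebraMap F L) (hTa i) hφi
      (RingHom.ext fun c => hφ c))
  obtain ⟨yE, hyE⟩ := Z_descend B E Y hYE
  obtain ⟨β'₂, hβ'₂⟩ := Z_descend B' k₂ β' hβ'
  -- the equations
  have hb : tdeg k (A.x (hB.inc L Y + hB'.inc L Y')) ≤
      tdeg k (A.x (hB.inc _ β + hB'.inc _ β')) := by
    refine M_tdeg_le (Z_x_ne A _) fun d Φ hΦ h0 => ?_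
    have g1 : ∀ {M : Type u} [Field M] [Algebra k M] [Algebra k₂ M]
        (_ : ∀ c : k, algebraMap k₂ M (IntermediateField.inclusion hk c) = algebraMap k M c)
        (x : Fin (N + 1) → M), aeval x (MvPolynomial.map
          (IntermediateField.inclusion hk : k →+* k₂) Φ) = aeval x Φ := by
      intro M _ _ _ hM x
      exact M_map _ hM x Φ
    have g2 : aeval (A.x (hB'.inc G β' + hB.inc G β)) (MvPolynomial.map
        (IntermediateField.inclusion hk : k →+* k₂) Φ) = 0 := by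
      rw [g1 (fun _ => rfl), add_comm (hB'.inc G β'), h0]
    have g3 : A.Img (IsScalarTower.toAlgHom K k₂ L) (hB'.inc k₂ β'₂) (hB'.inc L β'L) := by
      have h4 := Z_img_trans A (Z_inc_img hB' hβ'₂) (Z_inc_img hB' hβ'L)
      have h5 : (IsScalarTower.toAlgHom K G L).comp k₂.val = IsScalarTower.toAlgHom K k₂ L :=
        AlgHom.ext fun _ => rfl
      rwa [h5] at h4
    have g4 := M_one hB (k := k₂) (x := hB'.inc k₂ β'₂) (x' := hB'.inc G β')
      (Z_inc_img hB' hβ'₂) h1 (hΦ.map _) g2 g3 Y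
    rw [g1 (fun _ => rfl), add_comm (hB'.inc L β'L)] at g4
    obtain ⟨φE, hφE⟩ : ∃ φE : k →+* E, ∀ c, algebraMap E L (φE c) = algebraMap k L c :=
      ⟨(algebraMap k L).codRestrict E.toSubring hkE, fun _ => rfl⟩
    have g5 := M_one hB' (k := E) (x := hB.inc E yE) (x' := hB.inc L Y) (Z_inc_img hB hyE) hgE
      (hΦ.map φE) (by rw [M_map φE hφE, g4]) (x₁ := hB.inc L Y) (Z_inc_img hB hyE) Y'
    rwa [M_map φE hφE] at g5
  -- the degree over `K`
  refine le_trans ?_ hb
  obtain ⟨T₀, hT₀, -, hT₀c⟩ := Z_exists_basis (K := K) (A.x (hB.inc F y + hB'.inc F y'))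
  rw [hT₀c]
  have hYY : A.Img (IsScalarTower.toAlgHom K F L) (hB.inc F y + hB'.inc F y')
      (hB.inc L Y + hB'.inc L Y') := Z_img_add A (Z_inc_img hB hY) (Z_inc_img hB' hY')
  have h3 : AlgebraicIndependent k fun τ : T₀ => algebraMap F L
      (rt (A.x (hB.inc F y + hB'.inc F y')) τ) :=
    (hfree T₀ _ hT₀).restrictScalars (algebraMap k G).injective
  refine (Z_card_le_tdeg (K := k) (A.x (hB.inc L Y + hB'.inc L Y')) _ h3 fun τ => ?_).2
  have h4 : algebraMap F L (rt (A.x (hB.inc F y + hB'.inc F y')) τ) =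
      rt (A.x (hB.inc L Y + hB'.inc L Y')) τ := (Z_img_rt A hYY _).symm
  rw [h4]
  exact isAlgebraic_algebraMap (⟨_, rt_self_mem k (A.x (hB.inc L Y + hB'.inc L Y')) τ⟩ :
    IntermediateField.adjoin k (Set.range (rt (A.x (hB.inc L Y + hB'.inc L Y')))))

/-- The sum of a point of `B`, generic over `k₂`, and of a point of `B'` over `k₂`, generic over `k`. -/
theorem M_gen {K : Type u} [Field K] [CharZero K] {N : ℕ} {A B B' : AV K N} (hB : IsSubAV B A)
    (hB' : IsSubAV B' A) (k k₂ : IntermediateField K (GK K)) (hk : k ≤ k₂) {β : B.Pts (GK K)}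
    {β' : B'.Pts (GK K)} (hβ' : ∀ i, rt (B'.x β') i ∈ k₂) (h1 : GenP B k₂ β) (h2 : GenP B' k β')
    {F : Type u} [Field F] [Algebra K F] (y : B.Pts F) (y' : B'.Pts F) :
    tdeg K (A.x (hB.inc F y + hB'.inc F y')) ≤
      tdeg k (A.x (hB.inc _ β + hB'.inc _ β')) := by
  let _ : Algebra (GK K) (GK F) := (gmap K F).toAlgebra
  let _ : Algebra K (GK F) := ((gmap K F).comp (algebraMap K (GK K))).toAlgebra
  let _ : Algebra F (GK F) := RingHom.toAlgebra
    ({ toFun := fun c => gm fun _ => c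
       map_one' := rfl
       map_zero' := rfl
       map_mul' := fun a b => gm_mul _ _
       map_add' := fun a b => gm_add _ _ } : F →+* GK F)
  have i1 : @IsScalarTower K (GK K) (GK F) Algebra.toSMul Algebra.toSMul Algebra.toSMul :=
    IsScalarTower.of_algebraMap_eq fun _ => rfl
  have i2 : @IsScalarTower K F (GK F) Algebra.toSMul Algebra.toSMul Algebra.toSMul :=
    IsScalarTower.of_algebraMap_eq fun _ => rfl
  exact M_gen' hB hB' (L := GK F) (fun T s hs => U_indep hs (RingHom.id (GK K)) fun _ => rfl) k k₂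
    hk hβ' h1 h2 y y'

end Pool.Agent.Lib.MP_17a322_nt.FU
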