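import Pool.Agent.Lib.MP_17a322_nt.FU.M2
import Pool.Agent.Lib.MP_17a322_nt.FU.M3
import Pool.Agent.Lib.MP_17a322_nt.SL.D0
import Pool.Agent.Lib.MP_17a322_nt.VA.Z15

/-!
The decomposition at all scales.
-/

universe u

namespace Pool.Agent.Lib.MP_17a322_nt.FU

open MvPolynomial Height Filter
open Pool.Agent.Lib.MP_17a322_nt.RO
open Pool.Agent.Lib.MP_17a322_nt.VJ
open Pool.Agent.Lib.MP_17a322_nt.VN hiding lf
open Pool.Agent.Lib.MP_17a322_nt.VA
open Pool.Agent.Lib.MP_17a322_nt.VP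
open Pool.Agent.Lib.MP_17a322_nt.SL

/-- Almost minimal values. -/
theorem D_min {α : Type*} (f : α → ℝ) (hf : ∀ x, 0 ≤ f x) {s : Set α} (hs : s.Nonempty) :
    ∃ x ∈ s, ∀ y ∈ s, f x ≤ f y + 1 := by
  obtain ⟨z, ⟨x, hx, rfl⟩, h1⟩ := exists_lt_of_csInf_lt (hs.image f)
    (show sInf (f '' s) < sInf (f '' s) + 1 by linarith)
  refine ⟨x, hx, fun y hy => ?_⟩
  have h2 : sInf (f '' s) ≤ f y := csInf_le ⟨0, by
    rintro _ ⟨w, -, rfl⟩
    exact hf w⟩ ⟨y, hy, rfl⟩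
  linarith

theorem GenP.anti {K : Type u} [Field K] {N : ℕ} {B : AV K N} {F : Type u} [Field F] [Algebra K F]
    {k k' : IntermediateField K F} (h : k ≤ k') {b : B.Pts F} (hb : GenP B k' b) : GenP B k b :=
  fun L _ _ q => (hb L q).trans (M_tdeg_anti h _)

section

variable {K : Type u} [Field K] [NumberField K] {N : ℕ} {A B : AV K N}

/-- Heights of differences. -/
theorem D_sub (A : AV K N) : ∃ C : ℝ, 0 ≤ C ∧ ∀ P Q : A.Pts K,
    A.h (P - Q) ≤ 2 * A.h P + 2 * A.h Q + C := by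
  obtain ⟨C, hC, h1⟩ := A.parallelogram
  refine ⟨C * Module.finrank ℚ K, mul_nonneg hC (Nat.cast_nonneg _), fun P Q => ?_⟩
  have h2 := (abs_le.1 (h1 K P Q)).2
  have h3 : 0 ≤ A.h (P + Q) := AV.h_nonneg _
  linarith

theorem D_OH_sub {G : ℕ → ℝ} (hG : ∀ i, 1 ≤ G i) {P Q : ℕ → A.Pts K}
    (h1 : OH G fun i => A.h (P i)) (h2 : OH G fun i => A.h (Q i)) :
    OH G fun i => A.h (P i - Q i) := by
  obtain ⟨C, hC, h3⟩ := D_sub A
  exact (((h1.const_mul zero_le_two).add (h2.const_mul zero_le_two)).add (OH_const hG C)).mono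
    (Eventually.of_forall fun i => h3 _ _)

/-- The generic point given by `GeoB`. -/
theorem D_geoB {H : ℕ → ℝ} {hH : Tendsto H (hyperfilter ℕ : Filter ℕ) atTop} {Q : ℕ → B.Pts K}
    {b : B.Pts (GK K)} {n : ℕ} (hBg : GeoB B hH Q b n) : GenP B (k0 K H hH) b := by
  obtain ⟨s, e, nd, κ, hcov⟩ := exists_cover B hBg.dim
  obtain ⟨p₁, hgood⟩ := exists_shift B Q b hBg.germ hBg.min e nd
  obtain ⟨v₀⟩ : Nonempty (NumberField.InfinitePlace K) := inferInstance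
  obtain ⟨c₀, -⟩ := hcov K v₀.val (0 : B.Pts K)
  have h1 := tdeg_of_indep (nd c₀) _ (hBg.indep p₁ (nd c₀) (hgood c₀))
  exact fun L _ _ q => (hBg.dim.1 L q).trans (h1.trans (tdeg_shift b p₁))

end

theorem M_dec {K : Type u} [Field K] [NumberField K] {N : ℕ} {A : AV K N}
    (hA : (⊤ : AddSubgroup (A.Pts K)).FG) (G : ℕ → ℝ) (hG : ∀ i, 1 ≤ G i) (P : ℕ → A.Pts K)
    {B₁ : AV K N} (hB₁ : IsSubAV B₁ A) (W₁ : ℕ → A.Pts K) (Q₁ : ℕ → B₁.Pts K)
    (b₁ : B₁.Pts (GK K)) (G₁ : ℕ → ℝ) (hG₁ : ∀ i, 1 ≤ G₁ i)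
    (hGG : ∀ i, G₁ i = G i + A.h (W₁ i)) (h : Dec G₁ hG₁ P hB₁ W₁ Q₁ b₁) :
    ∃ (B : AV K N) (hB : IsSubAV B A) (W : ℕ → A.Pts K) (Q : ℕ → B.Pts K) (b : B.Pts (GK K)),
      B.I ≤ B₁.I ∧ Dec G hG P hB W Q b := by
  classical
  have hG0 : ∀ i, 0 ≤ G i := fun i => zero_le_one.trans (hG i)
  have hh0 : ∀ (A : AV K N) (x : A.Pts K), 0 ≤ A.h x := fun A x => AV.h_nonneg x
  -- a minimal abelian subvariety
  obtain ⟨C, hC⟩ : ∃ C : Set (Ideal (MvPolynomial (Fin (N + 1)) K)), ∀ I, I ∈ C ↔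
      ∃ (B : AV K N) (hB : IsSubAV B A) (W : ℕ → A.Pts K) (Q : ℕ → B.Pts K)
        (b : B.Pts (GK K)) (G' : ℕ → ℝ) (hG' : ∀ i, 1 ≤ G' i), B.I = I ∧ B.I ≤ B₁.I ∧
        (∀ i, G' i = G i + A.h (W i)) ∧ Dec G' hG' P hB W Q b := ⟨{I | _}, fun _ => Iff.rfl⟩
  obtain ⟨I, hIC, hmin⟩ := VA.G.exists_minimal_prime C
    ⟨B₁.I, (hC _).2 ⟨B₁, hB₁, W₁, Q₁, b₁, G₁, hG₁, rfl, le_rfl, hGG, h⟩⟩ (by
      intro I hI
      obtain ⟨B, hB, W, Q, b, G', hG', rfl, -⟩ := (hC _).1 hI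
      exact Z_prime B)
  obtain ⟨B, hB, W, Q, b, G', hG', rfl, hle, hGG', hD⟩ := (hC _).1 hIC
  -- representatives of almost minimal height
  obtain ⟨S, hS⟩ : ∃ S : ℕ → Set (A.Pts K), ∀ i x, x ∈ S i ↔ ∃ β : B.Pts K,
      P i = x + hB.inc K β := ⟨fun i => {x | _}, fun _ _ => Iff.rfl⟩
  choose Wm hWm hWmin using fun i => D_min (fun x : A.Pts K => A.h x) (hh0 A) (s := S i)
    ⟨P i, (hS _ _).2 ⟨0, by rw [map_zero, add_zero]⟩⟩
  choose Qm hQm using fun i => (hS _ _).1 (hWm i)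
  obtain ⟨bm, hbm⟩ := Z_exists_germ B Qm
  obtain ⟨Gm, hGm⟩ : ∃ Gm : ℕ → ℝ, ∀ i, Gm i = G i + A.h (Wm i) := ⟨_, fun _ => rfl⟩
  have hGm1 : ∀ i, 1 ≤ Gm i := fun i => by
    rw [hGm]
    linarith [hG i, hh0 A (Wm i)]
  have hWmW : ∀ᶠ i in (hyperfilter ℕ : Filter ℕ), A.h (Wm i) ≤ A.h (W i) + 1 := by
    filter_upwards [hD.rel] with i hi
    exact hWmin i _ ((hS _ _).2 ⟨_, hi⟩)
  have hW' : OH G' fun i => A.h (W i) := (OH.self G').mono (Eventually.of_forall fun i => by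
    rw [hGG']
    linarith [hG0 i])
  have hWm' : OH G' fun i => A.h (Wm i) := (hW'.add (OH_const hG' 1)).mono hWmW
  have hGm' : OH G' Gm := by
    have h1 : OH G' G := (OH.self G').mono (Eventually.of_forall fun i => by
      rw [hGG']
      linarith [hh0 A (W i)])
    exact (h1.add hWm').mono (Eventually.of_forall fun i => (hGm i).le)
  have hgm : GenP B (kO K Gm hGm1) bm := by
    have h1 : IsGerm B (fun i => Qm i - Q i) (bm - b) := (hbm.add_sub hD.germ).2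
    have h2 : OH G' fun i => B.h (Qm i - Q i) := by
      refine (D_OH_sub hG' hW' hWm').mono ?_
      filter_upwards [hD.rel] with i hi
      have h3 : hB.inc K (Qm i - Q i) = W i - Wm i := by
        have h4 := (hQm i).symm.trans hi
        rw [map_sub, sub_eq_sub_iff_add_eq_add]
        rw [add_comm (hB.inc K (Qm i)), h4]
      have h5 : B.h (Qm i - Q i) = A.h (hB.inc K (Qm i - Q i)) := rfl
      rw [h5, h3]
    have h3 : tdeg (kO K G' hG') (B.x bm) = tdeg (kO K G' hG') (B.x b) := by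
      have h4 := (M_shift (k := kO K G' hG') b (bm - b) fun i =>
        ⟨⟨_, kO_rt (hG := hG') h1 h2 i⟩, rfl⟩).1
      rwa [add_sub_cancel] at h4
    have h4 : GenP B (kO K G' hG') bm := fun L _ _ q => (hD.gen L q).trans_eq h3.symm
    exact h4.anti (kO_mono hGm')
  have hGmG : OH Gm G := (OH.self Gm).mono (Eventually.of_forall fun i => by
    rw [hGm]
    linarith [hh0 A (Wm i)])
  by_cases hO : OH G fun i => A.h (Wm i)
  · exact ⟨B, hB, Wm, Qm, bm, hle, Eventually.of_forall hQm, hbm, hgm.anti (kO_mono hGmG), hO⟩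
  exfalso
  obtain ⟨H, hHd⟩ : ∃ H : ℕ → ℝ, ∀ i, H i = A.h (Wm i) := ⟨_, fun _ => rfl⟩
  have hbig : ∀ c : ℝ, ∀ᶠ i in (hyperfilter ℕ : Filter ℕ), c * G i < H i := by
    intro c
    have h1 : ¬ ∀ᶠ i in (hyperfilter ℕ : Filter ℕ), A.h (Wm i) ≤ c * G i := fun h2 => hO ⟨c, h2⟩
    filter_upwards [Ultrafilter.eventually_not.2 h1] with i hi
    rw [hHd]
    exact not_le.1 hi
  have hH : Tendsto H (hyperfilter ℕ : Filter ℕ) atTop := by
    refine tendsto_atTop.2 fun c => ?_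
    filter_upwards [hbig |c|] with i hi
    nlinarith [le_abs_self c, abs_nonneg c, hG i]
  have hoG : oH H G := by
    intro δ hδ
    filter_upwards [hbig (1 / δ)] with i hi
    have h1 := mul_lt_mul_of_pos_left hi hδ
    have h2 : δ * (1 / δ * G i) = G i := by
      field_simp
    linarith
  obtain ⟨pm, hpm⟩ := Z_exists_germ A Wm
  obtain ⟨B', hB', W', w, w', Q', b', n', hGA, hGB⟩ := GEO' A ⊤ hA hH Wm
    (fun _ => AddSubgroup.mem_top _)
    ⟨1, one_pos, Eventually.of_forall fun i => by rw [hHd, one_mul]⟩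
    ⟨1, one_pos, Eventually.of_forall fun i => by rw [hHd, one_mul]⟩ hpm
  have hoW : oH H fun i => A.h (W' i) := Z_oH_of_img hH hGA.germW hGA.img
  have hgen' := D_geoB hGB
  have hHGm : OH Gm H := (OH.self Gm).mono (Eventually.of_forall fun i => by
    rw [hGm, hHd]
    linarith [hG0 i])
  have hb'k : ∀ i, rt (B'.x b') i ∈ kO K Gm hGm1 := by
    refine kO_rt hGB.germ ?_
    have h1 : OH Gm fun i => A.h (Wm i) := hHGm.mono (Eventually.of_forall fun i => (hHd i).ge)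
    have h2 : OH Gm fun i => A.h (W' i) := by
      refine hHGm.mono ?_
      filter_upwards [hoW 1 one_pos] with i hi
      rwa [one_mul] at hi
    refine (D_OH_sub hGm1 h1 h2).mono ?_
    filter_upwards [hGA.relK] with i hi
    have h3 : B'.h (Q' i) = A.h (hB'.inc K (Q' i)) := rfl
    rw [h3, hi, add_sub_cancel_left]
  obtain ⟨E, hE, F, i1, i2, y, y', hEB, hEB', hEgen⟩ := M_sum hB hB'
  have hBE : IsSubAV B E := M_sub hB hE hEB
  have hBE' : IsSubAV B' E := M_sub hB' hE hEB'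
  obtain ⟨bn, hbn⟩ : ∃ bn, bn = hBE.inc _ bm + hBE'.inc _ b' := ⟨_, rfl⟩
  have hbnx : E.x bn = A.x (hB.inc _ bm + hB'.inc _ b') := by
    have h1 : hE.inc _ bn = hB.inc _ bm + hB'.inc _ b' := by
      rw [hbn, map_add]
      rfl
    rw [← h1]
    rfl
  have hgn : GenP E (k0 K H hH) bn := by
    intro L _ _ q
    rw [hbnx]
    exact (hEgen L q).trans (M_gen hB hB' (k0 K H hH) (kO K Gm hGm1)
      (k0_le_kO hHGm) hb'k hgm hgen' y y')
  obtain ⟨Gn, hGn⟩ : ∃ Gn : ℕ → ℝ, ∀ i, Gn i = G i + A.h (W' i) := ⟨_, fun _ => rfl⟩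
  have hGn1 : ∀ i, 1 ≤ Gn i := fun i => by
    rw [hGn]
    linarith [hG i, hh0 A (W' i)]
  have hoGn : oH H Gn := (hoG.add hoW).mono (Eventually.of_forall fun i => (hGn i).le)
  have hEC : E.I ∈ C := by
    refine (hC _).2 ⟨E, hE, W', fun i => hBE.inc K (Qm i) + hBE'.inc K (Q' i), bn, Gn, hGn1, rfl,
      hEB.trans hle, hGn, ?_, ?_, hgn.anti (kO_le_k0 hoGn), ?_⟩
    · filter_upwards [hGA.relK] with i hi
      have h1 : hE.inc K (hBE.inc K (Qm i) + hBE'.inc K (Q' i)) =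
          hB.inc K (Qm i) + hB'.inc K (Q' i) := by
        rw [map_add]
        rfl
      rw [h1, hQm i, hi]
      abel
    · rw [hbn]
      exact (IsGerm.add_sub (A := E) (P := fun i => hBE.inc K (Qm i))
        (Q := fun i => hBE'.inc K (Q' i)) (hbm.inc hBE) (hGB.germ.inc hBE')).1
    · exact (OH.self Gn).mono (Eventually.of_forall fun i => by
        rw [hGn]
        linarith [hG0 i])
  have hEI : E.I = B.I := hmin _ hEC hEB
  have hfin : ∀ᶠ i in (hyperfilter ℕ : Filter ℕ), H i ≤ A.h (W' i) + 1 := by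
    filter_upwards [hGA.relK] with i hi
    rw [hHd]
    refine hWmin i _ ((hS _ _).2 ⟨⟨(hBE.inc K (Qm i) + hBE'.inc K (Q' i)).1, fun f hf =>
      (hBE.inc K (Qm i) + hBE'.inc K (Q' i)).2 f (hEI ▸ hf)⟩, ?_⟩)
    have h1 : hB.inc K (⟨(hBE.inc K (Qm i) + hBE'.inc K (Q' i)).1, fun f hf =>
        (hBE.inc K (Qm i) + hBE'.inc K (Q' i)).2 f (hEI ▸ hf)⟩ : B.Pts K) =
        hE.inc K (hBE.inc K (Qm i) + hBE'.inc K (Q' i)) := rfl
    have h2 : hE.inc K (hBE.inc K (Qm i) + hBE'.inc K (Q' i)) =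
        hB.inc K (Qm i) + hB'.inc K (Q' i) := by
      rw [map_add]
      rfl
    rw [h1, h2, hQm i, hi]
    abel
  obtain ⟨i, h1, h2, h3⟩ := (hfin.and ((hoW (1 / 2) (by norm_num)).and
    (hH.eventually_gt_atTop 2))).exists
  linarith

end Pool.Agent.Lib.MP_17a322_nt.FU
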