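import Pool.Agent.Lib.MP_17a322_nt.FU.M5a
import Pool.Agent.Lib.MP_17a322_nt.FU.M1
import Pool.Agent.Lib.MP_17a322_nt.VA.A3b

/-!
MS: transfer of the codimension.
-/

universe u

namespace Pool.Agent.Lib.MP_17a322_nt.FU

open MvPolynomial
open Pool.Agent.Lib.MP_17a322_nt.VN hiding lf
open Pool.Agent.Lib.MP_17a322_nt.VA

/-- The transcendence degree over a larger field is smaller. -/
theorem M_tdeg_tower {K k L : Type u} [Field K] [Field k] [Field L] [Algebra K k] [Algebra K L]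
    [Algebra k L] [IsScalarTower K k L] {N : ℕ} (y : Fin (N + 1) → L) : tdeg k y ≤ tdeg K y := by
  obtain ⟨T, hT, hTa, hTc⟩ := Z_exists_basis (K := k) y
  rw [hTc]
  refine (Z_card_le_tdeg y (fun t : T => rt y t)
    (hT.restrictScalars (algebraMap K k).injective) fun t => ?_).2
  exact isAlgebraic_algebraMap (⟨rt y t, IntermediateField.subset_adjoin K _ ⟨_, rfl⟩⟩ :
    IntermediateField.adjoin K (Set.range (rt y)))

section

variable {K : Type u} [Field K] {N : ℕ} {B B₁ : AV K N} {k F M : Type u} [Field k] [Field F]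
  [Field M] [Algebra K k] [Algebra K F] [Algebra k F] [Algebra K M]
  [Algebra k M] [Algebra F M] [IsScalarTower K F M] [IsScalarTower k F M] [IsScalarTower K k M]

/-- The count for a point of `B` over `F` which is the sum of `p` and of a point `c` of `B₁`. -/
theorem M_count (hBB : IsSubAV B₁ B) {n n₁ m : ℕ}
    (hn₁ : ∀ (L : Type u) [Field L] [Algebra K L] (P : B₁.Pts L), tdeg K (B₁.x P) ≤ n₁)
    {b : B.Pts F} (hb : (n : Cardinal.{u}) ≤ tdeg k (B.x b)) {bM : B.Pts M}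
    (hbM : B.Img (IsScalarTower.toAlgHom K F M) b bM) (p : B.Pts M) (c : B₁.Pts M)
    (hc : (m : Cardinal.{u}) ≤ tdeg F (B₁.x c)) (hpc : bM = p + hBB.inc M c) :
    ∃ t : ℕ, tdeg k (B.x p) = (t : Cardinal.{u}) ∧ n + m ≤ t + n₁ := by
  obtain ⟨Tb, hTb, -, hTbc⟩ := Z_exists_basis (K := k) (B.x b)
  obtain ⟨Tc, hTc, -, hTcc⟩ := Z_exists_basis (K := F) (B₁.x c)
  obtain ⟨Tp, hTp, hTpa, hTpc⟩ := Z_exists_basis (K := k) (B.x p)
  obtain ⟨Tk, hTk, hTka, hTkc⟩ := Z_exists_basis (K := k) (B₁.x c)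
  obtain ⟨w, hw⟩ : ∃ w : Tp ⊕ Tk → M, w = Sum.elim (fun t : Tp => rt (B.x p) t)
      fun t : Tk => rt (B₁.x c) t := ⟨_, rfl⟩
  have hp1 : ∀ i, IsAlgebraic (IntermediateField.adjoin k (Set.range w)) (rt (B.x p) i) := by
    intro i
    have h1 : (IntermediateField.adjoin k (rt (B.x p) '' Tp)).toSubalgebra ≤
        (IntermediateField.adjoin k (Set.range w)).toSubalgebra := by
      show IntermediateField.adjoin k (rt (B.x p) '' Tp) ≤
        IntermediateField.adjoin k (Set.range w)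
      refine IntermediateField.adjoin.mono k _ _ ?_
      rintro _ ⟨t, ht, rfl⟩
      exact ⟨Sum.inl ⟨t, ht⟩, by rw [hw]; rfl⟩
    exact IsAlgebraic.tower_top_of_subalgebra_le h1 (hTpa i)
  have hc1 : ∀ i, IsAlgebraic (IntermediateField.adjoin k (Set.range w)) (rt (B₁.x c) i) := by
    intro i
    have h1 : (IntermediateField.adjoin k (rt (B₁.x c) '' Tk)).toSubalgebra ≤
        (IntermediateField.adjoin k (Set.range w)).toSubalgebra := by
      show IntermediateField.adjoin k (rt (B₁.x c) '' Tk) ≤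
        IntermediateField.adjoin k (Set.range w)
      refine IntermediateField.adjoin.mono k _ _ ?_
      rintro _ ⟨t, ht, rfl⟩
      exact ⟨Sum.inr ⟨t, ht⟩, by rw [hw]; rfl⟩
    exact IsAlgebraic.tower_top_of_subalgebra_le h1 (hTka i)
  -- the ratios of the coordinates of `b`
  have hb1 : ∀ i, IsAlgebraic (IntermediateField.adjoin k (Set.range w))
      (algebraMap F M (rt (B.x b) i)) := by
    intro i
    obtain ⟨E, hE⟩ : ∃ E : IntermediateField K M, ∀ x, x ∈ E ↔
        x ∈ IntermediateField.adjoin k (Set.range (rt (B.x p)) ∪ Set.range (rt (B₁.x c))) :=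
      ⟨(IntermediateField.adjoin k
        (Set.range (rt (B.x p)) ∪ Set.range (rt (B₁.x c)))).restrictScalars K, fun _ => Iff.rfl⟩
    obtain ⟨p₀, hp₀⟩ := Z_descend B E p fun i => (hE _).2
      (IntermediateField.subset_adjoin k _ (Or.inl ⟨i, rfl⟩))
    obtain ⟨c₀, hc₀⟩ := Z_descend B₁ E c fun i => (hE _).2
      (IntermediateField.subset_adjoin k _ (Or.inr ⟨i, rfl⟩))
    have h1 := Z_img_add B hp₀ (Z_inc_img hBB hc₀)
    rw [← hpc] at h1
    have h2 := (hE _).1 (Z_rt_mem B h1 i)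
    rw [Z_img_rt B hbM] at h2
    refine Z_alg_adjoin (S := Set.range (rt (B.x p)) ∪ Set.range (rt (B₁.x c))) ?_ h2
    rintro _ (⟨j, rfl⟩ | ⟨j, rfl⟩)
    · exact hp1 j
    · exact hc1 j
  have hind := hTb.sumElim_comp hTc
  have h3 := (indep_card_le (K := k) _ hind w (by
    rintro (j | j)
    · exact hc1 j
    · exact hb1 j)).2
  rw [Nat.card_sum, Nat.card_sum] at h3
  have h4 : Nat.card Tk ≤ n₁ := by
    have h5 := (M_tdeg_tower (K := K) (k := k) (B₁.x c)).trans (hn₁ M c)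
    rw [hTkc] at h5
    exact_mod_cast h5
  have h5 : n ≤ Nat.card Tb := by
    rw [hTbc] at hb
    exact_mod_cast hb
  have h6 : m ≤ Nat.card Tc := by
    rw [hTcc] at hc
    exact_mod_cast hc
  exact ⟨Nat.card Tp, hTpc, by omega⟩

end

section

variable {K F : Type u} [Field K] [Field F] [Algebra K F] {N : ℕ} {B B₁ : AV K N}

theorem M_transfer_aux (hBB : IsSubAV B₁ B) (k k' : IntermediateField K F) (hk : k ≤ k')
    {n n₁ : ℕ} (hn : B.dimIs n) (hn₁ : B₁.dimIs n₁) {b : B.Pts F} {b₁ : B₁.Pts F}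
    {β : B.Pts k'} {β' : B.Pts F} (hβ : B.Img k'.val β β')
    (hb : b = β' + hBB.inc _ b₁) (hgen : GenP B k b)
    (Ω : Type u) [Field Ω] [Algebra K Ω] [Algebra k Ω] [Algebra k' Ω] [IsScalarTower K k Ω]
    [IsScalarTower K k' Ω] (hkΩ : ∀ c : k, algebraMap k Ω c = algebraMap k' Ω ⟨c, hk c.2⟩)
    (q : B₁.Pts Ω) (hq : (n₁ : Cardinal.{u}) ≤ tdeg k' (B₁.x q) + 1)
    (T₀ : Set (Fin (N + 1) × Fin (N + 1)))
    (hT₀ : AlgebraicIndependent k' fun τ : T₀ => rt (B₁.x q) τ)
    (hTa : ∀ i, IsAlgebraic (IntermediateField.adjoin k' (rt (B₁.x q) '' T₀)) (rt (B₁.x q) i))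
    (hTc : tdeg k' (B₁.x q) = (Nat.card T₀ : Cardinal.{u}))
    (M : Type u) [Field M] [IsAlgClosed M] [Algebra K M] [Algebra F M] [IsScalarTower K F M]
    (s : T₀ → M) (hs : AlgebraicIndependent F s) :
    (n : Cardinal.{u}) ≤
      tdeg k (B.x (B.img (IsScalarTower.toAlgHom K k' Ω) β + hBB.inc Ω q)) + 1 := by
  obtain ⟨q', y, z, hy, hz, hyz, hrt⟩ := M_transport (κ := k') q T₀ hT₀ hTa s
    (hs.restrictScalars (algebraMap k' F).injective)
  obtain ⟨βM, hβM⟩ := Z_exists_img B (IsScalarTower.toAlgHom K k' M) β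
  obtain ⟨b₁M, hb₁M⟩ := Z_exists_img B₁ (IsScalarTower.toAlgHom K F M) b₁
  -- the image of `b`
  have hβM' : B.Img (IsScalarTower.toAlgHom K F M) β' βM := by
    obtain ⟨y', hy'⟩ := Z_exists_img B (IsScalarTower.toAlgHom K F M) β'
    have h1 := Z_img_trans B hβ hy'
    have h2 : (IsScalarTower.toAlgHom K F M).comp k'.val = IsScalarTower.toAlgHom K k' M := by
      refine AlgHom.ext fun c => ?_
      exact (IsScalarTower.algebraMap_apply k' F M c).symm
    rw [h2] at h1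
    rw [Z_img_unique B hβM h1]
    exact hy'
  have hbM : B.Img (IsScalarTower.toAlgHom K F M) b (βM + hBB.inc M b₁M) := by
    rw [hb]
    exact Z_img_add B hβM' (Z_inc_img hBB hb₁M)
  -- the transcendence degree of `b₁ - q'` over `F`
  have hc : (Nat.card T₀ : Cardinal.{u}) ≤ tdeg F (B₁.x (b₁M - q')) := by
    have h1 := (M_shift (A := B₁) (k := F) q' b₁M fun i =>
      ⟨rt (B₁.x b₁) i, (Z_img_rt B₁ hb₁M i).symm⟩).2.2
    rw [h1]
    refine (Z_card_le_tdeg (K := F) (B₁.x q') s hs fun τ => ?_).2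
    rw [← hrt τ]
    exact isAlgebraic_algebraMap (⟨rt (B₁.x q') τ, IntermediateField.subset_adjoin F _ ⟨_, rfl⟩⟩ :
      IntermediateField.adjoin F (Set.range (rt (B₁.x q'))))
  have hnb : (n : Cardinal.{u}) ≤ tdeg k (B.x b) := by
    obtain ⟨L, i1, i2, P, hP⟩ := hn.2
    rw [← hP]
    exact hgen L P
  obtain ⟨t, ht, hcount⟩ := M_count (k := k) hBB hn₁.1 hnb hbM (βM + hBB.inc M q') (b₁M - q') hc
    (by
      rw [map_sub]
      abel)
  -- specialisation
  have htr : tdeg k (B.x (βM + hBB.inc M q')) ≤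
      tdeg k (B.x (B.img (IsScalarTower.toAlgHom K k' Ω) β + hBB.inc Ω q)) := by
    refine M_tdeg_le (B.x_ne _) fun d G hG h0 => ?_
    have e1 : ∀ x : Fin (N + 1) → Ω, aeval x G =
        aeval x (MvPolynomial.map (IntermediateField.inclusion hk).toRingHom G) := by
      intro x
      rw [aeval_def, aeval_def, eval₂_map]
      congr 1
      exact RingHom.ext hkΩ
    have e2 : ∀ x : Fin (N + 1) → M, aeval x G =
        aeval x (MvPolynomial.map (IntermediateField.inclusion hk).toRingHom G) := by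
      intro x
      rw [aeval_def, aeval_def, eval₂_map]
      congr 1
    rw [e1] at h0
    rw [e2]
    have hy' : B.Rep (hBB.inc Ω q) y := hy
    have hz' : B.Rep (hBB.inc M q') z := hz
    exact M_tr (κ := k') β (B.img_rep _ β) hβM hy' hz' hyz (hG.map _) h0
  rw [ht] at htr
  have h1 : n ≤ t + 1 := by
    rw [hTc] at hq
    have h2 : n₁ ≤ Nat.card T₀ + 1 := by exact_mod_cast hq
    omega
  have h2 : (n : Cardinal.{u}) ≤ (t : Cardinal.{u}) + 1 := by exact_mod_cast h1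
  exact h2.trans (add_le_add htr le_rfl)

end

theorem M_transfer {K : Type u} [Field K] {N : ℕ} {A B B₁ : AV K N} (_hB : IsSubAV B A)
    (_hB₁ : IsSubAV B₁ A) (hBB : IsSubAV B₁ B) (k k' : IntermediateField K (GK K)) (hk : k ≤ k')
    {n n₁ : ℕ} (hn : B.dimIs n) (hn₁ : B₁.dimIs n₁) {b : B.Pts (GK K)} {b₁ : B₁.Pts (GK K)}
    {β : B.Pts k'} {β' : B.Pts (GK K)} (hβ : B.Img k'.val β β')
    (hb : b = β' + hBB.inc _ b₁) (hgen : GenP B k b) (_hgen₁ : GenP B₁ k' b₁)
    (Ω : Type u) [Field Ω] [Algebra K Ω] [Algebra k Ω] [Algebra k' Ω] [IsScalarTower K k Ω]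
    [IsScalarTower K k' Ω] (hkΩ : ∀ c : k, algebraMap k Ω c = algebraMap k' Ω ⟨c, hk c.2⟩)
    (q : B₁.Pts Ω) (hq : (n₁ : Cardinal.{u}) ≤ tdeg k' (B₁.x q) + 1) :
    (n : Cardinal.{u}) ≤
      tdeg k (B.x (B.img (IsScalarTower.toAlgHom K k' Ω) β + hBB.inc Ω q)) + 1 := by
  obtain ⟨T₀, hT₀, hTa, hTc⟩ := Z_exists_basis (K := k') (B₁.x q)
  have hs : AlgebraicIndependent (GK K) fun τ : T₀ =>
      algebraMap (FractionRing (MvPolynomial T₀ (GK K))) (AlgebraicClosure
        (FractionRing (MvPolynomial T₀ (GK K)))) (algebraMap (MvPolynomial T₀ (GK K)) _ (X τ)) := by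
    have h1 := (MvPolynomial.algebraicIndependent_X T₀ (GK K)).map' (f := (Algebra.ofId
      (FractionRing (MvPolynomial T₀ (GK K))) (AlgebraicClosure
        (FractionRing (MvPolynomial T₀ (GK K))))).restrictScalars (GK K) |>.comp
        (IsScalarTower.toAlgHom (GK K) (MvPolynomial T₀ (GK K))
          (FractionRing (MvPolynomial T₀ (GK K))))) (by
      intro a b' h
      exact IsFractionRing.injective (MvPolynomial T₀ (GK K))
        (FractionRing (MvPolynomial T₀ (GK K)))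
        ((algebraMap (FractionRing (MvPolynomial T₀ (GK K))) (AlgebraicClosure
          (FractionRing (MvPolynomial T₀ (GK K))))).injective h))
    exact h1
  exact M_transfer_aux hBB k k' hk hn hn₁ hβ hb hgen Ω hkΩ q hq T₀ hT₀ hTa hTc _ _ hs

end Pool.Agent.Lib.MP_17a322_nt.FU
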