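import Pool.Agent.Lib.MP_17a322_nt.FU.T1
import Pool.Agent.Lib.MP_17a322_nt.VA.A3
import Pool.Agent.Lib.MP_17a322_nt.VA.Z5

/-!
MS: transport of points to a larger field.
-/

universe u

namespace Pool.Agent.Lib.MP_17a322_nt.FU

open MvPolynomial
open Pool.Agent.Lib.MP_17a322_nt.VN
open Pool.Agent.Lib.MP_17a322_nt.VA

section

variable {K : Type u} [Field K] {N : ℕ} {B : AV K N} {κ Ω M : Type u} [Field κ] [Field Ω]
  [Field M] [Algebra K κ] [Algebra K Ω] [Algebra K M] [Algebra κ Ω] [Algebra κ M]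
  [IsScalarTower K κ Ω] [IsScalarTower K κ M]

/-- The forms in the coordinates of `β ± q` as polynomials in the coordinates of `q`. -/
theorem M_rel (β : B.Pts κ) {d : ℕ} {G : MvPolynomial (Fin (N + 1)) κ} (hG : G.IsHomogeneous d)
    (b : Fin (N + 1)) : ∃ R : MvPolynomial (Fin (N + 1)) κ,
      ∀ (Λ : Type u) [Field Λ] [Algebra K Λ] [Algebra κ Λ] [IsScalarTower K κ Λ]
        (p q : B.Pts Λ) (y : Fin (N + 1) → Λ), B.Rep p (fun i => algebraMap κ Λ (B.x β i)) →
        B.Rep q y → ∃ c : Λ, c ≠ 0 ∧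
          aeval y R = c * B.x (p - q) b ^ d * aeval (B.x (p + q)) G := by
  refine ⟨aeval (fun a => (aeval (Sum.elim (fun i => (C (B.x β i) : MvPolynomial (Fin (N + 1)) κ)) X)
    (B.S a b) : MvPolynomial (Fin (N + 1)) κ)) G, fun Λ _ _ _ _ p q y hp hq => ?_⟩
  obtain ⟨c, hc, h1⟩ := hp.spec hq
  have h2 : ∀ a, aeval y (aeval (Sum.elim (fun i => (C (B.x β i) : MvPolynomial (Fin (N + 1)) κ)) X)
      (B.S a b) : MvPolynomial (Fin (N + 1)) κ) =
      c * B.x (p - q) b * B.x (p + q) a := by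
    intro a
    have h3 := comp_aeval_apply ((aeval y : MvPolynomial (Fin (N + 1)) κ →ₐ[κ] Λ).restrictScalars K)
      (f := Sum.elim (fun i => (C (B.x β i) : MvPolynomial (Fin (N + 1)) κ)) X) (B.S a b)
    rw [AlgHom.restrictScalars_apply] at h3
    rw [h3]
    have h4 : (fun i => ((aeval y : MvPolynomial (Fin (N + 1)) κ →ₐ[κ] Λ).restrictScalars K)
        (Sum.elim (fun i => (C (B.x β i) : MvPolynomial (Fin (N + 1)) κ)) X i)) =
        Sum.elim (fun i => algebraMap κ Λ (B.x β i)) y := by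
      funext i
      rcases i with i | i
      · rw [Sum.elim_inl, Sum.elim_inl, AlgHom.restrictScalars_apply]
        exact (aeval y : MvPolynomial (Fin (N + 1)) κ →ₐ[κ] Λ).commutes _
      · rw [Sum.elim_inr, Sum.elim_inr, AlgHom.restrictScalars_apply, aeval_X]
    rw [h4, h1]
    ring
  refine ⟨c ^ d, pow_ne_zero _ hc, ?_⟩
  rw [comp_aeval_apply, funext h2]
  have h5 := aeval_mul_homog hG (c * B.x (p - q) b) (B.x (p + q))
  rw [h5, mul_pow]

/-- If the relations of `q` hold for `q'`, then the forms which vanish at `β + q` vanish at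
`β + q'`. -/
theorem M_tr (β : B.Pts κ) {p q : B.Pts Ω} {p' q' : B.Pts M}
    (hp : B.Rep p fun i => algebraMap κ Ω (B.x β i))
    (hp' : B.Rep p' fun i => algebraMap κ M (B.x β i)) {y : Fin (N + 1) → Ω}
    {z : Fin (N + 1) → M} (hy : B.Rep q y) (hz : B.Rep q' z)
    (hyz : ∀ f : MvPolynomial (Fin (N + 1)) κ, aeval y f = 0 → aeval z f = 0) {d : ℕ}
    {G : MvPolynomial (Fin (N + 1)) κ} (hG : G.IsHomogeneous d)
    (h0 : aeval (B.x (p + q)) G = 0) : aeval (B.x (p' + q')) G = 0 := by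
  obtain ⟨b, hb⟩ := B.exists_x_ne (p' - q')
  obtain ⟨R, hR⟩ := M_rel β hG b
  obtain ⟨c, hc, h1⟩ := hR Ω p q y hp hy
  obtain ⟨c', hc', h2⟩ := hR M p' q' z hp' hz
  rw [h0, mul_zero] at h1
  rw [hyz R h1] at h2
  have h3 := h2.symm
  rw [mul_eq_zero, mul_eq_zero] at h3
  rcases h3 with (h3 | h3) | h3
  · exact absurd h3 hc'
  · exact absurd h3 (pow_ne_zero _ hb)
  · exact h3

/-- A point with the same relations and prescribed ratios of coordinates in a transcendence basis. -/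
theorem M_transport [IsAlgClosed M] (q : B.Pts Ω) (T₀ : Set (Fin (N + 1) × Fin (N + 1)))
    (hT₀ : AlgebraicIndependent κ fun τ : T₀ => rt (B.x q) τ)
    (hTa : ∀ i, IsAlgebraic (IntermediateField.adjoin κ (rt (B.x q) '' T₀)) (rt (B.x q) i))
    (s : T₀ → M) (hs : AlgebraicIndependent κ s) :
    ∃ (q' : B.Pts M) (y : Fin (N + 1) → Ω) (z : Fin (N + 1) → M), B.Rep q y ∧ B.Rep q' z ∧
      (∀ f : MvPolynomial (Fin (N + 1)) κ, aeval y f = 0 → aeval z f = 0) ∧
      ∀ τ : T₀, rt (B.x q') τ = s τ := by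
  obtain ⟨a, ha⟩ := B.exists_x_ne q
  obtain ⟨ζ, hζ, hζs⟩ := U_embed (rt (B.x q)) T₀ hT₀ hTa s hs
  have hrep : B.Rep q fun i => rt (B.x q) (i, a) := by
    exact ⟨(B.x q a)⁻¹, inv_ne_zero ha, fun i => div_eq_inv_mul (B.x q i) (B.x q a)⟩
  have hrel : ∀ f : MvPolynomial (Fin (N + 1)) κ, aeval (fun i => rt (B.x q) (i, a)) f = 0 →
      aeval (fun i => ζ (i, a)) f = 0 := by
    intro f hf
    have h1 := hζ (rename (fun i => (i, a)) f)
    rw [aeval_rename, aeval_rename] at h1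
    exact h1 hf
  have hone : ζ (a, a) = 1 := by
    have h1 := hrel (X a - 1) (by
      rw [map_sub, map_one, aeval_X]
      unfold rt
      rw [div_self ha, sub_self])
    rw [map_sub, map_one, aeval_X] at h1
    exact sub_eq_zero.1 h1
  have hz0 : (fun i => ζ (i, a)) ≠ 0 := by
    intro h0
    have h1 := congrFun h0 a
    rw [Pi.zero_apply, hone] at h1
    exact one_ne_zero h1
  have hzP : B.IsPt fun i => ζ (i, a) := by
    intro f hf
    have h1 := hrep.isPt f hf
    rw [← aeval_map_algebraMap κ] at h1 ⊢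
    exact hrel _ h1
  obtain ⟨q', hq'⟩ := AV.exists_rep hz0 hzP
  refine ⟨q', _, _, hrep, hq', hrel, fun τ => ?_⟩
  rw [← hζs]
  obtain ⟨c, hc, h1⟩ := hq'
  obtain ⟨i, j⟩ := (τ : Fin (N + 1) × Fin (N + 1))
  have h1 : ∀ i, ζ (i, a) = c * B.x q' i := h1
  have h2 : rt (B.x q') (i, j) = ζ (i, a) / ζ (j, a) := by
    rw [h1 i, h1 j, mul_div_mul_left _ _ hc]
    rfl
  rw [h2]
  rcases eq_or_ne (B.x q j) 0 with hj | hj
  · have h3 : ζ (j, a) = 0 := by
      have h4 := hζ (X (j, a)) (by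
        rw [aeval_X]
        unfold rt
        rw [hj, zero_div])
      rwa [aeval_X] at h4
    have h5 : ζ (i, j) = 0 := by
      have h4 := hζ (X (i, j)) (by
        rw [aeval_X]
        unfold rt
        rw [hj, div_zero])
      rwa [aeval_X] at h4
    rw [h3, h5, div_zero]
  · have h3 : ζ (j, a) ≠ 0 := by
      intro h0
      have h4 := hζ (X (j, a) * X (a, j) - 1) (by
        rw [map_sub, map_mul, map_one, aeval_X, aeval_X]
        unfold rt
        rw [div_mul_div_cancel₀ ha, div_self hj, sub_self])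
      rw [map_sub, map_mul, map_one, aeval_X, aeval_X, h0, zero_mul, zero_sub] at h4
      exact one_ne_zero (neg_eq_zero.1 h4)
    have h5 := hζ (X (i, j) * X (j, a) - X (i, a)) (by
      rw [map_sub, map_mul, aeval_X, aeval_X, aeval_X]
      unfold rt
      rw [div_mul_div_cancel₀ hj, sub_self])
    rw [map_sub, map_mul, aeval_X, aeval_X, aeval_X] at h5
    rw [div_eq_iff h3]
    exact (sub_eq_zero.1 h5).symm

end

end Pool.Agent.Lib.MP_17a322_nt.FU
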