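import Pool.Agent.Lib.MP_17a322_nt.VN.F1

/-!
Fields of germs: algebraic closedness, maps, embeddings.
-/

universe u

namespace Pool.Agent.Lib.MP_17a322_nt.FU

open MvPolynomial Filter
open Pool.Agent.Lib.MP_17a322_nt.VN

/-- Embeddings of finitely generated fields in algebraically closed fields, with prescribed images of
a transcendence basis. -/
theorem U_embed {k Ω M : Type*} [Field k] [Field Ω] [Field M] [Algebra k Ω] [Algebra k M]
    [IsAlgClosed M] {ι : Type*} (y : ι → Ω) (T : Set ι)
    (hT : AlgebraicIndependent k fun τ : T => y τ)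
    (ha : ∀ i, IsAlgebraic (IntermediateField.adjoin k (y '' T)) (y i)) (S : T → M)
    (hS : AlgebraicIndependent k S) :
    ∃ z : ι → M, (∀ f : MvPolynomial ι k, aeval y f = 0 → aeval z f = 0) ∧ ∀ τ : T, z τ = S τ := by
  have hr : y '' T = Set.range (fun τ : T => y τ) := Set.image_eq_range _ _
  rw [hr] at ha
  obtain ⟨φ, hφ⟩ : ∃ φ : IntermediateField.adjoin k (Set.range fun τ : T => y τ) →ₐ[k] M,
      ∀ τ : T, φ ⟨y τ, IntermediateField.subset_adjoin k _ ⟨τ, rfl⟩⟩ = S τ := by
    refine ⟨(IntermediateField.val _).comp (hS.aevalEquivField.toAlgHom.comp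
      hT.aevalEquivField.symm.toAlgHom), fun τ => ?_⟩
    have h1 : hT.aevalEquivField.symm ⟨y τ, IntermediateField.subset_adjoin k _ ⟨τ, rfl⟩⟩ =
        algebraMap _ _ (X τ : MvPolynomial T k) := by
      rw [AlgEquiv.symm_apply_eq]
      refine Subtype.ext ?_
      rw [hT.aevalEquivField_algebraMap_apply_coe, aeval_X]
    show ((hS.aevalEquivField (hT.aevalEquivField.symm _) : IntermediateField.adjoin k
      (Set.range S)) : M) = S τ
    rw [h1, hS.aevalEquivField_algebraMap_apply_coe, aeval_X]
  let _ : Algebra (IntermediateField.adjoin k (Set.range fun τ : T => y τ)) M :=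
    φ.toRingHom.toAlgebra
  have i1 : IsScalarTower k (IntermediateField.adjoin k (Set.range fun τ : T => y τ)) M :=
    IsScalarTower.of_algebraMap_eq fun c => (φ.commutes c).symm
  have i2 : Algebra.IsAlgebraic (IntermediateField.adjoin k (Set.range fun τ : T => y τ))
      (IntermediateField.adjoin (IntermediateField.adjoin k (Set.range fun τ : T => y τ))
        (Set.range y)) := by
    refine IntermediateField.isAlgebraic_adjoin ?_
    rintro _ ⟨p, rfl⟩
    exact (ha p).isIntegral
  obtain ⟨ψ, hψ⟩ : ∃ ψ : (IntermediateField.adjoin (IntermediateField.adjoin k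
      (Set.range fun τ : T => y τ)) (Set.range y)) →ₐ[IntermediateField.adjoin k
        (Set.range fun τ : T => y τ)] M, True := ⟨IsAlgClosed.lift, trivial⟩
  obtain ⟨ψk, hψk⟩ : ∃ ψk : (IntermediateField.adjoin (IntermediateField.adjoin k
      (Set.range fun τ : T => y τ)) (Set.range y)) →ₐ[k] M, ∀ x, ψk x = ψ x :=
    ⟨ψ.restrictScalars k, fun _ => rfl⟩
  obtain ⟨y', hy'⟩ : ∃ y' : ι → (IntermediateField.adjoin (IntermediateField.adjoin k
      (Set.range fun τ : T => y τ)) (Set.range y)), ∀ i, (y' i : Ω) = y i :=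
    ⟨fun i => ⟨y i, IntermediateField.subset_adjoin _ _ ⟨i, rfl⟩⟩, fun _ => rfl⟩
  refine ⟨fun i => ψk (y' i), fun f hf => ?_, fun τ => ?_⟩
  · have h1 : aeval y' f = 0 := by
      obtain ⟨v, hv⟩ : ∃ v : (IntermediateField.adjoin (IntermediateField.adjoin k
          (Set.range fun τ : T => y τ)) (Set.range y)) →ₐ[k] Ω, ∀ x, v x = (x : Ω) :=
        ⟨(IntermediateField.val _).restrictScalars k, fun _ => rfl⟩
      have h2 : v (aeval y' f) = 0 := by
        rw [comp_aeval_apply]
        have h3 : (fun i => v (y' i)) = y := funext fun i => by rw [hv, hy']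
        rw [h3, hf]
      exact v.injective (h2.trans (map_zero v).symm)
    have h2 : aeval (fun i => ψk (y' i)) f = ψk (aeval y' f) := by
      rw [comp_aeval_apply]
    rw [h2, h1, map_zero]
  · show ψk (y' τ) = S τ
    rw [hψk]
    have h1 : y' (τ : ι) = algebraMap (IntermediateField.adjoin k (Set.range fun τ : T => y τ)) _
        ⟨y τ, IntermediateField.subset_adjoin k _ ⟨τ, rfl⟩⟩ := Subtype.ext (by
      rw [hy']
      rfl)
    rw [h1, ψ.commutes]
    exact hφ τ

/-- Fields of germs over algebraically closed fields are algebraically closed. -/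
theorem GK_algClosed (F : Type*) [Field F] [IsAlgClosed F] : IsAlgClosed (GK F) := by
  refine IsAlgClosed.of_exists_root (GK F) fun p hp hirr => ?_
  obtain ⟨D, hD⟩ : ∃ D, D = p.natDegree := ⟨_, rfl⟩
  have hD0 : 0 < D := by
    rw [hD]
    exact hirr.natDegree_pos
  choose γ hγ using fun j => exists_gm (p.coeff j)
  obtain ⟨q, hq⟩ : ∃ q : ℕ → Polynomial F, ∀ i, q i =
      Polynomial.X ^ D + ∑ j ∈ Finset.range D, Polynomial.C (γ j i) * Polynomial.X ^ j :=
    ⟨_, fun _ => rfl⟩
  have hdeg : ∀ i, (q i).degree = D := by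
    intro i
    rw [hq, Polynomial.degree_add_eq_left_of_degree_lt, Polynomial.degree_X_pow]
    rw [Polynomial.degree_X_pow, Polynomial.degree_lt_iff_coeff_zero]
    intro m hm
    rw [Polynomial.finsetSum_coeff]
    refine Finset.sum_eq_zero fun j hj => ?_
    rw [Polynomial.coeff_C_mul_X_pow, if_neg]
    have := Finset.mem_range.1 hj
    omega
  have hroot : ∀ i, ∃ x : F, (q i).eval x = 0 := by
    intro i
    refine IsAlgClosed.exists_root (q i) ?_
    rw [hdeg]
    exact_mod_cast hD0.ne'
  choose x hx using hroot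
  refine ⟨gm x, ?_⟩
  have h1 : p = Polynomial.X ^ D + ∑ j ∈ Finset.range D, Polynomial.C (p.coeff j) *
      Polynomial.X ^ j := by
    conv_lhs => rw [hp.as_sum]
    rw [← hD]
  rw [h1, Polynomial.eval_add, Polynomial.eval_pow, Polynomial.eval_X,
    Polynomial.eval_finsetSum]
  simp only [Polynomial.eval_mul, Polynomial.eval_C, Polynomial.eval_pow, Polynomial.eval_X]
  have h2 : gm (fun i => (q i).eval (x i)) = gm x ^ D +
      ∑ j ∈ Finset.range D, p.coeff j * gm x ^ j := by
    have h3 : (fun i => (q i).eval (x i)) = fun i => x i ^ D +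
        ∑ j ∈ Finset.range D, γ j i * x i ^ j := by
      funext i
      rw [hq, Polynomial.eval_add, Polynomial.eval_pow, Polynomial.eval_X,
        Polynomial.eval_finsetSum]
      simp only [Polynomial.eval_mul, Polynomial.eval_C, Polynomial.eval_pow, Polynomial.eval_X]
    obtain ⟨θ, hθ⟩ : ∃ θ : (ℕ → F) →+* GK F, ∀ a, θ a = gm a :=
      ⟨Filter.Germ.coeRingHom (hyperfilter ℕ : Filter ℕ), fun _ => rfl⟩
    have h4 : (fun i => x i ^ D + ∑ j ∈ Finset.range D, γ j i * x i ^ j) =
        x ^ D + ∑ j ∈ Finset.range D, γ j * x ^ j := by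
      funext i
      simp only [Pi.add_apply, Pi.pow_apply, Finset.sum_apply, Pi.mul_apply]
    rw [h3, h4, ← hθ, map_add, map_sum]
    have h5 : ∀ j, θ (γ j * x ^ j) = p.coeff j * gm x ^ j := fun j => by
      rw [map_mul, map_pow, hθ, hθ, hγ]
    simp only [h5]
    rw [map_pow, hθ]
  rw [← h2, gm_eq_zero_iff]
  exact Eventually.of_forall hx

end Pool.Agent.Lib.MP_17a322_nt.FU
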