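import Pool.Agent.Lib.MP_17a322_nt.FU.A1
import Pool.Agent.Lib.MP_17a322_nt.FU.Defs
import Pool.Agent.Lib.MP_17a322_nt.FU.T1
import Pool.Agent.Lib.MP_17a322_nt.FU.T2
import Pool.Agent.Lib.MP_17a322_nt.SL.Geo
import Pool.Agent.Lib.MP_17a322_nt.VP.I1

/-!
A special translate over `k0` comes from special translates for almost all members of a sequence.
-/

universe u

namespace Pool.Agent.Lib.MP_17a322_nt.FU

open MvPolynomial Height Filter
open Pool.Agent.Lib.MP_17a322_nt.RO
open Pool.Agent.Lib.MP_17a322_nt.VJ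
open Pool.Agent.Lib.MP_17a322_nt.VN hiding lf
open Pool.Agent.Lib.MP_17a322_nt.VA
open Pool.Agent.Lib.MP_17a322_nt.VP
open Pool.Agent.Lib.MP_17a322_nt.SL

section

variable {K : Type u} [Field K] {N M : ℕ} (A : AV K N)

/-- The value of `f` at the vector of the sum of `x` and `y` (times the coordinate `c` of the
difference). -/
noncomputable def U_E {R : Type*} [CommRing R] [Algebra K R] (x y : Fin (N + 1) → R)
    (t : Fin (M + 1) → R) (c : Fin (N + 1)) (f : MvPolynomial (Fin (N + 1) ⊕ Fin (M + 1)) K) : R :=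
  aeval (Sum.elim (fun a => aeval (Sum.elim x y) (A.S a c)) t) f

theorem U_E_map {R R' : Type*} [CommRing R] [Algebra K R] [CommRing R'] [Algebra K R']
    (φ : R →ₐ[K] R') (x y : Fin (N + 1) → R) (t : Fin (M + 1) → R) (c : Fin (N + 1))
    (f : MvPolynomial (Fin (N + 1) ⊕ Fin (M + 1)) K) :
    φ (U_E A x y t c f) = U_E A (fun i => φ (x i)) (fun i => φ (y i)) (fun l => φ (t l)) c f := by
  unfold U_E
  rw [comp_aeval_apply]
  congr 2
  funext i
  rcases i with a | l
  · rw [Sum.elim_inl, Sum.elim_inl, comp_aeval_apply]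
    congr 2
    funext i
    rcases i with i | i <;> rfl
  · rfl

theorem U_E_smul {D D' : ℕ} {f : MvPolynomial (Fin (N + 1) ⊕ Fin (M + 1)) K}
    (hf : ∀ μ ∈ f.support, ∑ i, μ (Sum.inl i) = D ∧ ∑ l, μ (Sum.inr l) = D') {R : Type*}
    [CommRing R] [Algebra K R] (a b : R) (x y : Fin (N + 1) → R) (t : Fin (M + 1) → R)
    (c : Fin (N + 1)) :
    U_E A (fun i => a * x i) y (fun l => b * t l) c f = (a ^ 2) ^ D * b ^ D' * U_E A x y t c f := by
  unfold U_E
  have h1 : ∀ a', aeval (Sum.elim (fun i => a * x i) y) (A.S a' c) =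
      a ^ 2 * aeval (Sum.elim x y) (A.S a' c) := by
    intro a'
    have h2 := A.S_smul a' c a 1 x y
    simp only [one_mul, one_pow, mul_one] at h2
    exact h2
  simp only [h1]
  exact U_smul hf _ _ _ _

end

section

variable {K F : Type u} [Field K] [Field F] [Algebra K F]

/-- Values of polynomials over `K` at germs. -/
theorem U_gvalK {σ : Type*} [Algebra K (GK F)]
    (hK : ∀ c, algebraMap K (GK F) c = gm fun _ => algebraMap K F c)
    (x : σ → ℕ → F) (f : MvPolynomial σ K) :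
    aeval (fun s => gm (x s)) f = gm fun i => aeval (fun s => x s i) f := by
  obtain ⟨Θ, hΘ⟩ : ∃ Θ : (ℕ → F) →ₐ[K] GK F, ∀ a, Θ a = gm a :=
    ⟨{ gR F with commutes' := fun c => (hK c).symm }, fun _ => rfl⟩
  have h1 : Θ (aeval x f) = aeval (fun s => gm (x s)) f := by
    rw [comp_aeval_apply]
    simp only [hΘ]
  rw [← h1, hΘ]
  refine congrArg gm (funext fun i => ?_)
  have h2 := comp_aeval_apply (Pi.evalAlgHom K (fun _ : ℕ => F) i) (f := x) f
  exact h2

end

section

variable {K : Type u} [Field K] [NumberField K] {N M : ℕ} {A B : AV K N} {hB : IsSubAV B A}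
  {k : IntermediateField K (GK K)} {P : ℕ → A.Pts K} {W : ℕ → A.Pts K} {w : A.Pts k}
  {w' : A.Pts (GK K)} {Q : ℕ → B.Pts K} {b : B.Pts (GK K)} {n : ℕ}

theorem X_bad_aux (hw : A.Img k.val w w') (hW : IsGerm A W w')
    (hPW : ∀ᶠ i in (hyperfilter ℕ : Filter ℕ), P i = W i + hB.inc K (Q i)) (hn : B.dimIs n)
    {D D' r : ℕ}
    (g : Fin r → MvPolynomial (Fin (N + 1) ⊕ Fin (M + 1)) K)
    (hg : ∀ j, ∀ μ ∈ (g j).support, ∑ i, μ (Sum.inl i) = D ∧ ∑ l, μ (Sum.inr l) = D')
    (t : ℕ → Fin (M + 1) → K) (T : Fin (M + 1) → k) (c : GK K)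
    (hT : ∀ l, gm (fun i => t i l) = c * (T l : GK K)) (Ω : Type u) [Field Ω] [Algebra K Ω]
    [Algebra k Ω] [IsScalarTower K k Ω] (q : B.Pts Ω)
    (hq : ∀ j, aeval (Sum.elim
      (A.x (A.img (IsScalarTower.toAlgHom K k Ω) w + hB.inc Ω q))
      fun l => algebraMap k Ω (T l)) (g j) = 0)
    (T₀ : Set (Fin (N + 1) × Fin (N + 1)))
    (hT₀ : AlgebraicIndependent k fun τ : T₀ => rt (B.x q) τ)
    (hTa : ∀ i, IsAlgebraic (IntermediateField.adjoin k (rt (B.x q) '' T₀))
      (rt (B.x q) i)) (hTc : (n : Cardinal.{u}) ≤ (Nat.card T₀ : Cardinal.{u}) + 1)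
    (F : Type u) [Field F] [Algebra K F] [IsAlgClosed F] (s : T₀ → F)
    (hs : AlgebraicIndependent K s) :
    ∀ᶠ i in (hyperfilter ℕ : Filter ℕ), Bad hB (P i) (t i) g := by
  classical
  let _ : Algebra K (GK F) := ((gmap K F).comp (algebraMap K (GK K))).toAlgebra
  let _ : Algebra k (GK F) :=
    ((gmap K F).comp (algebraMap k (GK K))).toAlgebra
  have i1 : @IsScalarTower K k (GK F) Algebra.toSMul Algebra.toSMul Algebra.toSMul :=
    IsScalarTower.of_algebraMap_eq fun _ => rfl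
  have i2 : IsAlgClosed (GK F) := GK_algClosed F
  have hKF : ∀ c : K, algebraMap K (GK F) c = gm fun _ => algebraMap K F c := fun _ => rfl
  obtain ⟨c₀, hc₀⟩ := B.exists_x_ne q
  obtain ⟨z, hz, hzT⟩ := U_embed (k := k) (M := GK F) (rt (B.x q)) T₀ hT₀ hTa
    (fun τ => gm fun _ => s τ) (U_indep hs (algebraMap k (GK K)) fun _ => rfl)
  choose ζ hζ using fun i => exists_gm (z (i, c₀))
  -- the relations
  have hrel : ∀ a b' : Fin (N + 1), B.x q b' ≠ 0 → z (a, b') * z (b', c₀) = z (a, c₀) := by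
    intro a b' hb'
    have h1 := hz (X (a, b') * X (b', c₀) - X (a, c₀)) (by
      rw [map_sub, map_mul, aeval_X, aeval_X, aeval_X]
      unfold rt
      rw [div_mul_div_cancel₀ hb', sub_self])
    rw [map_sub, map_mul, aeval_X, aeval_X, aeval_X] at h1
    exact sub_eq_zero.1 h1
  have h11 : z (c₀, c₀) = 1 := by
    have h1 := hz (X (c₀, c₀) - 1) (by
      rw [map_sub, aeval_X, map_one]
      unfold rt
      rw [div_self hc₀, sub_self])
    rw [map_sub, aeval_X, map_one] at h1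
    exact sub_eq_zero.1 h1
  have hne : ∀ b' : Fin (N + 1), B.x q b' ≠ 0 → z (b', c₀) ≠ 0 := by
    intro b' hb' h0
    have h1 := hrel c₀ b' hb'
    rw [h0, mul_zero, h11] at h1
    exact zero_ne_one h1
  -- the equations of `B`
  have hzB : ∀ f ∈ B.I, aeval (fun i => z (i, c₀)) f = 0 := by
    intro f hf
    have h1 := hz (rename (fun i => (i, c₀)) (MvPolynomial.map (algebraMap K k) f)) (by
      rw [aeval_rename, aeval_map_algebraMap]
      have h2 := ((AV.Rep.self q).smul (inv_ne_zero hc₀)).isPt f hf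
      have h3 : (rt (B.x q) ∘ fun i => (i, c₀)) = fun i => (B.x q c₀)⁻¹ * B.x q i :=
        funext fun i => div_eq_inv_mul _ _
      rw [h3]
      exact h2)
    rw [aeval_rename, aeval_map_algebraMap] at h1
    exact h1
  -- the equations `g`
  have hzg : ∀ j c', U_E A (fun i => algebraMap k (GK F) (A.x w i))
      (fun i => z (i, c₀)) (fun l => algebraMap k (GK F) (T l)) c' (g j) = 0 := by
    intro j c'
    have h1 := hz (rename (fun i => (i, c₀)) (U_G A (A.x w) T c' (g j))) (by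
      rw [aeval_rename]
      have h3 : (rt (B.x q) ∘ fun i => (i, c₀)) = fun i => (B.x q c₀)⁻¹ * B.x q i :=
        funext fun i => div_eq_inv_mul _ _
      rw [h3, U_G_aeval]
      have h4 : A.Rep (hB.inc Ω q) fun i => (B.x q c₀)⁻¹ * B.x q i :=
        (AV.Rep.self (A := A) (hB.inc Ω q)).smul (inv_ne_zero hc₀)
      have h5 : A.Rep (A.img (IsScalarTower.toAlgHom K k Ω) w)
          fun i => algebraMap k Ω (A.x w i) := A.img_rep _ w
      obtain ⟨e', -, h6⟩ := U_at A (hg j) h5 h4 (fun l => algebraMap k Ω (T l)) c'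
      rw [hq j, mul_zero] at h6
      exact h6)
    rw [aeval_rename, U_G_aeval] at h1
    exact h1
  -- germs: the equations of `B`
  have e1 : ∀ᶠ i in (hyperfilter ℕ : Filter ℕ), ∀ f ∈ B.I, aeval (fun a => ζ a i) f = 0 := by
    obtain ⟨S, hS⟩ : B.I.FG := IsNoetherian.noetherian B.I
    have h1 : ∀ f ∈ S, ∀ᶠ i in (hyperfilter ℕ : Filter ℕ), aeval (fun a => ζ a i) f = 0 := by
      intro f hf
      have h2 := hzB f (by
        rw [← hS]
        exact Ideal.subset_span hf)
      have h3 : (fun i => z (i, c₀)) = fun i => gm (ζ i) := funext fun i => (hζ i).symm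
      rw [h3, U_gvalK hKF, gm_eq_zero_iff] at h2
      exact h2
    filter_upwards [(eventually_all_finset S).2 h1] with i hi f hf
    have h2 : B.I ≤ RingHom.ker (aeval (fun a => ζ a i) : MvPolynomial (Fin (N + 1)) K →ₐ[K] F) := by
      rw [← hS]
      exact Ideal.span_le.2 fun f hf => hi f hf
    exact h2 hf
  have e2 : ∀ᶠ i in (hyperfilter ℕ : Filter ℕ), ζ c₀ i = 1 := by
    have h1 : gm (ζ c₀) = gm fun _ => (1 : F) := (hζ c₀).trans h11
    exact gm_eq_iff.1 h1
  have e3 : ∀ τ : T₀, ∀ᶠ i in (hyperfilter ℕ : Filter ℕ),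
      ζ τ.1.1 i / ζ τ.1.2 i = s τ := by
    intro τ
    have h0 : B.x q τ.1.2 ≠ 0 := by
      have h1 : rt (B.x q) τ ≠ 0 := hT₀.ne_zero τ
      unfold rt at h1
      exact (div_ne_zero_iff.1 h1).2
    have h1 := hrel τ.1.1 τ.1.2 h0
    have h2 : z (τ.1.1, τ.1.2) = gm fun _ => s τ := hzT τ
    have h3 := hne _ h0
    rw [h2, ← hζ, ← hζ, ← gm_mul, gm_eq_iff] at h1
    rw [← hζ, gm_ne_zero_iff] at h3
    filter_upwards [h1, h3] with i g1 g2
    rw [div_eq_iff g2, ← g1]
  have e4 : ∀ j c', ∀ᶠ i in (hyperfilter ℕ : Filter ℕ),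
      U_E A (fun b => algebraMap K F (A.x (W i) b)) (fun b => ζ b i)
        (fun l => algebraMap K F (t i l)) c' (g j) = 0 := by
    intro j c'
    obtain ⟨Θ, hΘ⟩ : ∃ Θ : (ℕ → F) →ₐ[K] GK F, ∀ a, Θ a = gm a :=
      ⟨{ gR F with commutes' := fun c => rfl }, fun _ => rfl⟩
    have h1 := U_E_map A Θ (fun b i => algebraMap K F (A.x (W i) b)) ζ
      (fun l i => algebraMap K F (t i l)) c' (g j)
    obtain ⟨c₁, hc₁, hx₁⟩ := hW
    obtain ⟨c₂, hc₂, hx₂⟩ := hw
    have h2 : (fun b => Θ fun i => algebraMap K F (A.x (W i) b)) = fun b =>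
        gmap K F (c₁ * c₂⁻¹) * algebraMap k (GK F) (A.x w b) := by
      funext b'
      rw [hΘ]
      show gm (fun i => algebraMap K F (A.x (W i) b')) =
        gmap K F (c₁ * c₂⁻¹) * gmap K F ((A.x w b' : k) : GK K)
      rw [← gmap_gm, hx₁, ← map_mul]
      congr 1
      have h3 : ((A.x w b' : k) : GK K) = c₂ * A.x w' b' := hx₂ b'
      rw [h3]
      field_simp
    have h3 : (fun l => Θ fun i => algebraMap K F (t i l)) = fun l =>
        gmap K F c * algebraMap k (GK F) (T l) := by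
      funext l
      rw [hΘ]
      show gm (fun i => algebraMap K F (t i l)) = gmap K F c * gmap K F (T l : GK K)
      rw [← gmap_gm, hT, ← map_mul]
    have h4 : (fun i => Θ (ζ i)) = fun i => z (i, c₀) := by
      funext i
      rw [hΘ, hζ]
    rw [h2, h3, h4, U_E_smul A (hg j), hzg, mul_zero, hΘ, gm_eq_zero_iff] at h1
    filter_upwards [h1] with i hi
    have h5 := U_E_map A (Pi.evalAlgHom K (fun _ : ℕ => F) i)
      (fun b i => algebraMap K F (A.x (W i) b)) ζ (fun l i => algebraMap K F (t i l)) c' (g j)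
    exact h5.symm.trans hi
  have e3' := eventually_all.2 e3
  have e4' := eventually_all.2 fun j => eventually_all.2 (e4 j)
  filter_upwards [e1, e2, e3', e4', hPW] with i g1 g2 g3 g4 g5
  obtain ⟨y, hy⟩ : ∃ y : Fin (N + 1) → F, y = fun a => ζ a i := ⟨_, rfl⟩
  have hy0 : y ≠ 0 := by
    intro h0
    have h1 := congrFun h0 c₀
    rw [hy] at h1
    exact one_ne_zero (g2.symm.trans h1)
  have hyB : B.IsPt y := by
    rw [hy]
    exact g1
  obtain ⟨β, hβ⟩ := AV.exists_rep hy0 hyB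
  have hsum : A.img (Algebra.ofId K F) (P i) + hB.inc F (β - B.img (Algebra.ofId K F) (Q i)) =
      A.img (Algebra.ofId K F) (W i) + hB.inc F β := by
    have h1 : A.img (Algebra.ofId K F) (hB.inc K (Q i)) =
        hB.inc F (B.img (Algebra.ofId K F) (Q i)) :=
      (AV.img_eq_iff _).2 (Z_inc_img hB (Z_img_img _ (Q i)))
    rw [g5, AV.img_add, h1, map_sub]
    abel
  refine ⟨F, inferInstance, inferInstance, β - B.img (Algebra.ofId K F) (Q i), ?_, ?_⟩
  · intro j
    rw [hsum]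
    obtain ⟨c', hc'⟩ := A.exists_x_ne (A.img (Algebra.ofId K F) (W i) - hB.inc F β)
    have h1 : A.Rep (A.img (Algebra.ofId K F) (W i)) fun b => algebraMap K F (A.x (W i) b) :=
      A.img_rep (Algebra.ofId K F) (W i)
    have h2 : A.Rep (hB.inc F β) y := hβ
    obtain ⟨e', he', h3⟩ := U_at A (hg j) h1 h2 (fun l => algebraMap K F (t i l)) c'
    have h4 := g4 j c'
    rw [hy] at h3
    exact (mul_eq_zero.1 (h3.symm.trans h4)).resolve_left (pow_ne_zero _ (he'.2 hc'))
  · intro L' _ _ q'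
    have h1 : tdeg K (B.x q') ≤ n := hn.1 L' q'
    have h2 : (Nat.card T₀ : Cardinal.{u}) ≤ tdeg K (B.x β) := by
      refine (Z_card_le_tdeg (K := K) (B.x β) s hs fun τ => ?_).2
      have h3 : s τ = rt (B.x β) τ := by
        obtain ⟨c₁, hc₁, hx₁⟩ := hβ
        rw [← g3 τ]
        have h4 : ∀ a, ζ a i = c₁ * B.x β a := fun a => by
          rw [← hx₁, hy]
        rw [h4, h4]
        unfold rt
        rw [mul_div_mul_left _ _ hc₁]
      rw [h3]
      exact isAlgebraic_algebraMap (⟨_, rt_self_mem K (B.x β) τ⟩ :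
        IntermediateField.adjoin K (Set.range (rt (B.x β))))
    have h3 : tdeg K (B.x β) ≤ tdeg K (B.x (β - B.img (Algebra.ofId K F) (Q i))) := by
      have h4 := tdeg_shift (k := K) (β - B.img (Algebra.ofId K F) (Q i)) (-(Q i))
      have h5 : β - B.img (Algebra.ofId K F) (Q i) - B.img (Algebra.ofId K F) (-(Q i)) = β := by
        have h6 : B.img (Algebra.ofId K F) (-(Q i)) = - B.img (Algebra.ofId K F) (Q i) :=
          (B.imgHom (Algebra.ofId K F)).map_neg (Q i)
        rw [h6]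
        abel
      rwa [h5] at h4
    exact h1.trans (hTc.trans (add_le_add_left (h2.trans h3) 1))

/-- A special translate over a field `k` of germs comes from special translates for almost all members of the
sequence. -/
theorem X_bad_gen (hw : A.Img k.val w w') (hW : IsGerm A W w')
    (hPW : ∀ᶠ i in (hyperfilter ℕ : Filter ℕ), P i = W i + hB.inc K (Q i)) (hn : B.dimIs n)
    {D D' r : ℕ}
    (g : Fin r → MvPolynomial (Fin (N + 1) ⊕ Fin (M + 1)) K)
    (hg : ∀ j, ∀ μ ∈ (g j).support, ∑ i, μ (Sum.inl i) = D ∧ ∑ l, μ (Sum.inr l) = D')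
    (t : ℕ → Fin (M + 1) → K) (T : Fin (M + 1) → k) (c : GK K)
    (hT : ∀ l, gm (fun i => t i l) = c * (T l : GK K)) (Ω : Type u) [Field Ω] [Algebra K Ω]
    [Algebra k Ω] [IsScalarTower K k Ω] (q : B.Pts Ω)
    (hq : ∀ j, aeval (Sum.elim
      (A.x (A.img (IsScalarTower.toAlgHom K k Ω) w + hB.inc Ω q))
      fun l => algebraMap k Ω (T l)) (g j) = 0)
    (hdim : (n : Cardinal.{u}) ≤ tdeg k (B.x q) + 1) :
    ∀ᶠ i in (hyperfilter ℕ : Filter ℕ), Bad hB (P i) (t i) g := by
  obtain ⟨T₀, hT₀, hTa, hTc⟩ := Z_exists_basis (K := k) (B.x q)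
  rw [hTc] at hdim
  have hs : AlgebraicIndependent K fun τ : T₀ =>
      algebraMap (FractionRing (MvPolynomial T₀ K)) (AlgebraicClosure
        (FractionRing (MvPolynomial T₀ K))) (algebraMap (MvPolynomial T₀ K) _ (X τ)) := by
    have h1 := (MvPolynomial.algebraicIndependent_X T₀ K).map' (f := (Algebra.ofId
      (FractionRing (MvPolynomial T₀ K)) (AlgebraicClosure
        (FractionRing (MvPolynomial T₀ K)))).restrictScalars K |>.comp
        (IsScalarTower.toAlgHom K (MvPolynomial T₀ K) (FractionRing (MvPolynomial T₀ K)))) (by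
      intro a b' h
      exact IsFractionRing.injective (MvPolynomial T₀ K) (FractionRing (MvPolynomial T₀ K))
        ((algebraMap (FractionRing (MvPolynomial T₀ K)) (AlgebraicClosure
          (FractionRing (MvPolynomial T₀ K)))).injective h))
    exact h1
  exact X_bad_aux hw hW hPW hn g hg t T c hT Ω q hq T₀ hT₀ hTa hdim _ _ hs

end

section

variable {K : Type u} [Field K] [NumberField K] {N M : ℕ} {A B : AV K N} {hB : IsSubAV B A}
  {H : ℕ → ℝ} {hH : Tendsto H (hyperfilter ℕ : Filter ℕ) atTop} {P : ℕ → A.Pts K}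
  {p : A.Pts (GK K)} {W : ℕ → A.Pts K} {w : A.Pts (k0 K H hH)} {w' : A.Pts (GK K)}
  {Q : ℕ → B.Pts K} {b : B.Pts (GK K)} {n : ℕ}

/-- A special translate over `k0` comes from special translates for almost all members of the
sequence. -/
theorem X_bad (hA : GeoA hB hH P p W w w' Q b) (hBg : GeoB B hH Q b n) {D D' r : ℕ}
    (g : Fin r → MvPolynomial (Fin (N + 1) ⊕ Fin (M + 1)) K)
    (hg : ∀ j, ∀ μ ∈ (g j).support, ∑ i, μ (Sum.inl i) = D ∧ ∑ l, μ (Sum.inr l) = D')
    (t : ℕ → Fin (M + 1) → K) (T : Fin (M + 1) → k0 K H hH) (c : GK K)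
    (hT : ∀ l, gm (fun i => t i l) = c * (T l : GK K)) (Ω : Type u) [Field Ω] [Algebra K Ω]
    [Algebra (k0 K H hH) Ω] [IsScalarTower K (k0 K H hH) Ω] (q : B.Pts Ω)
    (hq : ∀ j, aeval (Sum.elim
      (A.x (A.img (IsScalarTower.toAlgHom K (k0 K H hH) Ω) w + hB.inc Ω q))
      fun l => algebraMap (k0 K H hH) Ω (T l)) (g j) = 0)
    (hdim : (n : Cardinal.{u}) ≤ tdeg (k0 K H hH) (B.x q) + 1) :
    ∀ᶠ i in (hyperfilter ℕ : Filter ℕ), Bad hB (P i) (t i) g :=
  X_bad_gen hA.img hA.germW hA.relK hBg.dim g hg t T c hT Ω q hq hdim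

end

end Pool.Agent.Lib.MP_17a322_nt.FU
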