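import Pool.Agent.Lib.MP_17a322_nt.FU.A3
import Pool.Agent.Lib.MP_17a322_nt.FU.T3
import Pool.Agent.Lib.MP_17a322_nt.FU.DefsM
import Pool.Agent.Lib.MP_17a322_nt.VP.I1

/-!
The transfer of equations and of special translates for a field `k` of germs.
-/

universe u

namespace Pool.Agent.Lib.MP_17a322_nt.FU

open MvPolynomial Height Filter
open Pool.Agent.Lib.MP_17a322_nt.RO
open Pool.Agent.Lib.MP_17a322_nt.VJ
open Pool.Agent.Lib.MP_17a322_nt.VN hiding lf
open Pool.Agent.Lib.MP_17a322_nt.VA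
open Pool.Agent.Lib.MP_17a322_nt.VP
open Pool.Agent.Lib.MP_17a322_nt.SL

/-- A homogeneous equation over `k` which holds at a generic point over `k` is an equation of the
variety over `k`. -/
theorem M_mem_ENJ {K : Type u} [Field K] [NumberField K] {N : ℕ} {B : AV K N} {n : ℕ}
    (hn : B.dimIs n) {k : Type u} [Field k] [Algebra K k] {Ω : Type u} [Field Ω] [Algebra K Ω]
    [Algebra k Ω] [IsScalarTower K k Ω] (b : B.Pts Ω) (hgen : GenP B k b) {d : ℕ}
    {f : MvPolynomial (Fin (N + 1)) k} (hf : f.IsHomogeneous d) (hfb : aeval (B.x b) f = 0) :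
    f ∈ ENJ B k := by
  classical
  obtain ⟨s, e, nd, κ, hcov⟩ := exists_cover B hn
  obtain ⟨c, hc⟩ := hcov Ω AbsoluteValue.trivial b
  have hl : lf ((nd c).l 0) (B.x b) ≠ 0 := by
    intro h0
    obtain ⟨a, ha⟩ := B.exists_x_ne b
    have h1 := hc a
    rw [h0, map_zero, mul_zero] at h1
    exact ha (((AbsoluteValue.trivial : AbsoluteValue Ω ℝ).eq_zero).1
      (le_antisymm h1 (AbsoluteValue.nonneg _ _)))
  obtain ⟨L, i1, i2, q, hq⟩ := hn.2
  have h1 : (n : Cardinal.{u}) ≤ tdeg k (B.x b) := by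
    rw [← hq]
    exact hgen L q
  exact U_mem_ENJ (nd c) b hl (s_indep (nd c) b hl h1) hf hfb

section

variable {K : Type u} [Field K] [NumberField K] {N M : ℕ} {A B : AV K N} {hB : IsSubAV B A}
  {k : IntermediateField K (GK K)} {P : ℕ → A.Pts K} {p : A.Pts (GK K)} {W : ℕ → A.Pts K}
  {w : A.Pts k} {w' : A.Pts (GK K)} {Q : ℕ → B.Pts K} {b : B.Pts (GK K)}

/-- If an equation over `k` holds at `p`, then it holds on the translate `p + B`. -/
theorem M_germ (hA : GeoK hB k P p W w w' Q b) {D D' : ℕ}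
    {f : MvPolynomial (Fin (N + 1) ⊕ Fin (M + 1)) K}
    (hf : ∀ μ ∈ f.support, ∑ i, μ (Sum.inl i) = D ∧ ∑ l, μ (Sum.inr l) = D')
    (t : Fin (M + 1) → k)
    (h0 : aeval (Sum.elim (A.x p) fun l => (t l : GK K)) f = 0) (c : Fin (N + 1)) :
    U_G A (A.x p) (fun l => (t l : GK K)) c f ∈ ENJ B (GK K) := by
  obtain ⟨n, hn⟩ := Z_exists_dim B
  have htow : @IsScalarTower K k (GK K) Algebra.toSMul Algebra.toSMul Algebra.toSMul :=
    IsScalarTower.of_algebraMap_eq fun _ => rfl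
  -- the equations over `k`
  have hE : ∀ c', U_G A (A.x w) t c' f ∈ ENJ B k := by
    intro c'
    refine M_mem_ENJ hn b hA.gen (U_G_hom A hf _ _ _) ?_
    rw [U_G_aeval]
    have h1 : A.Rep w' fun i => algebraMap k (GK K) (A.x w i) := hA.img
    have h2 : A.Rep (hB.inc (GK K) b) (B.x b) := AV.Rep.self (A := A) (hB.inc (GK K) b)
    obtain ⟨e', -, h3⟩ := U_at A hf h1 h2 (fun l => (t l : GK K)) c'
    rw [← hA.rel, h0, mul_zero] at h3
    exact h3
  -- the generic point of `B`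
  rw [← EN_gp_zero_iff, U_G_aeval]
  obtain ⟨y, hy⟩ : ∃ y, y = ENgp B (GK K) := ⟨_, rfl⟩
  have hyP : B.IsPt y := by
    rw [hy]
    exact EN_gp_isPt B (GK K)
  have hy0 : y ≠ 0 := by
    intro h1
    have h2 : ∀ i, (X i : MvPolynomial (Fin (N + 1)) (GK K)) ∈ ENJ B (GK K) := by
      intro i
      rw [← EN_gp_zero_iff, aeval_X, ← hy, h1, Pi.zero_apply]
    obtain ⟨i, hi⟩ := B.exists_x_ne b
    apply hi
    have h3 := EN_mem (B.x_isPt b) (h2 i)
    rwa [aeval_X] at h3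
  obtain ⟨β, hβ⟩ := AV.exists_rep hy0 hyP
  rw [← hy]
  have hβA : A.Rep (hB.inc _ β) y := hβ
  obtain ⟨pL, hpL⟩ : ∃ z, z = A.img (IsScalarTower.toAlgHom K (GK K) (ENF B (GK K))) p := ⟨_, rfl⟩
  have hpR : A.Rep pL fun i => algebraMap (GK K) (ENF B (GK K)) (A.x p i) := by
    rw [hpL]
    exact A.img_rep _ p
  obtain ⟨wL, hwL⟩ : ∃ z, z = A.img (IsScalarTower.toAlgHom K (GK K) (ENF B (GK K))) w' :=
    ⟨_, rfl⟩
  obtain ⟨bL, hbL⟩ : ∃ z, z = B.img (IsScalarTower.toAlgHom K (GK K) (ENF B (GK K))) b :=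
    ⟨_, rfl⟩
  have hsum : pL + hB.inc _ β = wL + hB.inc _ (bL + β) := by
    have h1 : A.img (IsScalarTower.toAlgHom K (GK K) (ENF B (GK K))) (hB.inc (GK K) b) =
        hB.inc _ bL := by
      refine (AV.img_eq_iff _).2 ?_
      rw [hbL]
      exact Z_inc_img hB (Z_img_img _ b)
    rw [hpL, hA.rel, AV.img_add, h1, map_add, hwL]
    abel
  obtain ⟨c', hc'⟩ := A.exists_x_ne (wL - hB.inc _ (bL + β))
  let _ : Algebra k (ENF B (GK K)) :=
    ((algebraMap (GK K) (ENF B (GK K))).comp (algebraMap k (GK K))).toAlgebra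
  have htow2 : @IsScalarTower K k (ENF B (GK K)) Algebra.toSMul Algebra.toSMul Algebra.toSMul :=
    IsScalarTower.of_algebraMap_eq fun c => IsScalarTower.algebraMap_apply K (GK K) _ c
  have hwR : A.Rep wL fun i => algebraMap k (ENF B (GK K)) (A.x w i) := by
    have h1 : A.Rep w' fun i => algebraMap k (GK K) (A.x w i) := hA.img
    rw [hwL]
    exact h1.img _
  obtain ⟨e', he', h3⟩ := U_at A hf hwR
    (AV.Rep.self (A := A) (hB.inc (ENF B (GK K)) (bL + β)))
    (fun l => algebraMap k (ENF B (GK K)) (t l)) c'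
  have h4 := EN_mem (B.x_isPt (bL + β)) (hE c')
  rw [U_G_aeval] at h4
  have h5 : aeval (Sum.elim (A.x (pL + hB.inc _ β))
      fun l => algebraMap k (ENF B (GK K)) (t l)) f = 0 := by
    have h6 := h3.symm.trans h4
    rw [← hsum] at h6
    exact (mul_eq_zero.1 h6).resolve_left (pow_ne_zero _ (he'.2 hc'))
  obtain ⟨e'', -, h7⟩ := U_at A hf hpR hβA
    (fun l => algebraMap k (ENF B (GK K)) (t l)) c
  rw [h5, mul_zero] at h7
  exact h7

theorem M_index (hA : GeoK hB k P p W w w' Q b) {D D' : ℕ}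
    {f : MvPolynomial (Fin (N + 1) ⊕ Fin (M + 1)) K}
    (hf : ∀ μ ∈ f.support, ∑ i, μ (Sum.inl i) = D ∧ ∑ l, μ (Sum.inr l) = D')
    (t : ℕ → Fin (M + 1) → K) (l₀ : Fin (M + 1))
    (ht0 : ∀ᶠ i in (hyperfilter ℕ : Filter ℕ), t i l₀ ≠ 0)
    (hts : ∀ l, gm (fun i => t i l / t i l₀) ∈ k)
    (h0 : ∀ᶠ i in (hyperfilter ℕ : Filter ℕ), aeval (Sum.elim (A.x (P i)) (t i)) f = 0) :
    ∀ᶠ i in (hyperfilter ℕ : Filter ℕ), Tr hB (P i) (t i) f := by
  obtain ⟨T, hT⟩ : ∃ T : Fin (M + 1) → k,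
      ∀ l, (T l : GK K) = gm (fun i => t i l / t i l₀) := ⟨fun l => ⟨_, hts l⟩, fun _ => rfl⟩
  obtain ⟨a, ha⟩ : ∃ a : GK K, a = gm fun i => t i l₀ := ⟨_, rfl⟩
  have ha0 : a ≠ 0 := by
    rw [ha, gm_ne_zero_iff]
    exact ht0
  have hTa : ∀ l, gm (fun i => t i l) = a * (T l : GK K) := by
    intro l
    rw [hT, ha, ← gm_mul, gm_eq_iff]
    filter_upwards [ht0] with i hi
    rw [mul_div_cancel₀ _ hi]
  obtain ⟨c₀, hc₀, hx⟩ := hA.germP
  have h1 : aeval (Sum.elim (A.x p) fun l => (T l : GK K)) f = 0 := by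
    have h2 := Z_aeval_gm (fun (s : Fin (N + 1) ⊕ Fin (M + 1)) (i : ℕ) =>
      Sum.elim (A.x (P i)) (t i) s) f
    have h3 : (fun s : Fin (N + 1) ⊕ Fin (M + 1) => gm fun i => Sum.elim (A.x (P i)) (t i) s) =
        Sum.elim (fun i => c₀ * A.x p i) fun l => a * (T l : GK K) := by
      funext s
      rcases s with s | s
      · exact hx s
      · exact hTa s
    rw [h3, U_smul hf] at h2
    have h4 : gm (fun i => aeval (fun s => Sum.elim (A.x (P i)) (t i) s) f) = 0 :=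
      gm_eq_zero_iff.2 h0
    rw [h4] at h2
    exact (mul_eq_zero.1 h2).resolve_left (mul_ne_zero (pow_ne_zero _ hc₀) (pow_ne_zero _ ha0))
  have h2 := M_germ hA hf T h1
  have h3 : ∀ c, ∀ᶠ i in (hyperfilter ℕ : Filter ℕ), U_G A (A.x (P i)) (t i) c f ∈ B.I := by
    intro c
    obtain ⟨γ, hγ⟩ : ∃ γ : (ℕ → K) →ₐ[K] GK K, ∀ x, γ x = gm x :=
      ⟨{ Filter.Germ.coeRingHom (hyperfilter ℕ : Filter ℕ) with commutes' := fun _ => rfl },
        fun _ => rfl⟩
    have h4 : MvPolynomial.map (Filter.Germ.coeRingHom (hyperfilter ℕ : Filter ℕ))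
        (U_G A (fun a => fun i => A.x (P i) a) (fun l => fun i => t i l) c f) ∈
        B.I.map (MvPolynomial.map (algebraMap K (GK K))) := by
      have h5 : MvPolynomial.map (Filter.Germ.coeRingHom (hyperfilter ℕ : Filter ℕ))
          (U_G A (fun a => fun i => A.x (P i) a) (fun l => fun i => t i l) c f) =
          MvPolynomial.map (γ : (ℕ → K) →+* GK K)
          (U_G A (fun a => fun i => A.x (P i) a) (fun l => fun i => t i l) c f) := by
        refine congrArg (fun φ => MvPolynomial.map φ _) (RingHom.ext fun x => ?_)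
        exact (hγ x).symm
      rw [h5, U_G_map]
      have h6 : (fun i => γ fun i' => A.x (P i') i) = fun i => c₀ * A.x p i := by
        funext s
        rw [hγ]
        exact hx s
      have h7 : (fun l => γ fun i' => t i' l) = fun l => a * (T l : GK K) := by
        funext s
        rw [hγ]
        exact hTa s
      rw [h6, h7, U_G_smul A hf]
      exact Ideal.mul_mem_left _ _ (h2 c)
    filter_upwards [U_germ_mem B.I _ h4] with i hi
    have h5 : MvPolynomial.map (Pi.evalRingHom (fun _ : ℕ => K) i)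
        (U_G A (fun a => fun i => A.x (P i) a) (fun l => fun i => t i l) c f) =
        U_G A (A.x (P i)) (t i) c f :=
      U_G_map A _ _ c f (Pi.evalAlgHom K (fun _ : ℕ => K) i)
    rwa [h5] at hi
  filter_upwards [eventually_all.2 h3] with i hi
  exact U_Tr hB hf (P i) (t i) hi

theorem M_bad (hA : GeoK hB k P p W w w' Q b) {n : ℕ} (hn : B.dimIs n) {D D' r : ℕ}
    (g : Fin r → MvPolynomial (Fin (N + 1) ⊕ Fin (M + 1)) K)
    (hg : ∀ j, ∀ μ ∈ (g j).support, ∑ i, μ (Sum.inl i) = D ∧ ∑ l, μ (Sum.inr l) = D')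
    (t : ℕ → Fin (M + 1) → K) (T : Fin (M + 1) → k) (c : GK K)
    (hT : ∀ l, gm (fun i => t i l) = c * (T l : GK K)) (Ω : Type u) [Field Ω] [Algebra K Ω]
    [Algebra k Ω] [IsScalarTower K k Ω] (q : B.Pts Ω)
    (hq : ∀ j, aeval (Sum.elim
      (A.x (A.img (IsScalarTower.toAlgHom K k Ω) w + hB.inc Ω q))
      fun l => algebraMap k Ω (T l)) (g j) = 0)
    (hdim : (n : Cardinal.{u}) ≤ tdeg k (B.x q) + 1) :
    ∀ᶠ i in (hyperfilter ℕ : Filter ℕ), Bad hB (P i) (t i) g :=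
  X_bad_gen hA.img hA.germW hA.relK hn g hg t T c hT Ω q hq hdim

end

end Pool.Agent.Lib.MP_17a322_nt.FU
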