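import Pool.Agent.Lib.MP_17a322_nt.VA.A3b
import Pool.Agent.Lib.MP_17a322_nt.VA.Z11

/-!
The dimension count at the centre, for forms over `k`.
-/

universe u

namespace Pool.Agent.Lib.MP_17a322_nt.FU

open MvPolynomial
open Pool.Agent.Lib.MP_17a322_nt.VN hiding lf
open Pool.Agent.Lib.MP_17a322_nt.VA

theorem X_aeval_smul {K : Type u} [Field K] {N d : ℕ} {Ω : Type u} [Field Ω] [Algebra K Ω]
    {g : MvPolynomial (Fin (N + 1)) K} (hg : g.IsHomogeneous d) (c : Ω) (x : Fin (N + 1) → Ω) :
    aeval (fun i => c * x i) g = c ^ d * aeval x g := by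
  rw [aeval_def, aeval_def, eval₂_eq', eval₂_eq', Finset.mul_sum]
  refine Finset.sum_congr rfl fun m hm => ?_
  have h4 : ∑ i, m i = d := by
    have h5 := hg (mem_support_iff.1 hm)
    rw [← h5, Finsupp.weight_apply, Finsupp.sum_fintype]
    · simp
    · intro i
      simp
  simp_rw [mul_pow]
  rw [Finset.prod_mul_distrib, Finset.prod_pow_eq_pow_sum, h4]
  ring

/-- X1. The dimension count at the centre, over `k` (`Z_centre` of VA/Z11 with `δ = 1`, forms over
`k`, and the conclusion for the point of `B`). -/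
theorem X_centre {K : Type u} [Field K] {N : ℕ} {A B : AV K N} (hB : IsSubAV B A)
    {k F : Type u} [Field k] [Field F] [Algebra K k] [Algebra K F] [Algebra k F]
    [IsScalarTower K k F] {w : A.Pts k} {w' : A.Pts F}
    (hw : A.Img (IsScalarTower.toAlgHom K k F) w w') {P : A.Pts F} {b : B.Pts F}
    (hP : P = w' + hB.inc F b) {n e : ℕ}
    (nd : Noe B n e) (hl : lf (nd.l 0) (B.x b) ≠ 0) (hn0 : 0 < n) (a : Fin (N + 1))
    (ha : A.x P a ≠ 0) {r d : ℕ} (g : Fin r → MvPolynomial (Fin (N + 1)) k)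
    (hg : ∀ j, (g j).IsHomogeneous d)
    (I : Ideal (MvPolynomial ((Fin (N + 1) ⊕ Fin (N + 1)) ⊕ Fin n) k))
    (hI : ∀ p, aeval (Sum.elim (Sum.elim (fun i => A.x P i / A.x P a) (nd.y b)) (nd.s b)) p = 0 →
      p ∈ I)
    (hgI : ∀ j, rename (Sum.inl ∘ Sum.inl) (g j) ∈ I)
    (h : MvPolynomial (Fin n) k) (hh : Irreducible h) (hdvd : ∀ a, rename Sum.inr a ∈ I → h ∣ a) :
    ∃ (Ω : Type u) (_ : Field Ω) (_ : Algebra K Ω) (_ : Algebra k Ω) (_ : IsScalarTower K k Ω)
      (q : B.Pts Ω),
      (∀ j, aeval (A.x (A.img (IsScalarTower.toAlgHom K k Ω) w + hB.inc Ω q)) (g j) = 0) ∧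
      (n : Cardinal.{u}) ≤ tdeg k (B.x q) + 1 := by
  obtain ⟨R, i1, i2, i3, i4, i5, i6, i7, Ω, i8, i9, π, i10, x', t', hx', ht', hIπ, hdvd'⟩ :=
    Z_elim _ _ I hI h hh hdvd
  let _ : Algebra K R := ((algebraMap k R).comp (algebraMap K k)).toAlgebra
  let _ : Algebra K Ω := ((algebraMap k Ω).comp (algebraMap K k)).toAlgebra
  have i11 : IsScalarTower K k R := IsScalarTower.of_algebraMap_eq fun _ => rfl
  have i12 : IsScalarTower K k Ω := IsScalarTower.of_algebraMap_eq fun _ => rfl
  have i13 : IsScalarTower K R F := IsScalarTower.of_algebraMap_eq fun c => by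
    rw [IsScalarTower.algebraMap_apply K k F, IsScalarTower.algebraMap_apply K k R,
      ← IsScalarTower.algebraMap_apply k R F]
  obtain ⟨πK, hπK⟩ : ∃ πK : R →ₐ[K] Ω, ∀ y, πK y = π y := ⟨π.restrictScalars K, fun _ => rfl⟩
  have i14 : IsLocalHom πK.toRingHom := ⟨fun y hy => i10.map_nonunit y (by
    have h1 : π.toRingHom y = πK.toRingHom y := (hπK y).symm
    rw [h1]
    exact hy)⟩
  -- the point `p`
  obtain ⟨p, dp, hdp, hp, hPp⟩ := Z_sp A πK (P := P) (y := fun i => x' (Sum.inl i)) ha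
    (fun i => by
      rw [hx' (Sum.inl i)]
      exact (mul_div_cancel₀ _ ha).symm) (by
      intro h0
      have h1 := congrFun h0 a
      have h2 : x' (Sum.inl a) = 1 := by
        refine IsFractionRing.injective R F ?_
        rw [hx' (Sum.inl a), map_one]
        exact div_self ha
      rw [h2, map_one] at h1
      exact one_ne_zero h1)
  -- the point `q`
  have hly : lf (nd.l 0) (fun i => x' (Sum.inr i)) = 1 := by
    refine IsFractionRing.injective R F ?_
    have h1 := Z_lf_map (IsScalarTower.toAlgHom K R F) (nd.l 0) fun i => x' (Sum.inr i)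
    have h2 : (fun i => (IsScalarTower.toAlgHom K R F) (x' (Sum.inr i))) = nd.y b := by
      funext i
      exact hx' (Sum.inr i)
    rw [h2, Z_lf_y nd hl] at h1
    rw [map_one]
    exact h1.symm
  have hlπ : lf (nd.l 0) (fun i => πK (x' (Sum.inr i))) = 1 := by
    rw [Z_lf_map, hly, map_one]
  obtain ⟨q, dq, hdq, hq, hbq⟩ := Z_sp B πK (P := b) (y := fun i => x' (Sum.inr i)) hl
    (fun i => by
      rw [hx' (Sum.inr i)]
      show _ = lf (nd.l 0) (B.x b) * (B.x b i / lf (nd.l 0) (B.x b))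
      rw [mul_div_cancel₀ _ hl]) (by
      intro h0
      rw [h0] at hlπ
      unfold lf at hlπ
      simp at hlπ)
  -- the Noether coordinates of `q`
  have hsq : ∀ j, nd.s q j = π (t' j) := by
    intro j
    have h1 : lf (nd.l j.succ) (fun i => x' (Sum.inr i)) = t' j := by
      refine IsFractionRing.injective R F ?_
      have h1 := Z_lf_map (IsScalarTower.toAlgHom K R F) (nd.l j.succ) fun i => x' (Sum.inr i)
      have h2 : (fun i => (IsScalarTower.toAlgHom K R F) (x' (Sum.inr i))) = nd.y b := by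
        funext i
        exact hx' (Sum.inr i)
      rw [h2, Z_lf_s] at h1
      rw [ht']
      exact h1.symm
    have h2 : (fun i => πK (x' (Sum.inr i))) = fun i => dq * B.x q i := by
      funext i
      exact hq i
    rw [h2, Z_lf_smul] at hlπ
    have h3 := Z_lf_map πK (nd.l j.succ) fun i => x' (Sum.inr i)
    rw [h2, Z_lf_smul, h1, hπK] at h3
    rw [← h3]
    unfold Noe.s
    have h4 : lf (nd.l 0) (B.x q) ≠ 0 := fun h5 => by
      rw [h5, mul_zero] at hlπ
      exact zero_ne_one hlπ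
    rw [div_eq_iff h4, mul_right_comm, hlπ, one_mul]
  -- the relation
  obtain ⟨wΩ, hwΩ⟩ := Z_exists_img A (IsScalarTower.toAlgHom K k Ω) w
  have hwΩ' : wΩ = A.img (IsScalarTower.toAlgHom K k Ω) w := ((AV.img_eq_iff _).2 hwΩ).symm
  have hsw : IsSp A πK w' wΩ := by
    refine IsSp.of_img A πK (L := k) (IsScalarTower.toAlgHom K k R) (P₀ := w) ?_ ?_
    · have h1 : (IsScalarTower.toAlgHom K R F).comp (IsScalarTower.toAlgHom K k R) =
          IsScalarTower.toAlgHom K k F := by
        refine AlgHom.ext fun c => ?_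
        exact (IsScalarTower.algebraMap_apply k R F c).symm
      rw [h1]
      exact hw
    · have h1 : πK.comp (IsScalarTower.toAlgHom K k R) = IsScalarTower.toAlgHom K k Ω := by
        refine AlgHom.ext fun c => ?_
        rw [AlgHom.comp_apply, hπK]
        exact π.commutes c
      rw [h1]
      exact hwΩ
  have hδp : p = wΩ + hB.inc Ω q := by
    rw [hP] at hPp
    have h2 : IsSp A πK (hB.inc F b) (hB.inc Ω q) := hbq
    exact IsSp.unique A πK hPp (hsw.add_sub A πK h2).1
  -- the transcendence degree over `k`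
  obtain ⟨r₀, hind⟩ := Z_indep_of_dvd (fun j => π (t' j)) h hh hdvd'
  obtain ⟨E, hE⟩ : ∃ E : IntermediateField K Ω, ∀ y, y ∈ E ↔
      y ∈ IntermediateField.adjoin k (Set.range (rt (B.x q))) :=
    ⟨(IntermediateField.adjoin k (Set.range (rt (B.x q)))).restrictScalars K, fun _ => Iff.rfl⟩
  have hsE : ∀ j, nd.s q j ∈ E := Z_s_mem nd E q fun i => (hE _).2
    (IntermediateField.subset_adjoin k _ ⟨i, rfl⟩)
  have htr := (Z_card_le_tdeg (K := k) (B.x q) (fun j : {j : Fin n // j ≠ r₀} => π (t' j)) hind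
    fun j => by
      rw [← hsq]
      exact isAlgebraic_algebraMap (⟨_, (hE _).1 (hsE j)⟩ :
        IntermediateField.adjoin k (Set.range (rt (B.x q))))).2
  refine ⟨Ω, i8, inferInstance, i9, i12, q, ?_, ?_⟩
  · intro j
    have h1 := hIπ _ (hgI j)
    rw [aeval_rename] at h1
    have h2 : ((Sum.elim (fun i => π (x' i)) fun j => π (t' j)) ∘ Sum.inl ∘ Sum.inl :
        Fin (N + 1) → Ω) = fun i => dp * A.x p i := by
      funext i
      rw [← hp]
      exact (hπK _).symm
    rw [h2, X_aeval_smul (hg j)] at h1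
    rw [← hwΩ', ← hδp]
    exact (mul_eq_zero.1 h1).resolve_left (pow_ne_zero _ hdp)
  · have h1 : Nat.card {j : Fin n // j ≠ r₀} = n - 1 := by
      rw [Nat.card_eq_fintype_card, Fintype.card_subtype_compl, Fintype.card_fin,
        Fintype.card_subtype_eq]
    rw [h1] at htr
    have h2 : (n : Cardinal.{u}) = ((n - 1 : ℕ) : Cardinal.{u}) + 1 := by
      exact_mod_cast (by omega : n = n - 1 + 1)
    rw [h2]
    exact add_le_add htr le_rfl

end Pool.Agent.Lib.MP_17a322_nt.FU
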