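import Pool.Agent.Lib.MP_17a322_nt.VA.Z14
import Pool.Agent.Lib.MP_17a322_nt.FU.X1

/-!
No gain in one chart, for forms over `k0`.
-/

universe u

namespace Pool.Agent.Lib.MP_17a322_nt.FU

open MvPolynomial Height Filter
open Pool.Agent.Lib.MP_17a322_nt.RO
open Pool.Agent.Lib.MP_17a322_nt.VJ
open Pool.Agent.Lib.MP_17a322_nt.VN hiding lf
open Pool.Agent.Lib.MP_17a322_nt.VA

theorem X_card {c : Cardinal.{u}} {n : ℕ} (h1 : c + 2 ≤ n) (h2 : (n : Cardinal.{u}) ≤ c + 1) :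
    False := by
  have h3 : c < Cardinal.aleph0 :=
    lt_of_le_of_lt (le_self_add.trans h1) (Cardinal.natCast_lt_aleph0)
  obtain ⟨m, rfl⟩ := Cardinal.lt_aleph0.1 h3
  have g1 : m + 2 ≤ n := by exact_mod_cast h1
  have g2 : n ≤ m + 1 := by exact_mod_cast h2
  omega

section

variable {K : Type u} [Field K] [NumberField K] {N : ℕ} {A B : AV K N} {H : ℕ → ℝ}
  (hH : Tendsto H (hyperfilter ℕ : Filter ℕ) atTop)

/-- The ideal of the centre. -/
noncomputable def Xideal {n e r : ℕ} (nd : Noe B n e)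
    (g : Fin r → MvPolynomial (Fin (N + 1)) (k0 K H hH)) (p : A.Pts (GK K)) (b : B.Pts (GK K))
    (a : Fin (N + 1)) : Ideal (MvPolynomial ((Fin (N + 1) ⊕ Fin (N + 1)) ⊕ Fin n) (k0 K H hH)) :=
  RingHom.ker (aeval (Sum.elim (Sum.elim (fun i => A.x p i / A.x p a) (nd.y b)) (nd.s b)) :
      MvPolynomial _ (k0 K H hH) →ₐ[k0 K H hH] GK K) ⊔
    Ideal.span (Set.range fun j : Fin r => rename (Sum.inl ∘ Sum.inl) (g j))

theorem X_aeval_g {n r : ℕ} (g : Fin r → MvPolynomial (Fin (N + 1)) (k0 K H hH))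
    (x y : Fin (N + 1) → GK K) (t : Fin n → GK K) (j : Fin r) :
    aeval (Sum.elim (Sum.elim x y) t) (rename (Sum.inl ∘ Sum.inl) (g j) :
        MvPolynomial ((Fin (N + 1) ⊕ Fin (N + 1)) ⊕ Fin n) (k0 K H hH)) = aeval x (g j) := by
  rw [aeval_rename]
  rfl

theorem X_mem_ideal {n e r : ℕ} {nd : Noe B n e}
    {g : Fin r → MvPolynomial (Fin (N + 1)) (k0 K H hH)} {p : A.Pts (GK K)} {b : B.Pts (GK K)}
    {a : Fin (N + 1)} {f : MvPolynomial ((Fin (N + 1) ⊕ Fin (N + 1)) ⊕ Fin n) (k0 K H hH)}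
    (hf : f ∈ Xideal hH nd g p b a) :
    ∃ E : Fin r → MvPolynomial ((Fin (N + 1) ⊕ Fin (N + 1)) ⊕ Fin n) (k0 K H hH),
      aeval (Sum.elim (Sum.elim (fun i => A.x p i / A.x p a) (nd.y b)) (nd.s b)) f =
        ∑ j, aeval (Sum.elim (Sum.elim (fun i => A.x p i / A.x p a) (nd.y b)) (nd.s b)) (E j) *
          aeval (fun i => A.x p i / A.x p a) (g j) := by
  obtain ⟨f₁, hf₁, f₂, hf₂, rfl⟩ := Submodule.mem_sup.1 hf
  obtain ⟨E, hE⟩ := Ideal.mem_span_range_iff_exists_fun.1 hf₂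
  refine ⟨E, ?_⟩
  have h1 : aeval (Sum.elim (Sum.elim (fun i => A.x p i / A.x p a) (nd.y b)) (nd.s b)) f₁ = 0 := hf₁
  rw [map_add, h1, zero_add, ← hE, map_sum]
  refine Finset.sum_congr rfl fun j _ => ?_
  rw [map_mul, X_aeval_g]

/-- The gain is at most the gain of a pair of elements of the ideal. -/
theorem X_pair {n e r : ℕ} (nd : Noe B n e) (κ : SC K) {P : ℕ → A.Pts K} {Q : ℕ → B.Pts K}
    {p : A.Pts (GK K)} {b : B.Pts (GK K)} (hPp : IsGerm A P p) (hQb : IsGerm B Q b)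
    (hl : lf (nd.l 0) (B.x b) ≠ 0) (a : Fin (N + 1))
    (g : Fin r → MvPolynomial (Fin (N + 1)) (k0 K H hH)) (u : Fin r → ℕ → K)
    (hu : ∀ j, gm (u j) = aeval (fun i => A.x p i / A.x p a) (g j))
    {z z' : MvPolynomial (Fin n) (k0 K H hH)} (hz : rename Sum.inr z ∈ Xideal hH nd g p b a)
    (hz' : rename Sum.inr z' ∈ Xideal hH nd g p b a)
    (h0 : aeval (nd.s b) z ≠ 0 ∨ aeval (nd.s b) z' ≠ 0) {ζ ζ' : ℕ → K}
    (hζ : gm ζ = aeval (nd.s b) z) (hζ' : gm ζ' = aeval (nd.s b) z') (δ : ℝ) (hδ : 0 < δ) :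
    ∀ᶠ i in (hyperfilter ℕ : Filter ℕ),
      jg (ChP nd κ P Q a i) (fun j => u j i) ≤ nd.gn κ (Q i) (ζ i) (ζ' i) + δ * H i := by
  obtain ⟨E, hE⟩ := X_mem_ideal hH hz
  obtain ⟨E', hE'⟩ := X_mem_ideal hH hz'
  choose β hβ hβo using fun j => cbo_rep hH (ChP nd κ P Q a) (Zu nd P Q a)
    (Z_cbo_u hH nd κ P hQb hl a) (E j)
  choose β' hβ' hβo' using fun j => cbo_rep hH (ChP nd κ P Q a) (Zu nd P Q a)
    (Z_cbo_u hH nd κ P hQb hl a) (E' j)
  have hZu : (fun s => gm (Zu nd P Q a s)) =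
      Sum.elim (Sum.elim (fun i => A.x p i / A.x p a) (nd.y b)) (nd.s b) :=
    funext fun s => Z_gm_u nd hPp hQb a s
  have hren : ∀ q : MvPolynomial (Fin n) (k0 K H hH),
      aeval (Sum.elim (Sum.elim (fun i => A.x p i / A.x p a) (nd.y b)) (nd.s b))
        (rename Sum.inr q) = aeval (nd.s b) q := by
    intro q
    rw [aeval_rename]
    rfl
  refine jg_comb_germ hH (ChP nd κ P Q a) (fun i v => nd.In κ v (Q i)) (fun i v hv => hv.2)
    u β β' ζ ζ' hβo hβo' ?_ ?_ ?_ δ hδ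
  · rw [hζ, ← hren, hE]
    refine Finset.sum_congr rfl fun j _ => ?_
    rw [hβ, hZu, hu]
  · rw [hζ', ← hren, hE']
    refine Finset.sum_congr rfl fun j _ => ?_
    rw [hβ', hZu, hu]
  · rwa [hζ, hζ']

end

section

variable {K : Type u} [Field K] [NumberField K] {N : ℕ} {A B : AV K N} {hB : IsSubAV B A}
  {H : ℕ → ℝ} {hH : Tendsto H (hyperfilter ℕ : Filter ℕ) atTop} {P : ℕ → A.Pts K}
  {p : A.Pts (GK K)} {w : A.Pts (k0 K H hH)} {w' : A.Pts (GK K)}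
  {Q : ℕ → B.Pts K} {b : B.Pts (GK K)} {n : ℕ}

/-- X2. No gain in one chart (`Z_chart` of VA/Z14 for forms over `k0`; `u j` is a sequence with the
germ `g j (p / p_a)`). -/
theorem X_chart (hw : A.Img (k0 K H hH).val w w') (hPp : IsGerm A P p) (hQb : IsGerm B Q b)
    (hP : p = w' + hB.inc (GK K) b) {r d : ℕ}
    (g : Fin r → MvPolynomial (Fin (N + 1)) (k0 K H hH)) (hg : ∀ j, (g j).IsHomogeneous d)
    (hn : (n : Cardinal.{u}) ≤ tdeg (k0 K H hH) (B.x b))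
    (hY : ∀ (Ω : Type u) [Field Ω] [Algebra K Ω] [Algebra (k0 K H hH) Ω]
      [IsScalarTower K (k0 K H hH) Ω] (q : B.Pts Ω),
      (∀ j, aeval (A.x (A.img (IsScalarTower.toAlgHom K (k0 K H hH) Ω) w + hB.inc Ω q)) (g j) = 0) →
      tdeg (k0 K H hH) (B.x q) + 2 ≤ n) {e : ℕ}
    (nd : Noe B n e) (κ : SC K) (hl : lf (nd.l 0) (B.x b) ≠ 0)
    (hng : 2 ≤ n → ∀ z₀ z₁ : MvPolynomial (Fin n) (k0 K H hH), IsRelPrime z₀ z₁ →
      (aeval (nd.s b) z₀ ≠ 0 ∨ aeval (nd.s b) z₁ ≠ 0) → ∀ a a' : ℕ → K,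
      gm a = aeval (nd.s b) z₀ → gm a' = aeval (nd.s b) z₁ → ∀ ε : ℝ, 0 < ε →
        ∀ᶠ i in (hyperfilter ℕ : Filter ℕ), nd.gn κ (Q i) (a i) (a' i) ≤ ε * H i)
    (a : Fin (N + 1)) (u : Fin r → ℕ → K)
    (hu : ∀ j, gm (u j) = aeval (fun i => A.x p i / A.x p a) (g j)) (ε : ℝ) (hε : 0 < ε)
    (hgain : ∀ᶠ i in (hyperfilter ℕ : Filter ℕ), ε * H i ≤
      jg (ChP nd κ P Q a i) (fun j => u j i)) : False := by
  have hHpos : ∀ᶠ i in (hyperfilter ℕ : Filter ℕ), 0 < H i := hH.eventually_gt_atTop 0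
  -- the coordinate `a` does not vanish
  have ha : A.x p a ≠ 0 := by
    rw [hPp.ne_iff]
    filter_upwards [hgain, hHpos] with i h1 h2
    have h3 : 0 < ε * H i := mul_pos hε h2
    obtain ⟨v, hv⟩ := jg_pos _ (h3.trans_le h1)
    intro h0
    have h4 := hv.1
    rw [h0, map_zero] at h4
    refine Z_x_ne A (P i) (funext fun c => ?_)
    exact (v.eq_zero).1 (le_antisymm (h4 c) (v.nonneg _))
  have hwi : A.img (IsScalarTower.toAlgHom K (k0 K H hH) (GK K)) w = w' :=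
    (AV.img_eq_iff _).2 hw
  -- one of the forms does not vanish
  obtain ⟨j₀, hj₀⟩ : ∃ j, aeval (A.x p) (g j) ≠ 0 := by
    by_contra hcon
    push Not at hcon
    refine X_card (hY (GK K) b fun j => ?_) (hn.trans le_self_add)
    rw [hwi, ← hP]
    exact hcon j
  have hj₀' : aeval (fun i => A.x p i / A.x p a) (g j₀) ≠ 0 := by
    intro h0
    apply hj₀
    have h1 := X_aeval_smul (hg j₀) (A.x p a) (fun i => A.x p i / A.x p a)
    rw [h0, mul_zero] at h1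
    rw [← h1]
    congr 2
    funext i
    rw [mul_div_cancel₀ _ ha]
  -- the pair
  have hpair : ∀ z z' : MvPolynomial (Fin n) (k0 K H hH),
      rename Sum.inr z ∈ Xideal hH nd g p b a → rename Sum.inr z' ∈ Xideal hH nd g p b a →
      (aeval (nd.s b) z ≠ 0 ∨ aeval (nd.s b) z' ≠ 0) → ∀ ζ ζ' : ℕ → K,
      gm ζ = aeval (nd.s b) z → gm ζ' = aeval (nd.s b) z' →
      (∀ᶠ i in (hyperfilter ℕ : Filter ℕ), nd.gn κ (Q i) (ζ i) (ζ' i) ≤ ε / 3 * H i) → False := by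
    intro z z' hz hz' h0 ζ ζ' hζ hζ' hs
    have h1 := X_pair hH nd κ hPp hQb hl a g u hu hz hz' h0 hζ hζ' (ε / 3) (by positivity)
    obtain ⟨i, g1, g2, g3, g4⟩ := (h1.and (hs.and (hgain.and hHpos))).exists
    have g5 : ε * H i ≤ ε / 3 * H i + ε / 3 * H i := g3.trans (g1.trans (add_le_add_left g2 _))
    have g6 : 0 < ε * H i := mul_pos hε g4
    linarith
  rcases Z_cases (Xideal hH nd g p b a) (x := Sum.elim (fun i => A.x p i / A.x p a) (nd.y b))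
    (t := nd.s b) (fun f hf => Ideal.mem_sup_left hf)
    (Z_algebraic hB hH one_pos hw ((one_smul ℕ p).trans hP) nd hl a)
    ⟨_, Ideal.mem_sup_right (Ideal.subset_span ⟨j₀, rfl⟩), by rwa [X_aeval_g]⟩ with
    ⟨z, z', hzz, hz, hz', h0⟩ | ⟨hn0, h, hh, hdvd⟩
  · rcases Nat.lt_or_ge n 2 with h2 | h2
    · -- the unit ideal
      obtain ⟨α, β, hαβ⟩ := Z_isCoprime (by omega : n ≤ 1) hzz
      have h3 : rename Sum.inr (1 : MvPolynomial (Fin n) (k0 K H hH)) ∈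
          Xideal hH nd g p b a := by
        rw [← hαβ, map_add, map_mul, map_mul]
        exact Ideal.add_mem _ (Ideal.mul_mem_left _ _ hz) (Ideal.mul_mem_left _ _ hz')
      refine hpair 1 0 h3 (by rw [map_zero]; exact Ideal.zero_mem _)
        (Or.inl (by rw [map_one]; exact one_ne_zero)) (fun _ => 1) (fun _ => 0)
        (by rw [map_one]; rfl) (by rw [map_zero]; rfl) ?_
      filter_upwards [hHpos] with i hi
      rw [Z_gn_one]
      positivity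
    · obtain ⟨ζ, hζ⟩ := exists_gm (aeval (nd.s b) z)
      obtain ⟨ζ', hζ'⟩ := exists_gm (aeval (nd.s b) z')
      exact hpair z z' hz hz' h0 ζ ζ' hζ hζ'
        (hng h2 z z' hzz h0 ζ ζ' hζ hζ' (ε / 3) (by positivity))
  · -- the dimension count
    have hw' : A.Img (IsScalarTower.toAlgHom K (k0 K H hH) (GK K)) w w' := hw
    obtain ⟨Ω, i1, i2, i3, i4, q, hq0, hq⟩ := X_centre hB hw' hP nd hl hn0 a ha g hg
      (Xideal hH nd g p b a) (fun f hf => Ideal.mem_sup_left hf)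
      (fun j => Ideal.mem_sup_right (Ideal.subset_span ⟨j, rfl⟩)) h hh hdvd
    exact X_card (hY Ω q hq0) hq

end

end Pool.Agent.Lib.MP_17a322_nt.FU
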