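import Pool.Agent.Lib.MP_17a322_nt.FU.X2
import Pool.Agent.Lib.MP_17a322_nt.SL.Geo
import Pool.Agent.Lib.MP_17a322_nt.VP.I1

/-!
The height with respect to closed subsets of codimension two, uniformly in families: the inequality for
sequences of forms with a germ over `k0`.
-/

universe u

namespace Pool.Agent.Lib.MP_17a322_nt.FU

open MvPolynomial Height Filter
open Pool.Agent.Lib.MP_17a322_nt.RO
open Pool.Agent.Lib.MP_17a322_nt.VJ
open Pool.Agent.Lib.MP_17a322_nt.VN hiding lf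
open Pool.Agent.Lib.MP_17a322_nt.VA
open Pool.Agent.Lib.MP_17a322_nt.VP
open Pool.Agent.Lib.MP_17a322_nt.SL

section

variable {K : Type u} [Field K] [NumberField K] {N M : ℕ} {A B : AV K N} {hB : IsSubAV B A}
  {H : ℕ → ℝ} {hH : Tendsto H (hyperfilter ℕ : Filter ℕ) atTop} {P : ℕ → A.Pts K}
  {p : A.Pts (GK K)} {W : ℕ → A.Pts K} {w : A.Pts (k0 K H hH)} {w' : A.Pts (GK K)}
  {Q : ℕ → B.Pts K} {b : B.Pts (GK K)} {n : ℕ}

/-- X3. The inequality for sequences of forms with a germ over `k0` (`final_seq` of VA/Z15). -/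
theorem X_gcd (hA : GeoA hB hH P p W w w' Q b) (hBg : GeoB B hH Q b n) {r d : ℕ}
    (g : Fin r → MvPolynomial (Fin (N + 1)) (k0 K H hH)) (hg : ∀ j, (g j).IsHomogeneous d)
    (hY : ∀ (Ω : Type u) [Field Ω] [Algebra K Ω] [Algebra (k0 K H hH) Ω]
      [IsScalarTower K (k0 K H hH) Ω] (q : B.Pts Ω),
      (∀ j, aeval (A.x (A.img (IsScalarTower.toAlgHom K (k0 K H hH) Ω) w + hB.inc Ω q)) (g j) = 0) →
      tdeg (k0 K H hH) (B.x q) + 2 ≤ n)
    (G : ℕ → Fin r → MvPolynomial (Fin (N + 1)) K) (hG : ∀ i j, (G i j).IsHomogeneous d)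
    (hGg : ∀ (x : Fin (N + 1) → ℕ → K) (j : Fin r),
      gm (fun i => aeval (fun c => x c i) (G i j)) = aeval (fun c => gm (x c)) (g j))
    (ε : ℝ) (hε : 0 < ε) :
    ∀ᶠ i in (hyperfilter ℕ : Filter ℕ), (∃ j, aeval (A.x (P i)) (G i j) ≠ 0) ∧
      d * logHeight (A.x (P i)) - logHeight (fun j => aeval (A.x (P i)) (G i j)) ≤ ε * H i := by
  classical
  obtain ⟨s, e, nd, κ, hcov⟩ := exists_cover B hBg.dim
  obtain ⟨p₁, hgood⟩ := exists_shift B Q b hBg.germ hBg.min e nd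
  obtain ⟨v₀⟩ : Nonempty (NumberField.InfinitePlace K) := inferInstance
  obtain ⟨c₀, -⟩ := hcov K v₀.val (0 : B.Pts K)
  -- the shifted points
  obtain ⟨q₁, hq₁⟩ : ∃ q₁, q₁ = B.img (Algebra.ofId K (GK K)) p₁ := ⟨_, rfl⟩
  have hp₁ : B.Img (Algebra.ofId K (GK K)) p₁ q₁ := by
    rw [hq₁]
    exact Z_img_img _ _
  have hQb : IsGerm B (fun ν => Q ν - p₁) (b - q₁) :=
    (hBg.germ.add_sub (IsGerm.const p₁ hp₁)).2
  have hw₁ : A.Img (k0 K H hH).val
      (A.img (Algebra.ofId K (k0 K H hH)) (hB.inc K p₁)) (hB.inc (GK K) q₁) := by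
    obtain ⟨y, hy⟩ := Z_exists_img A (k0 K H hH).val
      (A.img (Algebra.ofId K (k0 K H hH)) (hB.inc K p₁))
    have h1 := Z_img_trans A (Z_img_img (Algebra.ofId K (k0 K H hH)) (hB.inc K p₁)) hy
    have h2 : (k0 K H hH).val.comp (Algebra.ofId K (k0 K H hH)) = Algebra.ofId K (GK K) :=
      Subsingleton.elim _ _
    rw [h2] at h1
    rw [← Z_img_unique A h1 (Z_inc_img hB hp₁)]
    exact hy
  have hw₂ := Z_img_add A hA.img hw₁
  have hrel₂ : p = (w' + hB.inc (GK K) q₁) + hB.inc (GK K) (b - q₁) := by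
    rw [map_sub, hA.rel]
    abel
  -- the dimension
  have hn₁ : (n : Cardinal.{u}) ≤ tdeg (k0 K H hH) (B.x (b - q₁)) := by
    rw [hq₁]
    exact tdeg_of_indep (nd c₀) _ (hBg.indep p₁ (nd c₀) (hgood c₀))
  have hn₀ : (n : Cardinal.{u}) ≤ tdeg (k0 K H hH) (B.x b) := by
    rw [hq₁] at hn₁
    exact hn₁.trans (tdeg_shift b p₁)
  -- the hypothesis on the codimension for the shifted point
  have hY₁ : ∀ (Ω : Type u) [Field Ω] [Algebra K Ω] [Algebra (k0 K H hH) Ω]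
      [IsScalarTower K (k0 K H hH) Ω] (q : B.Pts Ω),
      (∀ j, aeval (A.x (A.img (IsScalarTower.toAlgHom K (k0 K H hH) Ω)
        (w + A.img (Algebra.ofId K (k0 K H hH)) (hB.inc K p₁)) + hB.inc Ω q)) (g j) = 0) →
      tdeg (k0 K H hH) (B.x q) + 2 ≤ n := by
    intro Ω _ _ _ _ q hq
    have h1 : A.img (IsScalarTower.toAlgHom K (k0 K H hH) Ω)
        (w + A.img (Algebra.ofId K (k0 K H hH)) (hB.inc K p₁)) + hB.inc Ω q =
        A.img (IsScalarTower.toAlgHom K (k0 K H hH) Ω) w +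
          hB.inc Ω (q + B.img (Algebra.ofId K Ω) p₁) := by
      have h2 : (IsScalarTower.toAlgHom K (k0 K H hH) Ω).comp
          (Algebra.ofId K (k0 K H hH)) = Algebra.ofId K Ω := Subsingleton.elim _ _
      have h3 : A.img (Algebra.ofId K Ω) (hB.inc K p₁) =
          hB.inc Ω (B.img (Algebra.ofId K Ω) p₁) :=
        Z_img_unique A (Z_img_img _ _) (Z_inc_img hB (Z_img_img _ _))
      rw [AV.img_add, ← AV.img_comp, h2, h3, map_add]
      abel
    rw [h1] at hq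
    have h4 := hY Ω _ hq
    have h5 := tdeg_shift (k := k0 K H hH) (q + B.img (Algebra.ofId K Ω) p₁) p₁
    rw [add_sub_cancel_right] at h5
    exact (add_le_add_left h5 2).trans h4
  -- no gain in every chart
  have hchart : ∀ x : Fin (N + 1) × Fin s, ∀ ε' : ℝ, 0 < ε' →
      ∀ᶠ ν in (hyperfilter ℕ : Filter ℕ), jg (ChP (nd x.2) κ P (fun ν => Q ν - p₁) x.1 ν)
        (fun j => aeval (fun c => A.x (P ν) c / A.x (P ν) x.1) (G ν j)) < ε' * H ν := by
    intro x ε' hε'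
    by_contra hcon
    rw [not_eventually_iff] at hcon
    refine X_chart hw₂ hA.germP hQb hrel₂ g hg hn₁ hY₁ (nd x.2) κ ?_ ?_ x.1
      (fun j ν => aeval (fun c => A.x (P ν) c / A.x (P ν) x.1) (G ν j)) ?_ ε' hε'
      (hcon.mono fun ν hν => not_lt.1 hν)
    · rw [hq₁]
      exact (hgood x.2).1
    · intro h2 z₀ z₁ hzz h0 a a' ha ha' ε₁ hε₁
      obtain ⟨k, rfl⟩ := Nat.exists_eq_add_of_le' h2
      exact no_gain B hH _ (hBg.frm p₁) (hBg.low p₁) (hBg.upp p₁) (b - q₁) hQb hBg.dim (nd x.2) κ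
        (by rw [hq₁]; exact hgood x.2) (by rw [hq₁]; exact hBg.noRat p₁) z₀ z₁ hzz h0 a a' ha ha'
        ε₁ hε₁
    · intro j
      rw [hGg (fun c ν => A.x (P ν) c / A.x (P ν) x.1) j]
      congr 2
      funext c
      exact (hA.germP.rt (c, x.1)).symm
  -- the forms do not vanish
  obtain ⟨j₀, hj₀⟩ : ∃ j, aeval (A.x p) (g j) ≠ 0 := by
    by_contra hcon
    push Not at hcon
    have h1 : A.img (IsScalarTower.toAlgHom K (k0 K H hH) (GK K)) w = w' :=
      (AV.img_eq_iff _).2 hA.img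
    have h2 := hY (GK K) b (by rw [h1, ← hA.rel]; exact hcon)
    have h3 := (add_le_add_left hn₀ 2).trans h2
    have h4 : ((n + 2 : ℕ) : Cardinal.{u}) ≤ (n : ℕ) := by
      rw [Nat.cast_add]
      exact h3
    have h5 := Nat.cast_le.mp h4
    omega
  have hne : ∀ᶠ i in (hyperfilter ℕ : Filter ℕ), aeval (A.x (P i)) (G i j₀) ≠ 0 := by
    rw [← gm_ne_zero_iff]
    have h1 := hGg (fun c ν => A.x (P ν) c) j₀
    obtain ⟨c, hc, h2⟩ := hA.germP
    have h3 : (fun a => gm fun ν => A.x (P ν) a) = fun a => c * A.x p a := funext h2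
    rw [h3, Z_aeval_smul (hg j₀)] at h1
    rw [h1]
    exact mul_ne_zero (pow_ne_zero _ hc) hj₀
  obtain ⟨M', hM⟩ : ∃ M' : ℝ, M' = ((Fintype.card (Fin (N + 1) × Fin s) : ℕ) : ℝ) + 1 := ⟨_, rfl⟩
  have hM0 : 0 < M' := by
    rw [hM]
    positivity
  have hall : ∀ᶠ ν in (hyperfilter ℕ : Filter ℕ), ∀ x : Fin (N + 1) × Fin s,
      jg (ChP (nd x.2) κ P (fun ν => Q ν - p₁) x.1 ν)
        (fun j => aeval (fun c => A.x (P ν) c / A.x (P ν) x.1) (G ν j)) < ε / M' * H ν := by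
    rw [eventually_all]
    exact fun x => hchart x (ε / M') (by positivity)
  filter_upwards [hall, hne, hH.eventually_gt_atTop 0] with ν h1 h2 h3
  refine ⟨⟨j₀, h2⟩, ?_⟩
  have h4 := Z_total (G ν) (hG ν) (A.x (P ν)) (Z_x_ne A (P ν)) (by
    intro h0
    exact h2 (congrFun h0 j₀)) (fun c v => (nd c).In κ v (Q ν - p₁)) (fun v => hcov K v (Q ν - p₁))
  have h5 : ∑ x : Fin (N + 1) × Fin s,
      jg (ChC (A.x (P ν)) x.1 fun v => (nd x.2).In κ v (Q ν - p₁))
        (fun k => aeval (fun b => A.x (P ν) b / A.x (P ν) x.1) (G ν k)) ≤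
      ∑ x : Fin (N + 1) × Fin s, ε / M' * H ν :=
    Finset.sum_le_sum fun x _ => (h1 x).le
  rw [Finset.sum_const, Finset.card_univ, nsmul_eq_mul] at h5
  have h6 : ((Fintype.card (Fin (N + 1) × Fin s) : ℕ) : ℝ) * (ε / M' * H ν) ≤ ε * H ν := by
    have h7 : ((Fintype.card (Fin (N + 1) × Fin s) : ℕ) : ℝ) ≤ M' := by
      rw [hM]
      linarith
    have h8 : 0 ≤ ε / M' * H ν := by positivity
    calc _ ≤ M' * (ε / M' * H ν) := mul_le_mul_of_nonneg_right h7 h8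
      _ = ε * H ν := by field_simp
  exact h4.trans (h5.trans h6)

end

end Pool.Agent.Lib.MP_17a322_nt.FU
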