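import Pool.Agent.Lib.MP_17a322_nt.FU.A3
import Pool.Agent.Lib.MP_17a322_nt.FU.B2
import Pool.Agent.Lib.MP_17a322_nt.FU.T3
import Pool.Agent.Lib.MP_17a322_nt.FU.X3

/-!
The inequality for sequences of points and parameters.
-/

universe u

namespace Pool.Agent.Lib.MP_17a322_nt.FU

open MvPolynomial Height Filter
open Pool.Agent.Lib.MP_17a322_nt.RO
open Pool.Agent.Lib.MP_17a322_nt.VJ
open Pool.Agent.Lib.MP_17a322_nt.VN hiding lf
open Pool.Agent.Lib.MP_17a322_nt.VA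
open Pool.Agent.Lib.MP_17a322_nt.VP
open Pool.Agent.Lib.MP_17a322_nt.SL

section

variable {K : Type u} [Field K] {N M : ℕ}

/-- The form for one parameter. -/
noncomputable def spf {k : Type*} [CommRing k] [Algebra K k] (T : Fin (M + 1) → k)
    (f : MvPolynomial (Fin (N + 1) ⊕ Fin (M + 1)) K) : MvPolynomial (Fin (N + 1)) k :=
  aeval (Sum.elim X fun l => C (T l)) f

theorem spf_aeval {k : Type*} [CommRing k] [Algebra K k] (T : Fin (M + 1) → k)
    (f : MvPolynomial (Fin (N + 1) ⊕ Fin (M + 1)) K) {R : Type*} [CommRing R] [Algebra K R]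
    [Algebra k R] [IsScalarTower K k R] (x : Fin (N + 1) → R) :
    aeval x (spf T f) = aeval (Sum.elim x fun l => algebraMap k R (T l)) f := by
  obtain ⟨ψ, hψ⟩ : ∃ ψ : MvPolynomial (Fin (N + 1)) k →ₐ[K] R, ∀ g, ψ g = aeval x g :=
    ⟨(aeval x).restrictScalars K, fun _ => rfl⟩
  unfold spf
  rw [← hψ, comp_aeval_apply]
  congr 2
  funext i
  rcases i with a | l
  · rw [Sum.elim_inl, Sum.elim_inl, hψ, aeval_X]
  · rw [Sum.elim_inr, Sum.elim_inr, hψ, aeval_C]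

theorem spf_hom {D D' : ℕ} {f : MvPolynomial (Fin (N + 1) ⊕ Fin (M + 1)) K}
    (hf : ∀ μ ∈ f.support, ∑ i, μ (Sum.inl i) = D ∧ ∑ l, μ (Sum.inr l) = D') {k : Type*}
    [CommRing k] [Algebra K k] (T : Fin (M + 1) → k) : (spf T f).IsHomogeneous D := by
  unfold spf
  rw [aeval_def, eval₂_eq']
  refine IsHomogeneous.sum _ _ _ fun μ hμ => ?_
  obtain ⟨h1, h2⟩ := hf μ hμ
  rw [Fintype.prod_sum_type]
  simp only [Sum.elim_inl, Sum.elim_inr]
  have e1 : ((algebraMap K (MvPolynomial (Fin (N + 1)) k)) (coeff μ f)).IsHomogeneous 0 :=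
    isHomogeneous_C _ _
  have e2 : (∏ l, (C (T l) : MvPolynomial (Fin (N + 1)) k) ^ μ (Sum.inr l)).IsHomogeneous 0 := by
    have e3 := IsHomogeneous.prod Finset.univ
      (fun l => (C (T l) : MvPolynomial (Fin (N + 1)) k) ^ μ (Sum.inr l)) (fun _ => 0)
      fun l _ => by
        have e4 := (isHomogeneous_C (Fin (N + 1)) (T l)).pow (μ (Sum.inr l))
        rwa [zero_mul] at e4
    rwa [Finset.sum_const_zero] at e3
  have e5 : (∏ i, (X i : MvPolynomial (Fin (N + 1)) k) ^ μ (Sum.inl i)).IsHomogeneous D := by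
    have e3 := IsHomogeneous.prod Finset.univ
      (fun i => (X i : MvPolynomial (Fin (N + 1)) k) ^ μ (Sum.inl i)) (fun i => μ (Sum.inl i))
      fun i _ => by
        have e4 := (isHomogeneous_X k i).pow (μ (Sum.inl i))
        rwa [one_mul] at e4
    rwa [h1] at e3
  have e6 := e1.mul (e5.mul e2)
  rwa [zero_add, add_zero] at e6

end

section

variable {K : Type u} [Field K] [NumberField K] {N M : ℕ} {A B : AV K N} {hB : IsSubAV B A}
  {H : ℕ → ℝ} {hH : Tendsto H (hyperfilter ℕ : Filter ℕ) atTop} {P : ℕ → A.Pts K}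
  {p : A.Pts (GK K)} {W : ℕ → A.Pts K} {w : A.Pts (k0 K H hH)} {w' : A.Pts (GK K)}
  {Q : ℕ → B.Pts K} {b : B.Pts (GK K)} {n : ℕ}

/-- The height with respect to the closed subset `g = 0`. -/
theorem U_gcd0 (hA : GeoA hB hH P p W w w' Q b) (hBg : GeoB B hH Q b n) {D D' r : ℕ}
    (g : Fin r → MvPolynomial (Fin (N + 1) ⊕ Fin (M + 1)) K)
    (hg : ∀ j, ∀ μ ∈ (g j).support, ∑ i, μ (Sum.inl i) = D ∧ ∑ l, μ (Sum.inr l) = D')
    (t : ℕ → Fin (M + 1) → K) (l₀ : Fin (M + 1))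
    (hl₀ : ∀ᶠ i in (hyperfilter ℕ : Filter ℕ), t i l₀ ≠ 0)
    (hts : oH H fun i => logHeight (t i)) (T : Fin (M + 1) → k0 K H hH)
    (hT : ∀ l, (T l : GK K) = gm (fun i => t i l / t i l₀))
    (hY : ∀ (Ω : Type u) [Field Ω] [Algebra K Ω] [Algebra (k0 K H hH) Ω]
      [IsScalarTower K (k0 K H hH) Ω] (q : B.Pts Ω),
      (∀ j, aeval (Sum.elim
        (A.x (A.img (IsScalarTower.toAlgHom K (k0 K H hH) Ω) w + hB.inc Ω q))
        fun l => algebraMap (k0 K H hH) Ω (T l)) (g j) = 0) →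
      tdeg (k0 K H hH) (B.x q) + 2 ≤ n) (ε : ℝ) (hε : 0 < ε) :
    ∀ᶠ i in (hyperfilter ℕ : Filter ℕ),
      (∃ j, aeval (Sum.elim (A.x (P i)) (t i)) (g j) ≠ 0) ∧
      D * logHeight (A.x (P i)) + D' * logHeight (t i) -
        logHeight (fun j => aeval (Sum.elim (A.x (P i)) (t i)) (g j)) ≤ ε * H i := by
  have hoD : ∀ᶠ i in (hyperfilter ℕ : Filter ℕ), D' * logHeight (t i) ≤ ε / 2 * H i :=
    (oH.const_mul hH hts (Nat.cast_nonneg D')) (ε / 2) (by positivity)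
  filter_upwards [X_gcd hA hBg (fun j => spf T (g j)) (fun j => spf_hom (hg j) T)
    (fun Ω _ _ _ _ q hq => hY Ω q fun j => by rw [← spf_aeval]; exact hq j)
    (fun i j => spf (fun l => t i l / t i l₀) (g j))
    (fun i j => spf_hom (hg j) _) (fun x j => by
      rw [spf_aeval]
      have h1 := Z_aeval_gm (fun (s : Fin (N + 1) ⊕ Fin (M + 1)) (i : ℕ) =>
        Sum.elim (fun c => x c i) (fun l => t i l / t i l₀) s) (g j)
      have h2 : (fun s : Fin (N + 1) ⊕ Fin (M + 1) => gm fun i =>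
          Sum.elim (fun c => x c i) (fun l => t i l / t i l₀) s) =
          Sum.elim (fun c => gm (x c)) fun l => algebraMap (k0 K H hH) (GK K) (T l) := by
        funext s
        rcases s with s | s
        · rfl
        · exact (hT s).symm
      rw [h2] at h1
      rw [h1]
      refine congrArg gm (funext fun i => ?_)
      rw [spf_aeval]
      rfl) (ε / 2) (by positivity), hoD, hl₀] with i h1 h2 h3
  have h4 : ∀ j, aeval (A.x (P i)) (spf (fun l => t i l / t i l₀) (g j)) =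
      (t i l₀ ^ D')⁻¹ * aeval (Sum.elim (A.x (P i)) (t i)) (g j) := by
    intro j
    rw [spf_aeval]
    have h5 := U_smul (hg j) 1 (t i l₀)⁻¹ (A.x (P i)) (t i)
    have h6 : (fun i_1 => 1 * A.x (P i) i_1) = A.x (P i) := funext fun _ => one_mul _
    have h7 : (fun l => (t i l₀)⁻¹ * t i l) = fun l => algebraMap K K (t i l / t i l₀) :=
      funext fun l => (div_eq_inv_mul _ _).symm
    rw [h6, h7, one_pow, one_mul, inv_pow] at h5
    exact h5
  have h8 : (t i l₀ ^ D')⁻¹ ≠ 0 := inv_ne_zero (pow_ne_zero _ h3)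
  obtain ⟨⟨j, hj⟩, h9⟩ := h1
  refine ⟨⟨j, fun h0 => hj ?_⟩, ?_⟩
  · rw [h4, h0, mul_zero]
  · have h10 : logHeight (fun j => aeval (A.x (P i)) (spf (fun l => t i l / t i l₀) (g j))) =
        logHeight (fun j => aeval (Sum.elim (A.x (P i)) (t i)) (g j)) := by
      rw [funext h4]
      exact logHeight_smul_eq_logHeight (fun j => aeval (Sum.elim (A.x (P i)) (t i)) (g j)) h8
    rw [h10] at h9
    linarith

/-- The parameters in the field `k0`. -/
theorem U_param (t : ℕ → Fin (M + 1) → K) (ht0 : ∀ i, t i ≠ 0) :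
    ∃ l₀, ∀ᶠ i in (hyperfilter ℕ : Filter ℕ), t i l₀ ≠ 0 :=
  eventually_exists_fintype _ (fun l i => t i l ≠ 0)
    (Eventually.of_forall fun i => Function.ne_iff.1 (ht0 i))

theorem U_gm_t (t : ℕ → Fin (M + 1) → K) {l₀ : Fin (M + 1)}
    (hl₀ : ∀ᶠ i in (hyperfilter ℕ : Filter ℕ), t i l₀ ≠ 0) (l : Fin (M + 1)) :
    gm (fun i => t i l) = gm (fun i => t i l₀) * gm (fun i => t i l / t i l₀) := by
  rw [← gm_mul, gm_eq_iff]
  filter_upwards [hl₀] with i hi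
  rw [mul_div_cancel₀ _ hi]

/-- Comparison of natural numbers and transcendence degrees. -/
theorem U_tdeg_dich {k Ω : Type u} [Field k] [Field Ω] [Algebra k Ω] (x : Fin (N + 1) → Ω) (n : ℕ) :
    tdeg k x + 2 ≤ n ∨ (n : Cardinal.{u}) ≤ tdeg k x + 1 := by
  obtain ⟨T₀, -, -, hTc⟩ := Z_exists_basis (K := k) x
  rw [hTc]
  rcases le_or_gt (Nat.card T₀ + 2) n with h | h
  · exact Or.inl (by exact_mod_cast h)
  · exact Or.inr (by exact_mod_cast (by omega : n ≤ Nat.card T₀ + 1))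

theorem U_gcd (hA : GeoA hB hH P p W w w' Q b) (hBg : GeoB B hH Q b n) {D D' r : ℕ}
    (g : Fin r → MvPolynomial (Fin (N + 1) ⊕ Fin (M + 1)) K)
    (hg : ∀ j, ∀ μ ∈ (g j).support, ∑ i, μ (Sum.inl i) = D ∧ ∑ l, μ (Sum.inr l) = D')
    (t : ℕ → Fin (M + 1) → K) (ht0 : ∀ i, t i ≠ 0) (hts : oH H fun i => logHeight (t i))
    (hbad : ∀ᶠ i in (hyperfilter ℕ : Filter ℕ), ¬ Bad hB (P i) (t i) g) (ε : ℝ) (hε : 0 < ε) :
    ∀ᶠ i in (hyperfilter ℕ : Filter ℕ),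
      (∃ j, aeval (Sum.elim (A.x (P i)) (t i)) (g j) ≠ 0) ∧
      D * logHeight (A.x (P i)) + D' * logHeight (t i) -
        logHeight (fun j => aeval (Sum.elim (A.x (P i)) (t i)) (g j)) ≤ ε * H i := by
  obtain ⟨l₀, hl₀⟩ := U_param t ht0
  obtain ⟨T, hT⟩ : ∃ T : Fin (M + 1) → k0 K H hH,
      ∀ l, (T l : GK K) = gm (fun i => t i l / t i l₀) :=
    ⟨fun l => ⟨_, U_ratio hH t hts l l₀⟩, fun _ => rfl⟩
  refine U_gcd0 hA hBg g hg t l₀ hl₀ hts T hT (fun Ω _ _ _ _ q hq => ?_) ε hε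
  rcases U_tdeg_dich (k := k0 K H hH) (B.x q) n with h | h
  · exact h
  · exfalso
    have h2 := X_bad hA hBg g hg t T (gm fun i => t i l₀) (fun l => by rw [hT, ← U_gm_t t hl₀])
      Ω q hq h
    obtain ⟨i, h3, h4⟩ := (h2.and hbad).exists
    exact h4 h3

/-- The inequality for sequences. -/
theorem U_seq (hA : GeoA hB hH P p W w w' Q b) (hBg : GeoB B hH Q b n)
    (Γ : AddSubgroup (A.Pts K)) (hΓ : Γ.FG) (hP : ∀ i, P i ∈ Γ)
    (hupp : ∃ C : ℝ, 0 < C ∧ ∀ᶠ i in (hyperfilter ℕ : Filter ℕ), A.h (P i) ≤ C * H i)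
    {d d' r : ℕ} (g : Fin r → MvPolynomial (Fin (N + 1) ⊕ Fin (M + 1)) K)
    (hg : ∀ j, ∀ μ ∈ (g j).support, ∑ i, μ (Sum.inl i) = d ∧ ∑ l, μ (Sum.inr l) = d')
    {D D' m : ℕ} (f : Fin m → MvPolynomial (Fin (N + 1) ⊕ Fin (M + 1)) K)
    (hf : ∀ j, ∀ μ ∈ (f j).support, ∑ i, μ (Sum.inl i) = D ∧ ∑ l, μ (Sum.inr l) = D')
    (S : Finset (NumberField.FinitePlace K)) (t : ℕ → Fin (M + 1) → K) (ht0 : ∀ i, t i ≠ 0)
    (hts : oH H fun i => logHeight (t i))
    (hTr : ∀ᶠ i in (hyperfilter ℕ : Filter ℕ), ¬ ∀ j, Tr hB (P i) (t i) (f j))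
    (hbad : ∀ᶠ i in (hyperfilter ℕ : Filter ℕ), ¬ Bad hB (P i) (t i) g) (ε : ℝ) (hε : 0 < ε) :
    ∀ᶠ i in (hyperfilter ℕ : Filter ℕ),
      (∃ j, aeval (Sum.elim (A.x (P i)) (t i)) (f j) ≠ 0) ∧
      (∃ j, aeval (Sum.elim (A.x (P i)) (t i)) (g j) ≠ 0) ∧
      (d * logHeight (A.x (P i)) + d' * logHeight (t i) -
        logHeight (fun j => aeval (Sum.elim (A.x (P i)) (t i)) (g j))) +
      ((∑ v : NumberField.InfinitePlace K, (v.mult : ℝ) * lamF D D' f (A.x (P i)) (t i) v.val) +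
        ∑ v ∈ S, lamF D D' f (A.x (P i)) (t i) v.val) ≤ ε * H i := by
  obtain ⟨l₀, hl₀⟩ := U_param t ht0
  obtain ⟨j, hj⟩ : ∃ j, ∀ᶠ i in (hyperfilter ℕ : Filter ℕ), ¬ Tr hB (P i) (t i) (f j) :=
    eventually_exists_fintype _ (fun j i => ¬ Tr hB (P i) (t i) (f j)) (by
      filter_upwards [hTr] with i hi
      push Not at hi
      exact hi)
  have hf0 : ∀ᶠ i in (hyperfilter ℕ : Filter ℕ),
      aeval (Sum.elim (A.x (P i)) (t i)) (f j) ≠ 0 := by
    by_contra hcon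
    have h1 : ∀ᶠ i in (hyperfilter ℕ : Filter ℕ),
        aeval (Sum.elim (A.x (P i)) (t i)) (f j) = 0 := by
      have h2 := Ultrafilter.eventually_not.2 hcon
      filter_upwards [h2] with i hi
      exact not_not.1 hi
    have h2 := U_index hA hBg (hf j) t l₀ hl₀ (fun l => U_ratio hH t hts l l₀) h1
    obtain ⟨i, h3, h4⟩ := (h2.and hj).exists
    exact h4 h3
  filter_upwards [hf0, U_prox Γ hΓ hP hH hupp hA.germP f hf t ht0 hts j hf0 S (ε / 2)
    (by positivity), U_gcd hA hBg g hg t ht0 hts hbad (ε / 2) (by positivity)] with i h1 h2 h3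
  exact ⟨⟨j, h1⟩, h3.1, by linarith [h3.2]⟩

end

end Pool.Agent.Lib.MP_17a322_nt.FU
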