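import Pool.Agent.Lib.MP_17a322_nt.FU.Z2
import Pool.Agent.Lib.MP_17a322_nt.FU.C2
import Pool.Agent.Lib.MP_17a322_nt.FU.M4
import Pool.Agent.Lib.MP_17a322_nt.SL.D0

/-!
Uniformity in families.
-/

universe u

namespace Pool.Agent.Lib.MP_17a322_nt.FU

open MvPolynomial Height Filter
open Pool.Agent.Lib.MP_17a322_nt.RO
open Pool.Agent.Lib.MP_17a322_nt.VJ
open Pool.Agent.Lib.MP_17a322_nt.VN hiding lf
open Pool.Agent.Lib.MP_17a322_nt.VA
open Pool.Agent.Lib.MP_17a322_nt.VP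
open Pool.Agent.Lib.MP_17a322_nt.SL

theorem final {K : Type u} [Field K] [NumberField K] {N M : ℕ} (A : AV K N)
    (Γ : AddSubgroup (A.Pts K)) (hΓ : Γ.FG)
    {d d' r : ℕ} (g : Fin r → MvPolynomial (Fin (N + 1) ⊕ Fin (M + 1)) K)
    (hg : ∀ j, ∀ μ ∈ (g j).support, ∑ i, μ (Sum.inl i) = d ∧ ∑ l, μ (Sum.inr l) = d')
    {D D' m : ℕ} (f : Fin m → MvPolynomial (Fin (N + 1) ⊕ Fin (M + 1)) K)
    (hf : ∀ j, ∀ μ ∈ (f j).support, ∑ i, μ (Sum.inl i) = D ∧ ∑ l, μ (Sum.inr l) = D')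
    (S : Finset (NumberField.FinitePlace K)) (ε δ : ℝ) (hε : 0 < ε) (hδ : 0 < δ) :
    ∃ (C : ℝ) (k : ℕ) (B : Fin k → AV K N) (hB : ∀ i, IsSubAV (B i) A),
      (∀ i, ∃ n, 0 < n ∧ (B i).dimIs n) ∧
      ∀ t : Fin (M + 1) → K, t ≠ 0 → ∀ P ∈ Γ, C * (1 + logHeight t) ≤ logHeight (A.x P) →
        (∃ (i : Fin k) (w : A.Pts K) (b : (B i).Pts K), P = w + (hB i).inc K b ∧
          logHeight (A.x w) ≤ δ * logHeight (A.x P) ∧
          (Γ = ⊤ → logHeight (A.x w) ≤ C * (1 + logHeight t)) ∧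
          ((∀ j, Tr (hB i) P t (f j)) ∨ Bad (hB i) P t g)) ∨
        ((∃ j, aeval (Sum.elim (A.x P) t) (f j) ≠ 0) ∧
          (∃ j, aeval (Sum.elim (A.x P) t) (g j) ≠ 0) ∧
          (d * logHeight (A.x P) + d' * logHeight t -
            logHeight (fun j => aeval (Sum.elim (A.x P) t) (g j))) +
          ((∑ v : NumberField.InfinitePlace K, (v.mult : ℝ) * lamF D D' f (A.x P) t v.val) +
            ∑ v ∈ S, lamF D D' f (A.x P) t v.val) ≤ ε * logHeight (A.x P)) := by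
  by_contra hcon
  obtain ⟨t, P, ht0, hP, hl, hE, hlist⟩ := U_list A Γ
    (fun B hB t P C => ∃ (w : A.Pts K) (b : B.Pts K), P = w + hB.inc K b ∧
          logHeight (A.x w) ≤ δ * logHeight (A.x P) ∧
          (Γ = ⊤ → logHeight (A.x w) ≤ C * (1 + logHeight t)) ∧
          ((∀ j, Tr hB P t (f j)) ∨ Bad hB P t g))
    (by
      rintro B B' hB hB' t P C hI ⟨w, b, h1, h2, h3, h4⟩
      refine ⟨w, ⟨b.1, fun f hf => b.2 f (hI ▸ hf)⟩, h1, h2, h3, ?_⟩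
      rcases h4 with h4 | h4
      · exact Or.inl fun j => (h4 j).congr hB' hI
      · exact Or.inr (h4.congr hB' hI))
    (fun t P => (∃ j, aeval (Sum.elim (A.x P) t) (f j) ≠ 0) ∧
          (∃ j, aeval (Sum.elim (A.x P) t) (g j) ≠ 0) ∧
          (d * logHeight (A.x P) + d' * logHeight t -
            logHeight (fun j => aeval (Sum.elim (A.x P) t) (g j))) +
          ((∑ v : NumberField.InfinitePlace K, (v.mult : ℝ) * lamF D D' f (A.x P) t v.val) +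
            ∑ v ∈ S, lamF D D' f (A.x P) t v.val) ≤ ε * logHeight (A.x P)) hcon
  obtain ⟨H, hHdef⟩ : ∃ H : ℕ → ℝ, ∀ i, H i = logHeight (A.x (P i)) := ⟨_, fun _ => rfl⟩
  obtain ⟨hH, hGH'⟩ := U_scale A t P hHdef hl
  obtain ⟨G, hGdef⟩ : ∃ G : ℕ → ℝ, ∀ i, G i = 1 + logHeight (t i) := ⟨_, fun _ => rfl⟩
  have hG : ∀ i, 1 ≤ G i := fun i => by
    rw [hGdef]
    linarith [logHeight_nonneg (t i)]
  have hG0 : ∀ i, 0 ≤ G i := fun i => zero_le_one.trans (hG i)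
  have hGH : oH H G := by
    rw [show G = fun i => 1 + logHeight (t i) from funext hGdef]
    exact hGH'
  have htG : OH G fun i => logHeight (t i) :=
    ⟨1, Eventually.of_forall fun i => by
      rw [hGdef]
      linarith⟩
  have hupp : ∃ C : ℝ, 0 < C ∧ ∀ᶠ i in (hyperfilter ℕ : Filter ℕ), A.h (P i) ≤ C * H i :=
    ⟨1, one_pos, Eventually.of_forall fun i => by
      rw [hHdef, one_mul]
      exact le_rfl⟩
  obtain ⟨p, hPp⟩ := Z_exists_germ A P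
  obtain ⟨B₁, hB₁, W₁, w₁, w₁', Q₁, b₁, n₁, hA, hBg⟩ := GEO' A Γ hΓ hH P hP
    ⟨1, one_pos, Eventually.of_forall fun i => by
      rw [hHdef, one_mul]
      exact le_rfl⟩ hupp hPp
  have hoW := Z_oH_of_img hH hA.germW hA.img
  by_cases hΓt : Γ = ⊤
  · -- all scales
    have hgen₁ := D_geoB hBg
    obtain ⟨G₁, hG₁def⟩ : ∃ G₁ : ℕ → ℝ, ∀ i, G₁ i = G i + A.h (W₁ i) := ⟨_, fun _ => rfl⟩
    have hhW : ∀ i, 0 ≤ A.h (W₁ i) := fun i => logHeight_nonneg _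
    have hG₁ : ∀ i, 1 ≤ G₁ i := fun i => by
      rw [hG₁def]
      linarith [hG i, hhW i]
    have hG₁H : oH H G₁ := by
      rw [show G₁ = fun i => G i + A.h (W₁ i) from funext hG₁def]
      exact hGH.add hoW
    have hk : kO K G₁ hG₁ ≤ k0 K H hH := kO_le_k0 hG₁H
    have hD₁ : Dec G₁ hG₁ P hB₁ W₁ Q₁ b₁ :=
      ⟨hA.relK, hBg.germ, fun L _ _ q => (hgen₁ L q).trans (M_tdeg_anti hk _),
        ⟨1, Eventually.of_forall fun i => by
          rw [hG₁def]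
          linarith [hG0 i]⟩⟩
    obtain ⟨B, hB, W, Q, b, hBI, hD⟩ := M_dec (by rw [← hΓt]; exact hΓ) G hG P hB₁ W₁ Q₁ b₁ G₁ hG₁
      hG₁def hD₁
    obtain ⟨n, hn⟩ := Z_exists_dim B
    have hn0 : 0 < n := by
      obtain ⟨L, i1, i2, q, hq⟩ := hBg.dim.2
      have h1 := hn.1 L ((M_sub hB₁ hB hBI).inc L q)
      have h2 : tdeg K (B.x ((M_sub hB₁ hB hBI).inc L q)) = n₁ := hq
      rw [h2] at h1
      have h3 : n₁ ≤ n := by exact_mod_cast h1
      exact lt_of_lt_of_le hBg.pos h3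
    have hmain : ∀ᶠ i in (hyperfilter ℕ : Filter ℕ),
        (¬ ∀ j, Tr hB (P i) (t i) (f j)) ∧ ¬ Bad hB (P i) (t i) g := by
      obtain ⟨C₀, hC₀⟩ := hD.ht
      obtain ⟨c, hc⟩ := exists_nat_ge C₀
      have hge : ∀ᶠ i in (hyperfilter ℕ : Filter ℕ), c ≤ i :=
        (eventually_ge_atTop c).filter_mono Nat.hyperfilter_le_atTop
      filter_upwards [hlist B hB ⟨n, hn0, hn⟩, hD.rel, hC₀, hge, oH_of_OH hD.ht hGH hG0 δ hδ]
        with i h1 h2 h3 h4 h5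
      have h6 : logHeight (A.x (W i)) ≤ δ * logHeight (A.x (P i)) := by
        rw [← hHdef]
        exact h5
      have h7 : logHeight (A.x (W i)) ≤ (i : ℝ) * (1 + logHeight (t i)) := by
        rw [← hGdef]
        refine le_trans h3 (mul_le_mul_of_nonneg_right (hc.trans ?_) (hG0 i))
        exact_mod_cast h4
      exact ⟨fun h8 => h1 ⟨W i, Q i, h2, h6, fun _ => h7, Or.inl h8⟩,
        fun h8 => h1 ⟨W i, Q i, h2, h6, fun _ => h7, Or.inr h8⟩⟩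
    obtain ⟨i, h1⟩ := (U_seq2 hA hBg hBI hGH hgen₁ hD Γ hΓ hP hupp g hg f hf S t ht0 htG
      (hmain.mono fun i hi => hi.1) (hmain.mono fun i hi => hi.2) ε hε).exists
    refine hE i ?_
    rw [hHdef] at h1
    exact h1
  · -- one scale
    have hmain : ∀ᶠ i in (hyperfilter ℕ : Filter ℕ),
        (¬ ∀ j, Tr hB₁ (P i) (t i) (f j)) ∧ ¬ Bad hB₁ (P i) (t i) g := by
      filter_upwards [hlist B₁ hB₁ ⟨n₁, hBg.pos, hBg.dim⟩, hA.relK, hoW δ hδ] with i h1 h2 h5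
      have h6 : logHeight (A.x (W₁ i)) ≤ δ * logHeight (A.x (P i)) := by
        rw [← hHdef]
        exact h5
      exact ⟨fun h8 => h1 ⟨W₁ i, Q₁ i, h2, h6, fun h => absurd h hΓt, Or.inl h8⟩,
        fun h8 => h1 ⟨W₁ i, Q₁ i, h2, h6, fun h => absurd h hΓt, Or.inr h8⟩⟩
    obtain ⟨i, h1⟩ := (U_seq hA hBg Γ hΓ hP hupp g hg f hf S t ht0
      (oH_of_OH htG hGH hG0)
      (hmain.mono fun i hi => hi.1) (hmain.mono fun i hi => hi.2) ε hε).exists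
    refine hE i ?_
    rw [hHdef] at h1
    exact h1

end Pool.Agent.Lib.MP_17a322_nt.FU
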