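import Pool.Agent.Lib.MP_17a322_nt.FU.Z0
import Pool.Agent.Lib.MP_17a322_nt.FU.M2
import Pool.Agent.Lib.MP_17a322_nt.FU.M5
import Pool.Agent.Lib.MP_17a322_nt.FU.M6

/-!
The inequality for sequences, for the decomposition at all scales.
-/

universe u

namespace Pool.Agent.Lib.MP_17a322_nt.FU

open MvPolynomial Height Filter
open Pool.Agent.Lib.MP_17a322_nt.RO
open Pool.Agent.Lib.MP_17a322_nt.VJ
open Pool.Agent.Lib.MP_17a322_nt.VN hiding lf
open Pool.Agent.Lib.MP_17a322_nt.VA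
open Pool.Agent.Lib.MP_17a322_nt.VP
open Pool.Agent.Lib.MP_17a322_nt.SL

section

variable {K : Type u} [Field K] [NumberField K] {N M : ℕ} {A B B₁ : AV K N} {hB : IsSubAV B A}
  {hB₁ : IsSubAV B₁ A} {H : ℕ → ℝ} {hH : Tendsto H (hyperfilter ℕ : Filter ℕ) atTop}
  {P : ℕ → A.Pts K} {p : A.Pts (GK K)} {W₁ : ℕ → A.Pts K} {w₁ : A.Pts (k0 K H hH)}
  {w₁' : A.Pts (GK K)} {Q₁ : ℕ → B₁.Pts K} {b₁ : B₁.Pts (GK K)} {n₁ : ℕ} {G : ℕ → ℝ}
  {hG : ∀ i, 1 ≤ G i} {W : ℕ → A.Pts K} {Q : ℕ → B.Pts K} {b : B.Pts (GK K)}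

/-- The data for the field `kO`. -/
theorem U_geoK (hPp : IsGerm A P p) (h : Dec G hG P hB W Q b) :
    ∃ (w : A.Pts (kO K G hG)) (w' : A.Pts (GK K)), GeoK hB (kO K G hG) P p W w w' Q b := by
  obtain ⟨w', hw'⟩ := Z_exists_germ A W
  obtain ⟨w, hw⟩ := Z_descend A (kO K G hG) w' fun i => kO_rt hw' h.ht i
  refine ⟨w, w', ⟨hPp, hw, hw', ?_, h.rel, h.germ, h.gen⟩⟩
  have h1 : IsGerm A (fun ν => W ν + hB.inc K (Q ν)) (w' + hB.inc (GK K) b) :=
    (hw'.add_sub (h.germ.inc hB)).1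
  exact hPp.unique (h1.congr (h.rel.mono fun i hi => hi.symm))

/-- The inequality for sequences. -/
theorem U_seq2 (hA : GeoA hB₁ hH P p W₁ w₁ w₁' Q₁ b₁) (hBg : GeoB B₁ hH Q₁ b₁ n₁)
    (hBI : B.I ≤ B₁.I) (hGH : oH H G) (hgen₁ : GenP B₁ (k0 K H hH) b₁)
    (hD : Dec G hG P hB W Q b)
    (Γ : AddSubgroup (A.Pts K)) (hΓ : Γ.FG) (hP : ∀ i, P i ∈ Γ)
    (hupp : ∃ C : ℝ, 0 < C ∧ ∀ᶠ i in (hyperfilter ℕ : Filter ℕ), A.h (P i) ≤ C * H i)
    {d d' r : ℕ} (g : Fin r → MvPolynomial (Fin (N + 1) ⊕ Fin (M + 1)) K)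
    (hg : ∀ j, ∀ μ ∈ (g j).support, ∑ i, μ (Sum.inl i) = d ∧ ∑ l, μ (Sum.inr l) = d')
    {D D' m : ℕ} (f : Fin m → MvPolynomial (Fin (N + 1) ⊕ Fin (M + 1)) K)
    (hf : ∀ j, ∀ μ ∈ (f j).support, ∑ i, μ (Sum.inl i) = D ∧ ∑ l, μ (Sum.inr l) = D')
    (S : Finset (NumberField.FinitePlace K)) (t : ℕ → Fin (M + 1) → K) (ht0 : ∀ i, t i ≠ 0)
    (htG : OH G fun i => logHeight (t i))
    (hTr : ∀ᶠ i in (hyperfilter ℕ : Filter ℕ), ¬ ∀ j, Tr hB (P i) (t i) (f j))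
    (hbad : ∀ᶠ i in (hyperfilter ℕ : Filter ℕ), ¬ Bad hB (P i) (t i) g) (ε : ℝ) (hε : 0 < ε) :
    ∀ᶠ i in (hyperfilter ℕ : Filter ℕ),
      (∃ j, aeval (Sum.elim (A.x (P i)) (t i)) (f j) ≠ 0) ∧
      (∃ j, aeval (Sum.elim (A.x (P i)) (t i)) (g j) ≠ 0) ∧
      (d * logHeight (A.x (P i)) + d' * logHeight (t i) -
        logHeight (fun j => aeval (Sum.elim (A.x (P i)) (t i)) (g j))) +
      ((∑ v : NumberField.InfinitePlace K, (v.mult : ℝ) * lamF D D' f (A.x (P i)) (t i) v.val) +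
        ∑ v ∈ S, lamF D D' f (A.x (P i)) (t i) v.val) ≤ ε * H i := by
  obtain ⟨l₀, hl₀⟩ := U_param t ht0
  have hts : oH H fun i => logHeight (t i) :=
    oH_of_OH htG hGH fun i => zero_le_one.trans (hG i)
  have hk : kO K G hG ≤ k0 K H hH := kO_le_k0 hGH
  obtain ⟨w, w', hK⟩ := U_geoK hA.germP hD
  have htk : ∀ l, gm (fun i => t i l / t i l₀) ∈ kO K G hG := by
    intro l
    rw [mem_kO]
    refine htG.mono (Eventually.of_forall fun i => ?_)
    rw [logHeight₁_div_eq_logHeight]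
    have h4 : (![t i l, t i l₀] : Fin 2 → K) = t i ∘ ![l, l₀] := by
      funext b
      fin_cases b <;> rfl
    rw [h4]
    exact logHeight_comp_le _ _
  obtain ⟨Tk, hTk⟩ : ∃ Tk : Fin (M + 1) → kO K G hG,
      ∀ l, (Tk l : GK K) = gm (fun i => t i l / t i l₀) := ⟨fun l => ⟨_, htk l⟩, fun _ => rfl⟩
  -- the forms `f`
  obtain ⟨j, hj⟩ : ∃ j, ∀ᶠ i in (hyperfilter ℕ : Filter ℕ), ¬ Tr hB (P i) (t i) (f j) :=
    eventually_exists_fintype _ (fun j i => ¬ Tr hB (P i) (t i) (f j)) (by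
      filter_upwards [hTr] with i hi
      push Not at hi
      exact hi)
  have hf0 : ∀ᶠ i in (hyperfilter ℕ : Filter ℕ),
      aeval (Sum.elim (A.x (P i)) (t i)) (f j) ≠ 0 := by
    by_contra hcon
    have h1 : ∀ᶠ i in (hyperfilter ℕ : Filter ℕ),
        aeval (Sum.elim (A.x (P i)) (t i)) (f j) = 0 := by
      have h2 := Ultrafilter.eventually_not.2 hcon
      filter_upwards [h2] with i hi
      exact not_not.1 hi
    have h2 := M_index hK (hf j) t l₀ hl₀ htk h1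
    obtain ⟨i, h3, h4⟩ := (h2.and hj).exists
    exact h4 h3
  -- the difference of the two decompositions
  have hBB : IsSubAV B₁ B := M_sub hB₁ hB hBI
  obtain ⟨ι, hι⟩ : ∃ ι : kO K G hG →ₐ[K] k0 K H hH, ∀ c, ((ι c : k0 K H hH) : GK K) = c :=
    ⟨IntermediateField.inclusion hk, fun _ => rfl⟩
  obtain ⟨w₀, hw₀⟩ : ∃ z, z = A.img ι w := ⟨_, rfl⟩
  have hw₀' : A.img (k0 K H hH).val w₀ = w' := by
    rw [hw₀, ← AV.img_comp]
    have h1 : (k0 K H hH).val.comp ι = (kO K G hG).val := AlgHom.ext fun c => hι c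
    rw [h1]
    exact (AV.img_eq_iff _).2 hK.img
  have hw₁' : A.img (k0 K H hH).val w₁ = w₁' := (AV.img_eq_iff _).2 hA.img
  obtain ⟨β', hβ'⟩ : ∃ z, z = b - hBB.inc (GK K) b₁ := ⟨_, rfl⟩
  have hβA : hB.inc (GK K) β' = w₁' - w' := by
    have h1 : hB.inc (GK K) (hBB.inc (GK K) b₁) = hB₁.inc (GK K) b₁ := rfl
    have h2 : w' + hB.inc (GK K) b = w₁' + hB₁.inc (GK K) b₁ := hK.rel.symm.trans hA.rel
    rw [hβ', map_sub, h1, sub_eq_sub_iff_add_eq_add, add_comm, h2, add_comm]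
  have himg : A.Img (k0 K H hH).val (w₁ - w₀) (w₁' - w') :=
    (AV.img_eq_iff _).1 (by rw [AV.img_sub, hw₀', hw₁'])
  obtain ⟨β, hβ⟩ := Z_descend B (k0 K H hH) β' fun i => by
    have h1 : rt (B.x β') i = rt (A.x (hB.inc (GK K) β')) i := rfl
    rw [h1, hβA]
    exact Z_rt_mem A himg i
  have hβw : hB.inc (k0 K H hH) β = w₁ - w₀ := by
    refine AV.img_injective (k0 K H hH).val ?_
    rw [(AV.img_eq_iff _).2 himg, ← hβA]
    exact (AV.img_eq_iff _).2 (Z_inc_img hB hβ)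
  obtain ⟨n, hn⟩ := Z_exists_dim B
  obtain ⟨T, hT⟩ : ∃ T : Fin (M + 1) → k0 K H hH, ∀ l, T l = ι (Tk l) := ⟨_, fun _ => rfl⟩
  have hTg : ∀ l, (T l : GK K) = gm (fun i => t i l / t i l₀) := fun l => by
    rw [hT, hι, hTk]
  filter_upwards [hf0, U_prox Γ hΓ hP hH hupp hA.germP f hf t ht0 hts j hf0 S (ε / 2)
    (by positivity), U_gcd0 hA hBg g hg t l₀ hl₀ hts T hTg (by
      intro Ω _ _ _ _ q hq
      rcases U_tdeg_dich (k := k0 K H hH) (B₁.x q) n₁ with h | h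
      · exact h
      · exfalso
        let _ : Algebra (kO K G hG) Ω :=
          ((algebraMap (k0 K H hH) Ω).comp (ι : kO K G hG →+* k0 K H hH)).toAlgebra
        have htow : @IsScalarTower K (kO K G hG) Ω Algebra.toSMul Algebra.toSMul Algebra.toSMul :=
          IsScalarTower.of_algebraMap_eq fun c => by
            rw [IsScalarTower.algebraMap_apply K (k0 K H hH) Ω]
            exact congrArg (algebraMap (k0 K H hH) Ω) (ι.commutes c).symm
        have hkΩ : ∀ c : kO K G hG, algebraMap (kO K G hG) Ω c =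
            algebraMap (k0 K H hH) Ω ⟨c, hk c.2⟩ := fun c =>
          congrArg (algebraMap (k0 K H hH) Ω) (Subtype.ext (hι c))
        have h2 := M_transfer hB hB₁ hBB (kO K G hG) (k0 K H hH) hk hn hBg.dim hβ
          (by rw [hβ']; abel) hD.gen hgen₁ Ω hkΩ q h
        have hψ : IsScalarTower.toAlgHom K (kO K G hG) Ω =
            (IsScalarTower.toAlgHom K (k0 K H hH) Ω).comp ι := AlgHom.ext fun c => rfl
        have hpt : A.img (IsScalarTower.toAlgHom K (kO K G hG) Ω) w +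
            hB.inc Ω (B.img (IsScalarTower.toAlgHom K (k0 K H hH) Ω) β + hBB.inc Ω q) =
            A.img (IsScalarTower.toAlgHom K (k0 K H hH) Ω) w₁ + hB₁.inc Ω q := by
          have h3 : hB.inc Ω (B.img (IsScalarTower.toAlgHom K (k0 K H hH) Ω) β) =
              A.img (IsScalarTower.toAlgHom K (k0 K H hH) Ω) (hB.inc _ β) :=
            ((AV.img_eq_iff _).2 (Z_inc_img hB (Z_img_img _ β))).symm
          have h4 : hB.inc Ω (hBB.inc Ω q) = hB₁.inc Ω q := rfl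
          rw [map_add, h3, h4, hβw, AV.img_sub, hψ, AV.img_comp, ← hw₀]
          abel
        have h5 := M_bad hK hn g hg t Tk (gm fun i => t i l₀)
          (fun l => by rw [hTk, ← U_gm_t t hl₀]) Ω _ (fun j => by
            rw [hpt]
            have h6 : (fun l => algebraMap (kO K G hG) Ω (Tk l)) =
                fun l => algebraMap (k0 K H hH) Ω (T l) := funext fun l => by
              rw [hT]
              rfl
            rw [h6]
            exact hq j) h2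
        obtain ⟨i, h3, h4⟩ := (h5.and hbad).exists
        exact h4 h3) (ε / 2) (by positivity)] with i h1 h2 h3
  exact ⟨⟨j, h1⟩, h3.1, by linarith [h3.2]⟩

end

end Pool.Agent.Lib.MP_17a322_nt.FU
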